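import Pool.Agent.MP_c903c4_nt.Defs
import Pool.Agent.MP_2a1f0e_nt.Div

/-!
Collisions among the sums of a power of three and a power of five.
-/

open Finset Filter Topology
open scoped Classical

noncomputable section

namespace Pool.Agent.MP_c903c4_nt

lemma coll_harm (S : Finset ℕ) {R : ℝ} (hR : 1 ≤ R) (hS : ∀ q ∈ S, 1 ≤ q ∧ (q : ℝ) ≤ R) :
    ∑ q ∈ S, (1 : ℝ) / q ≤ 1 + Real.log R := by
  have h1 : S ⊆ Icc 1 ⌊R⌋₊ := fun q hq =>
    mem_Icc.2 ⟨(hS q hq).1, Nat.le_floor (hS q hq).2⟩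
  have h2 : ∑ q ∈ S, (1 : ℝ) / q ≤ ∑ q ∈ Icc 1 ⌊R⌋₊, (1 : ℝ) / q :=
    sum_le_sum_of_subset_of_nonneg h1 fun q _ _ => by positivity
  have h3 := harmonic_le_one_add_log ⌊R⌋₊
  rw [harmonic_eq_sum_Icc] at h3
  push_cast at h3
  have h4 : (0 : ℝ) < ⌊R⌋₊ := by exact_mod_cast Nat.floor_pos.2 hR
  have h5 := Real.log_le_log h4 (Nat.floor_le (by linarith))
  simp only [one_div] at h2 ⊢
  linarith

lemma coll_five_le {a b c d : ℕ} (h : (5 : ℤ) ^ a + 5 ^ b = 5 ^ c + 5 ^ d) : a ≤ c ∨ a ≤ d := by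
  by_contra hn
  push Not at hn
  have h1 : (5 : ℤ) ^ (c + 1) ≤ 5 ^ a := pow_le_pow_right₀ (by norm_num) hn.1
  have h2 : (5 : ℤ) ^ (d + 1) ≤ 5 ^ a := pow_le_pow_right₀ (by norm_num) hn.2
  have h3 : (0 : ℤ) < 5 ^ a := by positivity
  have h4 : (0 : ℤ) < 5 ^ b := by positivity
  rw [pow_succ] at h1 h2
  linarith

lemma coll_five_inj {a b : ℕ} (h : (5 : ℤ) ^ a = 5 ^ b) : a = b :=
  pow_right_injective₀ (by norm_num) (by norm_num) h

lemma coll_three_inj {a b : ℕ} (h : (3 : ℤ) ^ a = 3 ^ b) : a = b :=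
  pow_right_injective₀ (by norm_num) (by norm_num) h

lemma coll_five {a b c d : ℕ} (h : (5 : ℤ) ^ a + 5 ^ b = 5 ^ c + 5 ^ d) :
    (a = c ∧ b = d) ∨ (a = d ∧ b = c) := by
  have h1 := coll_five_le h
  have h2 := coll_five_le (a := b) (b := a) (c := c) (d := d) (by linarith)
  have h3 := coll_five_le h.symm
  have h4 := coll_five_le (a := d) (b := c) (c := a) (d := b) (by linarith)
  have k : a = c ∨ a = d ∨ b = c ∨ b = d := by omega
  rcases k with rfl | rfl | rfl | rfl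
  · exact Or.inl ⟨rfl, coll_five_inj (by linarith)⟩
  · exact Or.inr ⟨rfl, coll_five_inj (by linarith)⟩
  · exact Or.inr ⟨coll_five_inj (by linarith), rfl⟩
  · exact Or.inl ⟨coll_five_inj (by linarith), rfl⟩

lemma coll_sep {N T l c₀ : ℕ} {g : ℤ}
    (h : ∀ i c : ℕ, 0 < i → i < l → ¬ (N : ℤ) ∣ g ^ c * (g ^ (T * i) - 1)) (hl : 1 ≤ l) {i j : ℕ}
    (hij : i / l = j / l) (hd : (N : ℤ) ∣ g ^ (c₀ + T * i) - g ^ (c₀ + T * j)) : i = j := by
  wlog hle : j ≤ i generalizing i j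
  · exact (this hij.symm (dvd_sub_comm.1 hd) (by omega)).symm
  obtain ⟨k, rfl⟩ := Nat.exists_eq_add_of_le hle
  rcases Nat.eq_zero_or_pos k with rfl | hk
  · rfl
  exfalso
  have hkl : k < l := by
    by_contra hn
    have h1 : (j + l) / l ≤ (j + k) / l := Nat.div_le_div_right (by omega)
    rw [Nat.add_div_right _ hl] at h1
    omega
  refine h k (c₀ + T * j) hk hkl ?_
  convert hd using 1
  ring

section
variable {G T c₀ d₀ : ℕ} {a : ℤ} {b : ℕ × ℕ → ℤ}

lemma coll_diff (hb : ∀ x : ℕ × ℕ, mm a (c₀ + T * x.1) (d₀ + T * x.2) = G * b x) (x y : ℕ × ℕ) :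
    (G : ℤ) * (b x - b y) = (3 ^ (c₀ + T * y.1) - 3 ^ (c₀ + T * x.1)) +
      (5 ^ (d₀ + T * y.2) - 5 ^ (d₀ + T * x.2)) := by
  rw [mul_sub, ← hb, ← hb, mm, mm]
  ring

lemma coll_cc (hb : ∀ x : ℕ × ℕ, mm a (c₀ + T * x.1) (d₀ + T * x.2) = G * b x) {q l : ℕ}
    (hl : 1 ≤ l) (hs : Sep (G * q) T l) (K : ℕ) :
    cc (range K ×ˢ range K) b q ≤ (K / l + 1) * K ^ 3 := by
  have key : ∀ x x' y : ℕ × ℕ, (q : ℤ) ∣ b x - b y → (q : ℤ) ∣ b x' - b y →
      ((G * q : ℕ) : ℤ) ∣ (3 ^ (c₀ + T * x'.1) - 3 ^ (c₀ + T * x.1)) +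
        (5 ^ (d₀ + T * x'.2) - 5 ^ (d₀ + T * x.2)) := by
    intro x x' y h1 h2
    rw [← coll_diff hb, Nat.cast_mul]
    refine mul_dvd_mul_left _ ?_
    have := dvd_sub h1 h2
    rwa [sub_sub_sub_cancel_right] at this
  have hc : (range (K / l + 1) ×ˢ range K ×ˢ range K ×ˢ range K).card = (K / l + 1) * K ^ 3 := by
    simp only [card_product, card_range]
    ring
  rw [← hc, cc]
  obtain ⟨g, hg | hg, h⟩ := hs
  · subst hg
    refine card_le_card_of_injOn (fun z => (z.1.1 / l, z.1.2, z.2)) ?_ ?_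
    · intro z hz
      simp only [coe_filter, mem_product, mem_range, Set.mem_ofPred_eq] at hz
      simp only [coe_product, coe_range, Set.mem_prod, Set.mem_Iio]
      exact ⟨Nat.lt_succ_of_le (Nat.div_le_div_right hz.1.1.1.le), hz.1.1.2, hz.1.2.1, hz.1.2.2⟩
    · rintro ⟨⟨i, j⟩, y⟩ hz ⟨⟨i', j'⟩, y'⟩ hz' e
      simp only [coe_filter, Set.mem_ofPred_eq] at hz hz'
      simp only [Prod.mk.injEq] at e
      obtain ⟨e1, rfl, rfl⟩ := e
      have := key _ _ _ hz.2 hz'.2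
      simp only [sub_self, add_zero] at this
      rw [coll_sep h hl e1.symm this]
  · subst hg
    refine card_le_card_of_injOn (fun z => (z.1.2 / l, z.1.1, z.2)) ?_ ?_
    · intro z hz
      simp only [coe_filter, mem_product, mem_range, Set.mem_ofPred_eq] at hz
      simp only [coe_product, coe_range, Set.mem_prod, Set.mem_Iio]
      exact ⟨Nat.lt_succ_of_le (Nat.div_le_div_right hz.1.1.2.le), hz.1.1.1, hz.1.2.1, hz.1.2.2⟩
    · rintro ⟨⟨i, j⟩, y⟩ hz ⟨⟨i', j'⟩, y'⟩ hz' e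
      simp only [coe_filter, Set.mem_ofPred_eq] at hz hz'
      simp only [Prod.mk.injEq] at e
      obtain ⟨e1, rfl, rfl⟩ := e
      have := key _ _ _ hz.2 hz'.2
      simp only [sub_self, zero_add] at this
      rw [coll_sep h hl e1.symm this]

lemma coll_eq (hT : 0 < T) (hb : ∀ x : ℕ × ℕ, mm a (c₀ + T * x.1) (d₀ + T * x.2) = G * b x)
    (K : ℕ) : (((range K ×ˢ range K) ×ˢ (range K ×ˢ range K)).filter
      fun z => b z.1 - b z.2 = 0).card ≤ 2 * K ^ 2 := by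
  have hc : ((univ : Finset Bool) ×ˢ range K ×ˢ range K).card = 2 * K ^ 2 := by
    simp only [card_product, card_range, card_univ, Fintype.card_bool]
    ring
  have canc : ∀ {c i j : ℕ}, c + T * i = c + T * j → i = j := fun h =>
    Nat.eq_of_mul_eq_mul_left hT (Nat.add_left_cancel h)
  rw [← hc]
  refine card_le_card_of_injOn
    (fun z => if z.1.1 = z.2.1 then (true, z.1) else (false, z.1.1, z.2.1)) ?_ ?_
  · intro z hz
    simp only [coe_filter, mem_product, mem_range, Set.mem_ofPred_eq] at hz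
    simp only [coe_product, coe_range, Set.mem_prod, Set.mem_Iio, coe_univ, Set.mem_univ, true_and]
    split_ifs
    · exact hz.1.1
    · exact ⟨hz.1.1.1, hz.1.2.1⟩
  · rintro ⟨⟨i, j⟩, u, v⟩ hz ⟨⟨i', j'⟩, u', v'⟩ hz' e
    simp only [coe_filter, Set.mem_ofPred_eq] at hz hz'
    have h1 := coll_diff hb (i, j) (u, v)
    have h2 := coll_diff hb (i', j') (u', v')
    rw [hz.2, mul_zero] at h1
    rw [hz'.2, mul_zero] at h2
    simp only at h1 h2 e
    split_ifs at e with k1 k2 k2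
    · simp only [Prod.mk.injEq, true_and] at e
      obtain ⟨rfl, rfl⟩ := e
      subst k1
      subst k2
      have e1 : v = j := canc (coll_five_inj (by linarith))
      have e2 : v' = j := canc (coll_five_inj (by linarith))
      rw [e1, e2]
    · simp at e
    · simp at e
    · simp only [Prod.mk.injEq, true_and] at e
      obtain ⟨rfl, rfl⟩ := e
      rcases coll_five (a := d₀ + T * v) (b := d₀ + T * j') (c := d₀ + T * v') (d := d₀ + T * j)
        (by linarith) with ⟨e1, e2⟩ | ⟨e1, -⟩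
      · rw [canc e1, canc e2]
      · rw [e1] at h1
        exact absurd (canc (coll_three_inj (by linarith))) k1

lemma coll_size (hG : 0 < G) (hb : ∀ x : ℕ × ℕ, mm a (c₀ + T * x.1) (d₀ + T * x.2) = G * b x)
    {K : ℕ} {x y : ℕ × ℕ} (hx : x ∈ range K ×ˢ range K) (hy : y ∈ range K ×ˢ range K) :
    (b x - b y).natAbs ≤ 5 ^ (c₀ + d₀ + 1 + T * K) := by
  simp only [mem_product, mem_range] at hx hy
  have h3 : ∀ i, i < K → (0 : ℤ) < 3 ^ (c₀ + T * i) ∧
      (3 : ℤ) ^ (c₀ + T * i) ≤ 5 ^ (c₀ + d₀ + T * K) := fun i hi =>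
    ⟨by positivity, (pow_le_pow_left₀ (by norm_num) (by norm_num) _).trans
      (pow_le_pow_right₀ (by norm_num) (by have := Nat.mul_le_mul_left T hi.le; omega))⟩
  have h5 : ∀ i, i < K → (0 : ℤ) < 5 ^ (d₀ + T * i) ∧
      (5 : ℤ) ^ (d₀ + T * i) ≤ 5 ^ (c₀ + d₀ + T * K) := fun i hi =>
    ⟨by positivity,
      pow_le_pow_right₀ (by norm_num) (by have := Nat.mul_le_mul_left T hi.le; omega)⟩
  have h := coll_diff hb x y
  have e : (5 : ℤ) ^ (c₀ + d₀ + 1 + T * K) = 5 * 5 ^ (c₀ + d₀ + T * K) := by ring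
  have hG' : (1 : ℤ) ≤ G := by exact_mod_cast hG
  have k : |(G : ℤ) * (b x - b y)| ≤ 5 ^ (c₀ + d₀ + 1 + T * K) := by
    rw [h, e, abs_le]
    have := h3 _ hx.1
    have := h3 _ hy.1
    have := h5 _ hx.2
    have := h5 _ hy.2
    constructor <;> linarith
  rw [abs_mul, abs_of_pos (by linarith)] at k
  have k2 := mul_le_mul_of_nonneg_right hG' (abs_nonneg (b x - b y))
  zify
  linarith

end

lemma coll_swap {ι : Type} (P : Finset ι) (b : ι → ℤ) (S : Finset ℕ) :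
    ∑ q ∈ S, (cc P b q : ℝ) / q =
      ∑ z ∈ P ×ˢ P, ∑ q ∈ S.filter (fun q : ℕ => (q : ℤ) ∣ b z.1 - b z.2), (1 : ℝ) / q := by
  simp only [cc, card_filter, sum_filter]
  rw [sum_comm]
  refine sum_congr rfl fun q _ => ?_
  push_cast
  rw [sum_div]
  refine sum_congr rfl fun z _ => ?_
  split_ifs <;> simp

lemma coll_div {h : ℤ} (h0 : h ≠ 0) (S : Finset ℕ) {R : ℝ} (hR : 0 < R)
    (hS : ∀ q ∈ S, R ≤ q) :
    ∑ q ∈ S.filter (fun q : ℕ => (q : ℤ) ∣ h), (1 : ℝ) / q ≤ h.natAbs.divisors.card / R := by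
  have h1 : S.filter (fun q : ℕ => (q : ℤ) ∣ h) ⊆ h.natAbs.divisors := fun q hq =>
    Nat.mem_divisors.2 ⟨Int.natCast_dvd.1 (mem_filter.1 hq).2, Int.natAbs_ne_zero.2 h0⟩
  have h2 := sum_le_card_nsmul (S.filter (fun q : ℕ => (q : ℤ) ∣ h)) (fun q => (1 : ℝ) / q) (1 / R)
    fun q hq => one_div_le_one_div_of_le hR (hS q (mem_filter.1 hq).1)
  refine h2.trans ?_
  rw [nsmul_eq_mul, mul_one_div]
  exact div_le_div_of_nonneg_right (by exact_mod_cast card_le_card h1) hR.le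

theorem coll {G q₁ T c₀ d₀ : ℕ} {a : ℤ} {lam : ℕ → ℕ} (hG : 0 < G) (hT : 0 < T) (b : ℕ × ℕ → ℤ)
    (hb : ∀ x : ℕ × ℕ, mm a (c₀ + T * x.1) (d₀ + T * x.2) = G * b x)
    (hl : ∀ q : ℕ, 1 < q → q.Coprime q₁ → 1 ≤ lam q ∧ Sep (G * q) T (lam q)) {δ : ℝ} (hδ : 0 < δ) :
    ∀ᶠ K : ℕ in atTop, ∀ Q H : ℕ, 1 ≤ Q → H ≤ 25 ^ (T * (K + 1)) →
      ∑ q ∈ Cop q₁ Q H, (cc (range K ×ˢ range K) b q : ℝ) / q ≤
        (K : ℝ) ^ 4 * (∑ q ∈ Cop q₁ Q H, (1 : ℝ) / (q * lam q) + δ) := by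
  have hT' : (1 : ℝ) ≤ T := by exact_mod_cast hT
  obtain ⟨θ, hθ0, hθ⟩ : ∃ θ : ℝ, 0 < θ ∧ θ * T = δ / 12 :=
    ⟨δ / 12 / T, by positivity, by field_simp⟩
  obtain ⟨C, hC1, hC⟩ := Pool.Agent.MP_2a1f0e_nt.divisor_bound hθ0
  have hl5 : Real.log 5 ≤ 2 := by
    have h1 : Real.log 5 = Real.log 2 + Real.log 2 + Real.log (5 / 4) := by
      rw [← Real.log_mul (by norm_num) (by norm_num), ← Real.log_mul (by norm_num) (by norm_num)]
      norm_num
    have h2 := Real.log_two_lt_d9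
    have h3 := Real.log_le_sub_one_of_pos (x := 5 / 4) (by norm_num)
    linarith
  have hl50 : 0 ≤ Real.log 5 := Real.log_nonneg (by norm_num)
  obtain ⟨D, hD1, hDδ⟩ : ∃ D : ℝ, 1 ≤ D ∧ 3 ≤ D * δ := by
    refine ⟨3 / δ + 1, by have : 0 < 3 / δ := by positivity
                          linarith, ?_⟩
    rw [add_mul, div_mul_cancel₀ _ hδ.ne']
    linarith
  filter_upwards [eventually_ge_atTop 1,
    (tendsto_natCast_atTop_atTop (R := ℝ)).eventually_ge_atTop (6 * (1 + 8 * T) / δ),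
    (tendsto_natCast_atTop_atTop (R := ℝ)).eventually_ge_atTop
      (6 * (1 + Real.log (C * D) + θ * ((c₀ + d₀ + 1) * 2)) / δ)] with K hK1 hK2 hK3 Q H hQ hH
  have hK : (1 : ℝ) ≤ K := by exact_mod_cast hK1
  rw [div_le_iff₀ hδ] at hK2 hK3
  obtain ⟨B, hB⟩ : ∃ B : ℝ, B = ((5 : ℝ) ^ (c₀ + d₀ + 1 + T * K)) ^ θ := ⟨_, rfl⟩
  have hB1 : 1 ≤ B := by
    rw [hB]
    exact Real.one_le_rpow (one_le_pow₀ (by norm_num)) hθ0.le
  have hCD : 1 ≤ C * D := one_le_mul_of_one_le_of_one_le hC1 hD1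
  have hR1 : 1 ≤ C * D * B := one_le_mul_of_one_le_of_one_le hCD hB1
  have hlogR : 1 + Real.log (C * D * B) ≤ δ / 3 * K := by
    rw [Real.log_mul (by linarith) (by linarith), hB, Real.log_rpow (by positivity), Real.log_pow]
    push_cast
    have h1 : θ * ((c₀ + d₀ + 1 + T * K) * Real.log 5) ≤ θ * ((c₀ + d₀ + 1 + T * K) * 2) :=
      mul_le_mul_of_nonneg_left (mul_le_mul_of_nonneg_left hl5 (by positivity)) hθ0.le
    have h2 : θ * ((c₀ + d₀ + 1 + T * K) * 2) = θ * ((c₀ + d₀ + 1) * 2) + θ * T * K * 2 := by ring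
    rw [hθ] at h2
    linarith
  have hmem : ∀ q ∈ Cop q₁ Q H, 1 < q ∧ q ≤ H ∧ q.Coprime q₁ := fun q hq => by
    simp only [Cop, mem_filter, mem_Ioc] at hq
    exact ⟨by omega, hq.1.2, hq.2⟩
  rw [← sum_filter_add_sum_filter_not (Cop q₁ Q H) (fun q : ℕ => (q : ℝ) ≤ C * D * B)]
  have hA : ∑ q ∈ (Cop q₁ Q H).filter (fun q : ℕ => (q : ℝ) ≤ C * D * B),
      (cc (range K ×ˢ range K) b q : ℝ) / q ≤
      (K : ℝ) ^ 4 * ∑ q ∈ Cop q₁ Q H, (1 : ℝ) / (q * lam q) + (K : ℝ) ^ 3 * (δ / 3 * K) := by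
    have h1 : ∀ q ∈ (Cop q₁ Q H).filter (fun q : ℕ => (q : ℝ) ≤ C * D * B),
        (cc (range K ×ˢ range K) b q : ℝ) / q ≤
          (K : ℝ) ^ 4 * (1 / (q * lam q)) + (K : ℝ) ^ 3 * (1 / q) := by
      intro q hq
      obtain ⟨k1, -, k3⟩ := hmem q (mem_filter.1 hq).1
      obtain ⟨k4, k5⟩ := hl q k1 k3
      have k6 : (cc (range K ×ˢ range K) b q : ℝ) ≤ ((K / lam q : ℕ) + 1) * (K : ℝ) ^ 3 := by
        exact_mod_cast coll_cc hb k4 k5 K
      have k7 : ((K / lam q : ℕ) : ℝ) ≤ K / lam q := Nat.cast_div_le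
      have hq0 : (0 : ℝ) < q := by exact_mod_cast (by omega : 0 < q)
      have hl0 : (0 : ℝ) < lam q := by exact_mod_cast k4
      have k8 : (cc (range K ×ˢ range K) b q : ℝ) ≤ (K / lam q + 1) * (K : ℝ) ^ 3 :=
        k6.trans (mul_le_mul_of_nonneg_right (by linarith) (by positivity))
      refine (div_le_div_of_nonneg_right k8 hq0.le).trans (le_of_eq ?_)
      field_simp
    refine (sum_le_sum h1).trans ?_
    rw [sum_add_distrib, ← mul_sum, ← mul_sum]
    refine add_le_add (mul_le_mul_of_nonneg_left ?_ (by positivity))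
      (mul_le_mul_of_nonneg_left ?_ (by positivity))
    · exact sum_le_sum_of_subset_of_nonneg (filter_subset _ _) fun q _ _ => by positivity
    · exact (coll_harm _ hR1 fun q hq =>
        ⟨(hmem q (mem_filter.1 hq).1).1.le, (mem_filter.1 hq).2⟩).trans hlogR
  have hBig : ∑ q ∈ (Cop q₁ Q H).filter (fun q : ℕ => ¬ (q : ℝ) ≤ C * D * B),
      (cc (range K ×ˢ range K) b q : ℝ) / q ≤
      2 * (K : ℝ) ^ 2 * ((1 + 8 * T) * K) + (K : ℝ) ^ 4 * (δ / 3) := by
    rw [coll_swap, ← sum_filter_add_sum_filter_not _ (fun z : (ℕ × ℕ) × ℕ × ℕ => b z.1 - b z.2 = 0)]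
    refine add_le_add ?_ ?_
    · refine (sum_le_card_nsmul _ _ ((1 + 8 * T) * (K : ℝ)) fun z _ => ?_).trans ?_
      · refine (coll_harm _ (R := 25 ^ (T * (K + 1))) (one_le_pow₀ (by norm_num))
          fun q hq => ?_).trans ?_
        · obtain ⟨k1, k2, -⟩ := hmem q (mem_filter.1 (mem_filter.1 hq).1).1
          exact ⟨k1.le, by exact_mod_cast k2.trans hH⟩
        · have e : Real.log 25 = 2 * Real.log 5 := by
            rw [show (25 : ℝ) = 5 ^ 2 by norm_num, Real.log_pow]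
            norm_num
          rw [Real.log_pow, e]
          push_cast
          have h1 : (T : ℝ) * (K + 1) * (2 * Real.log 5) ≤ T * (K + K) * 4 :=
            mul_le_mul (mul_le_mul_of_nonneg_left (by linarith) (by linarith)) (by linarith)
              (by linarith) (by positivity)
          linarith
      · rw [nsmul_eq_mul]
        exact mul_le_mul_of_nonneg_right (by exact_mod_cast coll_eq hT hb K) (by positivity)
    · refine (sum_le_card_nsmul _ _ (δ / 3) fun z hz => ?_).trans ?_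
      · obtain ⟨k1, k2⟩ := mem_filter.1 hz
        obtain ⟨k3, k4⟩ := mem_product.1 k1
        refine (coll_div k2 _ (R := C * D * B) (by linarith) fun q hq =>
          (not_le.1 (mem_filter.1 hq).2).le).trans ?_
        have k5 : (((b z.1 - b z.2).natAbs : ℕ) : ℝ) ≤ (5 : ℝ) ^ (c₀ + d₀ + 1 + T * K) := by
          exact_mod_cast coll_size hG hb k3 k4
        have k6 := Real.rpow_le_rpow (Nat.cast_nonneg _) k5 hθ0.le
        rw [← hB] at k6
        have k7 := (hC _).trans (mul_le_mul_of_nonneg_left k6 (by linarith : 0 ≤ C))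
        rw [div_le_iff₀ (by linarith)]
        have k8 := mul_le_mul_of_nonneg_left hDδ (by positivity : 0 ≤ C * B)
        linarith
      · rw [nsmul_eq_mul]
        refine mul_le_mul_of_nonneg_right ?_ (by positivity)
        have := card_filter_le ((range K ×ˢ range K) ×ˢ (range K ×ˢ range K))
          fun z => ¬ b z.1 - b z.2 = 0
        simp only [card_product, card_range] at this
        have h2 : K * K * (K * K) = K ^ 4 := by ring
        rw [h2] at this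
        exact_mod_cast this
  have hK3' := mul_le_mul_of_nonneg_left hK2 (by positivity : 0 ≤ (K : ℝ) ^ 3)
  linarith

end Pool.Agent.MP_c903c4_nt
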