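import Pool.Agent.MP_c903c4_nt.Block
import Pool.Agent.MP_c903c4_nt.Coll

/-!
Almost all integers of a good progression are representable.
-/

open Finset Filter Topology
open scoped Classical

noncomputable section

namespace Pool.Agent.MP_c903c4_nt

/-- The tails of a bounded series of nonnegative terms are small. -/
theorem AP_tail (q₁ : ℕ) (f : ℕ → ℝ) (hf : ∀ q, 0 ≤ f q) {ε η : ℝ} (hη : 0 < η)
    (h : ∀ Q : ℕ, ∑ q ∈ Cop q₁ 1 Q, f q ≤ ε) :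
    ∃ Q : ℕ, 1 ≤ Q ∧ ∀ H : ℕ, ∑ q ∈ Cop q₁ Q H, f q ≤ η := by
  have hb : BddAbove (Set.range fun Q : ℕ => ∑ q ∈ Cop q₁ 1 (Q + 1), f q) :=
    ⟨ε, by rintro _ ⟨Q, rfl⟩; exact h _⟩
  obtain ⟨Q, hQ⟩ := exists_lt_of_lt_ciSup
    (sub_lt_self (⨆ Q : ℕ, ∑ q ∈ Cop q₁ 1 (Q + 1), f q) hη)
  refine ⟨Q + 1, by omega, fun H => ?_⟩
  have h1 : ∑ q ∈ Cop q₁ 1 (Q + H + 1), f q ≤ ⨆ Q : ℕ, ∑ q ∈ Cop q₁ 1 (Q + 1), f q :=
    le_ciSup hb (Q + H)
  have h2 : Disjoint (Cop q₁ 1 (Q + 1)) (Cop q₁ (Q + 1) H) := by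
    rw [Finset.disjoint_left]
    intro x hx hy
    simp only [Cop, mem_filter, mem_Ioc] at hx hy
    omega
  have h3 : Cop q₁ 1 (Q + 1) ∪ Cop q₁ (Q + 1) H ⊆ Cop q₁ 1 (Q + H + 1) := by
    intro x hx
    simp only [Cop, mem_union, mem_filter, mem_Ioc] at hx ⊢
    rcases hx with hx | hx
    · exact ⟨by omega, hx.2⟩
    · exact ⟨by omega, hx.2⟩
  have h4 := Finset.sum_le_sum_of_subset_of_nonneg h3 fun q _ _ => hf q
  rw [Finset.sum_union h2] at h4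
  linarith

/-- A nonzero count of representations gives a representation of the original integer. -/
theorem AP_rep {G q₁ a t c d u v : ℕ} {b : ℤ} (hG : G = u ^ 2 + v ^ 2) (hb : mm a c d = G * b)
    (h : rho (q₁ * t + b).toNat ≠ 0) : Rep (a + G * q₁ * t) := by
  obtain ⟨x, y, hxy⟩ := sumsq_of_rho h
  have h0 : (q₁ * t + b : ℤ).toNat ≠ 0 := by
    intro h0
    rw [h0] at h
    exact h (by simp [rho])
  have h1 : ((q₁ * t + b : ℤ).toNat : ℤ) = q₁ * t + b := Int.toNat_of_nonneg (by omega)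
  obtain ⟨r, s, hrs⟩ := Nat.sq_add_sq_mul hG hxy
  refine ⟨r, s, c, d, ?_⟩
  have h2 : ((G * (q₁ * t + b : ℤ).toNat : ℕ) : ℤ) = ((r ^ 2 + s ^ 2 : ℕ) : ℤ) := by rw [hrs]
  unfold mm at hb
  push_cast at h2
  rw [h1] at h2
  have h3 : ((a + G * q₁ * t : ℕ) : ℤ) = ((r ^ 2 + s ^ 2 + 3 ^ c + 5 ^ d : ℕ) : ℤ) := by
    push_cast
    linear_combination hb + h2
  exact_mod_cast h3

/-- The size of the quotients. -/
theorem AP_size {G a T c₀ d₀ K i j : ℕ} {b : ℤ} (hG : 0 < G)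
    (hb : mm a (c₀ + T * i) (d₀ + T * j) = G * b) (hi : i < K) (hj : j < K)
    (hK : a + 3 ^ c₀ + 5 ^ d₀ ≤ 5 ^ (T * K)) : |b| ≤ ((25 ^ T) ^ K : ℕ) := by
  have h1 : |b| ≤ |(G : ℤ) * b| := by
    rw [abs_mul]
    refine le_mul_of_one_le_left (abs_nonneg _) ?_
    rw [abs_of_nonneg (by positivity)]
    exact_mod_cast hG
  have h3 : 3 ^ (c₀ + T * i) ≤ 3 ^ c₀ * 5 ^ (T * K) := by
    rw [pow_add]
    refine Nat.mul_le_mul_left _ ((Nat.pow_le_pow_left (by norm_num) _).trans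
      (Nat.pow_le_pow_right (by norm_num) (Nat.mul_le_mul_left _ hi.le)))
  have h5 : 5 ^ (d₀ + T * j) ≤ 5 ^ d₀ * 5 ^ (T * K) := by
    rw [pow_add]
    exact Nat.mul_le_mul_left _ (Nat.pow_le_pow_right (by norm_num) (Nat.mul_le_mul_left _ hj.le))
  have ha : a ≤ a * 5 ^ (T * K) := Nat.le_mul_of_pos_right _ (by positivity)
  have h6 : a + 3 ^ (c₀ + T * i) + 5 ^ (d₀ + T * j) ≤ (25 ^ T) ^ K := by
    calc a + 3 ^ (c₀ + T * i) + 5 ^ (d₀ + T * j)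
        ≤ (a + 3 ^ c₀ + 5 ^ d₀) * 5 ^ (T * K) := by rw [add_mul, add_mul]; omega
      _ ≤ 5 ^ (T * K) * 5 ^ (T * K) := Nat.mul_le_mul_right _ hK
      _ = (25 ^ T) ^ K := by rw [← mul_pow, ← pow_mul]; rfl
  refine h1.trans ?_
  rw [← hb]
  refine le_trans ?_ (Int.ofNat_le.mpr h6)
  unfold mm
  push_cast
  have p3 : (0 : ℤ) ≤ 3 ^ (c₀ + T * i) := by positivity
  have p5 : (0 : ℤ) ≤ 5 ^ (d₀ + T * j) := by positivity
  have pa : (0 : ℤ) ≤ a := by positivity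
  rw [abs_le]
  constructor <;> linarith

/-- Covering an initial segment by blocks. -/
theorem AP_cover (P : ℕ → Prop) [DecidablePred P] {J H X : ℕ} (hH : 0 < H) (hX : X ≤ J ^ 2 * H) {B : ℝ}
    (hB : 0 ≤ B) (h : ∀ i : ℕ, J ≤ i → i < J ^ 2 →
      (((Ioc (i * H) (i * H + H)).filter P).card : ℝ) ≤ B) :
    (((range X).filter P).card : ℝ) ≤ J * H + 1 + (J : ℝ) ^ 2 * B := by
  have hs : (range X).filter P ⊆ range (J * H + 1) ∪
      (Ico J (J ^ 2)).biUnion fun i => (Ioc (i * H) (i * H + H)).filter P := by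
    intro t ht
    simp only [mem_filter, mem_range, mem_union, mem_biUnion, mem_Ico, mem_Ioc] at ht ⊢
    by_cases h1 : t < J * H + 1
    · exact Or.inl h1
    · refine Or.inr ⟨(t - 1) / H, ⟨(Nat.le_div_iff_mul_le hH).mpr (by omega),
        (Nat.div_lt_iff_lt_mul hH).mpr (by omega)⟩, ⟨?_, ?_⟩, ht.2⟩
      · have := Nat.div_mul_le_self (t - 1) H
        omega
      · have := Nat.lt_div_mul_add (a := t - 1) hH
        omega
  have h1 := (card_le_card hs).trans ((card_union_le _ _).trans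
    (Nat.add_le_add_left card_biUnion_le _))
  rw [card_range] at h1
  have h2 : (((range X).filter P).card : ℝ) ≤ J * H + 1 +
      ∑ i ∈ Ico J (J ^ 2), (((Ioc (i * H) (i * H + H)).filter P).card : ℝ) := by
    exact_mod_cast h1
  refine h2.trans (add_le_add le_rfl ?_)
  refine (Finset.sum_le_card_nsmul _ _ B fun i hi =>
    h i (mem_Ico.mp hi).1 (mem_Ico.mp hi).2).trans ?_
  rw [nsmul_eq_mul, Nat.card_Ico]
  refine mul_le_mul_of_nonneg_right ?_ hB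
  exact_mod_cast Nat.sub_le _ _

theorem AP_log {b : ℕ} (hb : 1 < b) : Tendsto (Nat.log b) atTop atTop :=
  tendsto_atTop.mpr fun k => (eventually_ge_atTop (b ^ k)).mono fun _ h =>
    Nat.le_log_of_pow_le hb h

/-- The estimate on every block. -/
theorem AP_block {ε : ℝ} (hε : 0 < ε) {q₀ a : ℕ} (hq : 0 < q₀) (h : Data ε q₀ a) :
    ∃ J : ℕ, 1 ≤ J ∧ 1 ≤ ε * J ∧ ∀ᶠ H : ℕ in atTop, ∀ Y : ℕ, J * H ≤ Y → Y ≤ J ^ 2 * H →
      (((Ioc Y (Y + H)).filter fun t : ℕ => ¬ Rep (a + q₀ * t)).card : ℝ) ≤ H * (11113 * ε) := by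
  obtain ⟨G, q₁, T, c₀, d₀, lam, hG, h4, hT, ⟨u, v, huv⟩, hb, hl, hs⟩ := h
  have hG0 : 0 < G := Nat.pos_of_mul_pos_right (hG ▸ hq)
  have hq1 : 0 < q₁ := Nat.pos_of_mul_pos_left (hG ▸ hq)
  choose b' hb1 hb2 hb3 using hb
  obtain ⟨C, hC, hblock⟩ := block h4 hq1
  obtain ⟨J, hJ⟩ := exists_nat_ge ((C + 1) / ε)
  rw [div_le_iff₀ hε] at hJ
  have hJ0 : (0 : ℝ) < J := by
    by_contra h0
    have := mul_nonpos_of_nonpos_of_nonneg (not_lt.mp h0) hε.le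
    linarith
  have hJ1 : 1 ≤ J := by exact_mod_cast hJ0
  have hη : 0 < ε / (C * (J : ℝ) ^ 2) := by positivity
  obtain ⟨Q, hQ1, hQ⟩ := AP_tail q₁ (fun q => (1 : ℝ) / (q * lam q)) (fun q => by positivity) hη hs
  have hδ : 0 < min (ε / 100) (ε / (C * (J : ℝ) ^ 2)) := lt_min (by positivity) hη
  have h25 : 1 < 25 ^ T := Nat.one_lt_pow hT.ne' (by norm_num)
  have hcoll := coll (a := (a : ℤ)) hG0 hT (fun x => b' x.1 x.2) (fun x => hb1 x.1 x.2) hl hδ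
  have hK1 : ∀ᶠ K : ℕ in atTop, a + 3 ^ c₀ + 5 ^ d₀ ≤ 5 ^ (T * K) ∧ 1 ≤ K := by
    refine (eventually_ge_atTop (a + 3 ^ c₀ + 5 ^ d₀ + 1)).mono fun K hK =>
      ⟨?_, le_trans (Nat.le_add_left 1 _) hK⟩
    have h1 : K ≤ T * K := Nat.le_mul_of_pos_left _ hT
    have h2 : T * K < 5 ^ (T * K) := Nat.lt_pow_self (by norm_num)
    exact ((Nat.le_of_succ_le hK).trans h1).trans h2.le
  refine ⟨J, hJ1, by linarith, ?_⟩
  filter_upwards [hblock J Q hJ1 hQ1, (AP_log h25).eventually (hcoll.and hK1),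
    eventually_ge_atTop Q] with H h1 h2 h3 Y hY1 hY2
  obtain ⟨h2, hK, hK0⟩ := h2
  have hlo : (25 ^ T) ^ Nat.log (25 ^ T) H ≤ H := Nat.pow_log_le_self _ (by omega)
  have hhi : H ≤ 25 ^ (T * (Nat.log (25 ^ T) H + 1)) := by
    rw [pow_mul]
    exact (Nat.lt_pow_succ_log_self h25 H).le
  generalize Nat.log (25 ^ T) H = K at h2 hK hK0 hlo hhi
  have hne : (range K ×ˢ range K).Nonempty :=
    ⟨(0, 0), by simp only [mem_product, mem_range]; omega⟩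
  have h5 := h1 Y hY1 hY2 (ℕ × ℕ) (range K ×ˢ range K) (fun x => b' x.1 x.2) hne fun s hs' => by
    simp only [mem_product, mem_range] at hs'
    exact ⟨(AP_size hG0 (hb1 s.1 s.2) hs'.1 hs'.2 hK).trans (Int.ofNat_le.mpr hlo), hb2 _ _,
      hb3 _ _⟩
  have hsub : ((Ioc Y (Y + H)).filter fun t : ℕ => ¬ Rep (a + q₀ * t)) ⊆
      (Ioc Y (Y + H)).filter fun t : ℕ =>
        ∀ s ∈ range K ×ˢ range K, rho (q₁ * t + b' s.1 s.2).toNat = 0 := by
    intro t ht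
    rw [mem_filter] at ht ⊢
    refine ⟨ht.1, fun s _ => ?_⟩
    by_contra h0
    exact ht.2 (hG ▸ AP_rep huv (hb1 s.1 s.2) h0)
  refine le_trans (Nat.cast_le.mpr (card_le_card hsub)) (le_trans (le_of_eq ?_) (h5.trans ?_))
  · congr!
  refine mul_le_mul_of_nonneg_left ?_ (Nat.cast_nonneg _)
  have hK4 : (0 : ℝ) < (K : ℝ) ^ 4 := by
    have : (0 : ℝ) < K := by exact_mod_cast hK0
    positivity
  have hcard : (((range K ×ˢ range K).card : ℕ) : ℝ) ^ 2 = (K : ℝ) ^ 4 := by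
    rw [card_product, card_range]
    push_cast
    ring
  rw [hcard]
  have e1 := h2 1 Q le_rfl (h3.trans hhi)
  have e2 := h2 Q H hQ1 hhi
  have m1 := min_le_left (ε / 100) (ε / (C * (J : ℝ) ^ 2))
  have m2 := min_le_right (ε / 100) (ε / (C * (J : ℝ) ^ 2))
  have f1 : 11000 * (∑ q ∈ Cop q₁ 1 Q, (cc (range K ×ˢ range K) (fun x => b' x.1 x.2) q : ℝ) / q) /
      (K : ℝ) ^ 4 ≤ 11110 * ε := by
    rw [div_le_iff₀ hK4]
    have := mul_le_mul_of_nonneg_left (add_le_add (hs Q) m1) hK4.le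
    linarith
  have f2 : C * (J : ℝ) ^ 2 *
      (∑ q ∈ Cop q₁ Q H, (cc (range K ×ˢ range K) (fun x => b' x.1 x.2) q : ℝ) / q) /
        (K : ℝ) ^ 4 ≤ 2 * ε := by
    rw [div_le_iff₀ hK4]
    have g1 := e2.trans (mul_le_mul_of_nonneg_left (add_le_add (hQ H) m2) hK4.le)
    refine (mul_le_mul_of_nonneg_left g1 (by positivity)).trans (le_of_eq ?_)
    field_simp
    ring
  have f3 : C / J ≤ ε := by
    rw [div_le_iff₀ hJ0]
    linarith
  linarith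

theorem ap {ε : ℝ} (hε : 0 < ε) {q₀ a : ℕ} (hq : 0 < q₀) (h : Data ε q₀ a) :
    ∀ᶠ X : ℕ in atTop,
      (((range X).filter fun t : ℕ => ¬ Rep (a + q₀ * t)).card : ℝ) ≤ 12000 * ε * X := by
  obtain ⟨J, hJ1, hJ, hH⟩ := AP_block hε hq h
  have hJ2 : 0 < J ^ 2 := by positivity
  have ht : Tendsto (fun X : ℕ => X / J ^ 2 + 1) atTop atTop :=
    tendsto_atTop_mono (fun X => Nat.le_succ _) (Nat.tendsto_div_const_atTop hJ2.ne')
  obtain ⟨N, hN⟩ := exists_nat_ge (((J : ℝ) + 1 + 11113 * ε * (J : ℝ) ^ 2) / (886 * ε))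
  rw [div_le_iff₀ (by positivity)] at hN
  filter_upwards [ht.eventually hH, eventually_ge_atTop N] with X h1 h2
  have h3 : X ≤ J ^ 2 * (X / J ^ 2 + 1) := (Nat.lt_mul_div_succ X hJ2).le
  have h4 : J ^ 2 * (X / J ^ 2 + 1) ≤ X + J ^ 2 := by
    rw [mul_add, mul_one]
    exact Nat.add_le_add_right (Nat.mul_div_le _ _) _
  generalize X / J ^ 2 + 1 = H at h1 h3 h4
  have hJr : (1 : ℝ) ≤ J := by exact_mod_cast hJ1
  have hX : (N : ℝ) ≤ X := by exact_mod_cast h2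
  have h4' : (J : ℝ) ^ 2 * H ≤ X + (J : ℝ) ^ 2 := by exact_mod_cast h4
  rcases Nat.eq_zero_or_pos H with h0 | h0
  · have : X = 0 := by
      rw [h0] at h3
      omega
    subst this
    simp
  refine (AP_cover _ h0 h3 (B := H * (11113 * ε)) (by positivity) fun i hi1 hi2 =>
    h1 (i * H) (Nat.mul_le_mul_right _ hi1) (Nat.mul_le_mul_right _ hi2.le)).trans ?_
  have h5 : (J : ℝ) * H ≤ ε * X + J := by
    have g0 : (0 : ℝ) ≤ X := Nat.cast_nonneg _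
    have g2 := mul_le_mul_of_nonneg_right hJ g0
    have g1 : (J : ℝ) * (J * H) ≤ J * (ε * X + J) := by linarith
    exact le_of_mul_le_mul_left g1 (by linarith)
  have h6 := mul_le_mul_of_nonneg_left h4' (show 0 ≤ 11113 * ε by positivity)
  have h7 := mul_le_mul_of_nonneg_left hX (show 0 ≤ 886 * ε by positivity)
  linarith

end Pool.Agent.MP_c903c4_nt
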