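import Pool.Agent.MP_c903c4_nt.Defs

/-!
Adjusting the exponents one prime at a time.
-/

open Finset Filter Topology
open scoped Classical

noncomputable section

namespace Pool.Agent.MP_c903c4_nt

theorem Adj_basic (y : ℤ) (t : ℕ) : (y - 1) ^ 2 ∣ y ^ t - 1 - t * (y - 1) := by
  have := sq_dvd_add_pow_sub_sub (y - 1) 1 t
  simp only [add_sub_cancel, one_pow, one_mul] at this
  obtain ⟨r, hr⟩ := this
  exact ⟨r, by linear_combination hr⟩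

theorem Adj_split (g : ℤ) (c τ t : ℕ) : g ^ (c + τ * t) - g ^ c = g ^ c * ((g ^ τ) ^ t - 1) := by
  rw [pow_add, pow_mul]
  ring

theorem Adj_even {p : ℕ} (hp : p.Prime) (h3 : p % 4 = 3) (v : ℕ) : ∀ x y : ℤ,
    (p : ℤ) ^ v ∣ x ^ 2 + y ^ 2 → ¬ (p : ℤ) ^ (v + 1) ∣ x ^ 2 + y ^ 2 → Even v := by
  have := Fact.mk hp
  have hp0 : (p : ℤ) ≠ 0 := by exact_mod_cast hp.ne_zero
  induction v using Nat.strong_induction_on with
  | _ v ih =>
    intro x y h1 h2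
    rcases v with _ | v
    · exact Even.zero
    have h4 : (p : ℤ) ∣ x ^ 2 + y ^ 2 := (dvd_pow_self _ (Nat.succ_ne_zero v)).trans h1
    have h5 : ((x : ZMod p)) ^ 2 = -(y : ZMod p) ^ 2 := by
      have := (ZMod.intCast_zmod_eq_zero_iff_dvd _ p).2 h4
      push_cast at this
      linear_combination this
    have hy : (y : ZMod p) = 0 := by
      by_contra hy
      exact ZMod.mod_four_ne_three_of_sq_eq_neg_sq' hy h5 h3
    have hx : (x : ZMod p) = 0 := by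
      rw [hy] at h5
      simpa using h5
    obtain ⟨x', rfl⟩ := (ZMod.intCast_zmod_eq_zero_iff_dvd _ p).1 hx
    obtain ⟨y', rfl⟩ := (ZMod.intCast_zmod_eq_zero_iff_dvd _ p).1 hy
    have e : (p * x') ^ 2 + (p * y') ^ 2 = (p : ℤ) ^ 2 * (x' ^ 2 + y' ^ 2) := by ring
    rw [e] at h1 h2
    rcases v with _ | w
    · exact absurd (dvd_mul_right _ _) h2
    have h6 : (p : ℤ) ^ w ∣ x' ^ 2 + y' ^ 2 := by
      rw [show w + 1 + 1 = 2 + w by ring, pow_add] at h1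
      exact (mul_dvd_mul_iff_left (pow_ne_zero 2 hp0)).1 h1
    have h7 : ¬ (p : ℤ) ^ (w + 1) ∣ x' ^ 2 + y' ^ 2 := fun h => h2 (by
      rw [show w + 1 + 1 + 1 = 2 + (w + 1) by ring, pow_add]
      exact mul_dvd_mul_left _ h)
    obtain ⟨r, hr⟩ := ih w (by omega) x' y' h6 h7
    exact ⟨r + 1, by omega⟩

theorem Adj_two (v : ℕ) : ∀ x y : ℤ, (2 : ℤ) ^ v ∣ x ^ 2 + y ^ 2 →
    ¬ (2 : ℤ) ^ (v + 1) ∣ x ^ 2 + y ^ 2 → (2 : ℤ) ^ (v + 2) ∣ x ^ 2 + y ^ 2 - 2 ^ v := by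
  induction v with
  | zero =>
    intro x y _ h2
    rcases Int.even_or_odd' x with ⟨a, rfl | rfl⟩ <;> rcases Int.even_or_odd' y with ⟨b, rfl | rfl⟩
    · exact absurd ⟨2 * a ^ 2 + 2 * b ^ 2, by ring⟩ h2
    · exact ⟨a ^ 2 + b ^ 2 + b, by ring⟩
    · exact ⟨a ^ 2 + b ^ 2 + a, by ring⟩
    · exact absurd ⟨2 * a ^ 2 + 2 * b ^ 2 + 2 * a + 2 * b + 1, by ring⟩ h2
  | succ v ih =>
    intro x y h1 h2
    have h4 : (2 : ℤ) ∣ x ^ 2 + y ^ 2 := (dvd_pow_self _ (Nat.succ_ne_zero v)).trans h1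
    obtain ⟨a, b, rfl, rfl⟩ : ∃ a b : ℤ, x = a + b ∧ y = a - b := by
      rcases Int.even_or_odd' x with ⟨a, rfl | rfl⟩ <;>
        rcases Int.even_or_odd' y with ⟨b, rfl | rfl⟩
      · exact ⟨a + b, a - b, by ring, by ring⟩
      · obtain ⟨t, ht⟩ := h4
        have : (1 : ℤ) = 2 * (t - 2 * a ^ 2 - 2 * b ^ 2 - 2 * b) := by linear_combination ht
        omega
      · obtain ⟨t, ht⟩ := h4
        have : (1 : ℤ) = 2 * (t - 2 * a ^ 2 - 2 * b ^ 2 - 2 * a) := by linear_combination ht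
        omega
      · exact ⟨a + b + 1, a - b, by ring, by ring⟩
    have e : (a + b) ^ 2 + (a - b) ^ 2 = 2 * (a ^ 2 + b ^ 2) := by ring
    rw [e] at h1 h2 ⊢
    rw [pow_succ'] at h1
    obtain ⟨t, ht⟩ := ih a b ((mul_dvd_mul_iff_left two_ne_zero).1 h1) fun h => h2 (by
      rw [pow_succ' _ (v + 1)]
      exact mul_dvd_mul_left _ h)
    exact ⟨t, by linear_combination 2 * ht⟩

theorem Adj_val {p : ℤ} {n : ℕ} {m : ℤ} (h : ¬ p ^ n ∣ m) : ∃ v, v < n ∧ p ^ v ∣ m ∧ ¬ p ^ (v + 1) ∣ m := by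
  induction n with
  | zero => exact absurd (by simp) h
  | succ n ih =>
    by_cases h1 : p ^ n ∣ m
    · exact ⟨n, Nat.lt_succ_self n, h1, h⟩
    · obtain ⟨v, hv, h2⟩ := ih h1
      exact ⟨v, by omega, h2⟩

theorem Adj_lift {p n : ℕ} (hn : 1 ≤ n) {y : ℤ} (h : (p : ℤ) ^ n ∣ y - 1) :
    (p : ℤ) ^ (n + 1) ∣ y ^ p - 1 := by
  have h1 : (p : ℤ) ∣ y - 1 := (dvd_pow_self _ (by omega)).trans h
  have h2 : (p : ℤ) ∣ ∑ i ∈ range p, y ^ i := by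
    have e : ∑ i ∈ range p, y ^ i = ∑ i ∈ range p, (y ^ i - 1) + p := by
      rw [sum_sub_distrib]
      simp
    rw [e]
    refine dvd_add (dvd_sum fun i _ => h1.trans ?_) dvd_rfl
    simpa using sub_dvd_pow_sub_pow y 1 i
  rw [← geom_sum_mul, pow_succ']
  exact mul_dvd_mul h2 h

theorem Adj_lte_dvd {p j τ : ℕ} (hj : 1 ≤ j) {g : ℤ} (h1 : (p : ℤ) ^ j ∣ g ^ τ - 1) (i u : ℕ) :
    (p : ℤ) ^ (j + i) ∣ g ^ (τ * p ^ i * u) - 1 := by
  have key : (p : ℤ) ^ (j + i) ∣ g ^ (τ * p ^ i) - 1 := by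
    induction i with
    | zero => simpa using h1
    | succ i ih =>
      rw [pow_succ p i, ← mul_assoc, pow_mul g, ← add_assoc]
      exact Adj_lift (by omega) ih
  refine key.trans ?_
  rw [pow_mul g _ u]
  simpa using sub_dvd_pow_sub_pow (g ^ (τ * p ^ i)) 1 u

theorem Adj_lte {p j τ : ℕ} (hp : p.Prime) (h2 : p ≠ 2) (hj : 1 ≤ j) {g : ℤ}
    (h1 : (p : ℤ) ^ j ∣ g ^ τ - 1) (h3 : ¬ (p : ℤ) ^ (j + 1) ∣ g ^ τ - 1) (i u : ℕ)
    (hu : ¬ p ∣ u) : ¬ (p : ℤ) ^ (j + i + 1) ∣ g ^ (τ * p ^ i * u) - 1 := by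
  have h4 : (p : ℤ) ∣ g ^ τ - 1 := (dvd_pow_self _ (by omega)).trans h1
  have h5 : ¬ (p : ℤ) ∣ g ^ τ := fun h => by
    have h6 : (p : ℤ) ∣ 1 := by simpa using dvd_sub h h4
    exact hp.one_lt.ne' (by exact_mod_cast Int.eq_one_of_dvd_one (by positivity) h6)
  have e := Int.emultiplicity_pow_sub_pow hp (hp.odd_of_ne_two h2) h4 h5 (p ^ i * u)
  have e1 : emultiplicity (p : ℤ) (g ^ τ - 1) = j := emultiplicity_eq_of_dvd_of_not_dvd h1 h3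
  have e2 : emultiplicity p (p ^ i * u) = i :=
    emultiplicity_eq_of_dvd_of_not_dvd (dvd_mul_right _ _) fun h => hu (by
      rw [pow_succ] at h
      exact (mul_dvd_mul_iff_left (pow_ne_zero i hp.ne_zero)).1 h)
  rw [e1, e2, one_pow, ← pow_mul, ← mul_assoc, ← Nat.cast_add] at e
  exact (emultiplicity_eq_coe.1 e).2

theorem Fin'.congr {L p k μ v : ℕ} {m m' : ℤ} (h : Fin' L p k μ v m) (hm : (p : ℤ) ^ μ ∣ m' - m) :
    Fin' L p k μ v m' := by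
  obtain ⟨h1, h2, h3, h4, h5, h6, h7⟩ := h
  have e : m' = (m' - m) + m := by ring
  refine ⟨h1, h2, ?_, fun hv => ⟨(h4 hv).1, fun hd => (h4 hv).2 ?_⟩, h5, fun hp => ?_, h7⟩
  · rw [e]
    exact dvd_add ((pow_dvd_pow _ h2).trans hm) h3
  · have := dvd_sub hd ((pow_dvd_pow _ (h4 hv).1).trans hm)
    rwa [sub_sub_cancel] at this
  · obtain ⟨h8, h9, h10⟩ := h6 hp
    refine ⟨h8, h9, ?_⟩
    subst hp
    obtain ⟨r, hr⟩ := dvd_add ((pow_dvd_pow _ h9).trans hm) h10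
    push_cast at hr
    exact ⟨r, by linear_combination hr⟩

theorem adj (a : ℤ) (P : Finset ℕ) (M : ℕ → ℤ) (Pre Good : ℕ → ℤ → Prop) (τ : ℕ → ℕ) (k : ℕ)
    (hP : ∀ p ∈ P, ∀ m m', M p ∣ m' - m → Pre p m → Pre p m')
    (hG : ∀ p ∈ P, ∀ m m', M p ∣ m' - m → Good p m → Good p m')
    (hτ : ∀ p ∈ P, ∀ p' ∈ P, p ≠ p' → ∀ c t : ℕ, k ≤ c →
      M p' ∣ 3 ^ (c + τ p * t) - 3 ^ c ∧ M p' ∣ 5 ^ (c + τ p * t) - 5 ^ c)
    (hs : ∀ p ∈ P, ∀ c d : ℕ, k ≤ c → k ≤ d → Pre p (mm a c d) →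
      ∃ i j : ℕ, Good p (mm a (c + τ p * i) (d + τ p * j)))
    {c d : ℕ} (hc : k ≤ c) (hd : k ≤ d) (h : ∀ p ∈ P, Pre p (mm a c d)) :
    ∃ c' d' : ℕ, k ≤ c' ∧ k ≤ d' ∧ ∀ p ∈ P, Good p (mm a c' d') := by
  have key : ∀ Q : Finset ℕ, Q ⊆ P → ∃ c' d' : ℕ, k ≤ c' ∧ k ≤ d' ∧
      (∀ p ∈ Q, Good p (mm a c' d')) ∧ ∀ p ∈ P, p ∉ Q → Pre p (mm a c' d') := by
    intro Q
    induction Q using Finset.induction_on with
    | empty => exact fun _ => ⟨c, d, hc, hd, by simp, fun p hp _ => h p hp⟩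
    | insert q Q hq ih =>
      intro hQ
      obtain ⟨c', d', h1, h2, h3, h4⟩ := ih ((subset_insert _ _).trans hQ)
      have hqP : q ∈ P := hQ (mem_insert_self _ _)
      obtain ⟨i, j, h5⟩ := hs q hqP c' d' h1 h2 (h4 q hqP hq)
      have h6 : ∀ p ∈ P, q ≠ p → M p ∣ mm a (c' + τ q * i) (d' + τ q * j) - mm a c' d' := by
        intro p hp hne
        obtain ⟨r, hr⟩ := dvd_add (hτ q hqP p hp hne c' i h1).1 (hτ q hqP p hp hne d' j h2).2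
        refine ⟨-r, ?_⟩
        unfold mm
        linear_combination -hr
      refine ⟨c' + τ q * i, d' + τ q * j, by omega, by omega, fun p hp => ?_, fun p hp hn => ?_⟩
      · rcases mem_insert.1 hp with rfl | hp'
        · exact h5
        · exact hG p (hQ hp) _ _ (h6 p (hQ hp) fun e => hq (e ▸ hp')) (h3 p hp')
      · rw [mem_insert, not_or] at hn
        exact hP p hp _ _ (h6 p hp fun e => hn.1 e.symm) (h4 p hp hn.2)
  obtain ⟨c', d', h1, h2, h3, -⟩ := key P Subset.rfl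
  exact ⟨c', d', h1, h2, h3⟩

/-- Raising the valuation by one. -/
theorem step_up {p j τ : ℕ} (hp : p.Prime) (hj : 1 ≤ j) {g : ℤ} (hg : ¬ (p : ℤ) ∣ g)
    (h1 : (p : ℤ) ^ j ∣ g ^ τ - 1) (h2 : ¬ (p : ℤ) ^ (j + 1) ∣ g ^ τ - 1) {m : ℤ}
    (hm : (p : ℤ) ^ j ∣ m) (c : ℕ) :
    ∃ t : ℕ, (p : ℤ) ^ (j + 1) ∣ m - (g ^ (c + τ * t) - g ^ c) := by
  have := Fact.mk hp
  have hp' : Prime (p : ℤ) := Nat.prime_iff_prime_int.1 hp
  obtain ⟨x, hx⟩ := h1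
  obtain ⟨m₁, rfl⟩ := hm
  have hx1 : ¬ (p : ℤ) ∣ x := fun h => h2 (by
    rw [hx, pow_succ]
    exact mul_dvd_mul_left _ h)
  have hw : ((g ^ c * x : ℤ) : ZMod p) ≠ 0 := fun h => by
    rcases hp'.dvd_or_dvd ((ZMod.intCast_zmod_eq_zero_iff_dvd _ p).1 h) with h | h
    · exact hg (hp'.dvd_of_dvd_pow h)
    · exact hx1 h
  obtain ⟨t, ht⟩ : ∃ t : ℕ, (p : ℤ) ∣ m₁ - g ^ c * x * t := by
    refine ⟨((m₁ : ZMod p) / ((g ^ c * x : ℤ) : ZMod p)).val, ?_⟩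
    rw [← ZMod.intCast_zmod_eq_zero_iff_dvd, Int.cast_sub, Int.cast_mul, Int.cast_natCast,
      ZMod.natCast_zmod_val, mul_div_cancel₀ _ hw, sub_self]
  refine ⟨t, ?_⟩
  obtain ⟨r, hr⟩ := Adj_basic (g ^ τ) t
  obtain ⟨s, hs⟩ := ht
  obtain ⟨i, rfl⟩ := Nat.exists_eq_add_of_le hj
  rw [Adj_split]
  rw [hx] at hr
  refine ⟨s - g ^ c * (p ^ i * x ^ 2 * r), ?_⟩
  linear_combination (p : ℤ) ^ (1 + i) * hs - g ^ c * hr

/-- The step at a small prime. -/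
theorem step_small {L p j k τ : ℕ} (hp : p.Prime) (hj : 2 ≤ j) (hk : j + 3 ≤ k) {g : ℤ}
    (hg : ¬ (p : ℤ) ∣ g) (h1 : (p : ℤ) ^ j ∣ g ^ τ - 1) (h2 : ¬ (p : ℤ) ^ (j + 1) ∣ g ^ τ - 1)
    {m : ℤ} (hm : p % 4 = 1 ∨ SS ((p : ℤ) ^ k) m) (c : ℕ) :
    ∃ t v : ℕ, Fin' L p k k v (m - (g ^ (c + τ * t) - g ^ c)) := by
  have hp' : Prime (p : ℤ) := Nat.prime_iff_prime_int.1 hp
  by_cases hm1 : (p : ℤ) ^ (k - 1) ∣ m
  swap
  · obtain ⟨v, hv, h3, h4⟩ := Adj_val hm1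
    have h5 : p % 4 ≠ 1 → ∃ x y : ℤ, (p : ℤ) ^ k ∣ m - (x ^ 2 + y ^ 2) ∧
        (p : ℤ) ^ v ∣ x ^ 2 + y ^ 2 ∧ ¬ (p : ℤ) ^ (v + 1) ∣ x ^ 2 + y ^ 2 := fun h => by
      obtain ⟨x, y, h6⟩ := hm.resolve_left h
      refine ⟨x, y, h6, ?_, fun h7 => h4 ?_⟩
      · have := dvd_sub h3 ((pow_dvd_pow _ (by omega : v ≤ k)).trans h6)
        rwa [sub_sub_cancel] at this
      · have := dvd_add ((pow_dvd_pow _ (by omega : v + 1 ≤ k)).trans h6) h7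
        rwa [sub_add_cancel] at this
    refine ⟨0, v, ?_⟩
    rw [mul_zero, add_zero, sub_self, sub_zero]
    refine ⟨by omega, by omega, h3, fun _ => ⟨by omega, h4⟩, fun h => ?_, fun h => ?_,
      fun _ => by omega⟩
    · obtain ⟨x, y, -, h7, h8⟩ := h5 (by omega)
      exact Adj_even hp h v x y h7 h8
    · subst h
      obtain ⟨x, y, h6, h7, h8⟩ := h5 (by omega)
      refine ⟨by omega, by omega, ?_⟩
      obtain ⟨r, hr⟩ := dvd_add ((pow_dvd_pow _ (by omega : v + 2 ≤ k)).trans h6)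
        (Adj_two v x y h7 h8)
      push_cast at hr
      exact ⟨r, by linear_combination hr⟩
  have hm2 : (p : ℤ) ^ (j + 2) ∣ m := (pow_dvd_pow _ (by omega)).trans hm1
  by_cases hp2 : p = 2
  · subst hp2
    obtain ⟨x, hx⟩ := h1
    have hx1 : ¬ ((2 : ℕ) : ℤ) ∣ x := fun h => h2 (by
      rw [hx, pow_succ]
      exact mul_dvd_mul_left _ h)
    have hw : ¬ ((2 : ℕ) : ℤ) ∣ g ^ c * x := fun h => by
      rcases hp'.dvd_or_dvd h with h | h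
      · exact hg (hp'.dvd_of_dvd_pow h)
      · exact hx1 h
    obtain ⟨t, s, hs⟩ : ∃ (t : ℕ) (s : ℤ), g ^ c * x * t + 1 = 4 * s := by
      generalize g ^ c * x = w at hw
      push_cast at hw
      rcases (by omega : w % 4 = 1 ∨ w % 4 = 3) with h | h
      · exact ⟨3, (w * 3 + 1) / 4, by push_cast; omega⟩
      · exact ⟨1, (w * 1 + 1) / 4, by push_cast; omega⟩
    have h6 : (2 : ℤ) ^ (j + 2) ∣ m - (g ^ (c + τ * t) - g ^ c) - 2 ^ j := by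
      obtain ⟨r, hr⟩ := Adj_basic (g ^ τ) t
      obtain ⟨m₁, hm₁⟩ := hm2
      obtain ⟨i, rfl⟩ := Nat.exists_eq_add_of_le hj
      rw [Adj_split]
      rw [hx] at hr
      push_cast at hr hm₁
      refine ⟨m₁ - s - g ^ c * (2 ^ i * x ^ 2 * r), ?_⟩
      linear_combination hm₁ - (2 : ℤ) ^ (2 + i) * hs - g ^ c * hr
    refine ⟨t, j, by omega, by omega, ?_, fun _ => ⟨by omega, fun h => ?_⟩, fun h => by omega,
      fun _ => ⟨by omega, by omega, h6⟩, fun _ => by omega⟩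
    · have := dvd_add ((pow_dvd_pow _ (by omega : j ≤ j + 2)).trans h6) (dvd_refl ((2 : ℤ) ^ j))
      rw [sub_add_cancel] at this
      exact_mod_cast this
    · push_cast at h
      have := dvd_sub h ((pow_dvd_pow _ (by omega : j + 1 ≤ j + 2)).trans h6)
      rw [sub_sub_cancel, pow_dvd_pow_iff two_ne_zero (by decide)] at this
      omega
  have key : ∀ i : ℕ, i ≤ 1 → Even (j + i) → ∃ t v : ℕ,
      Fin' L p k k v (m - (g ^ (c + τ * t) - g ^ c)) := fun i hi he => by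
    have h3 := Adj_lte_dvd (by omega) h1 i 1
    have h4 := Adj_lte hp hp2 (by omega) h1 h2 i 1 hp.not_dvd_one
    rw [mul_one, pow_mul] at h3 h4
    refine ⟨p ^ i, j + i, by omega, by omega, ?_, fun _ => ⟨by omega, fun h => h4 ?_⟩,
      fun _ => he, fun h => absurd h hp2, fun _ => by omega⟩
    · rw [Adj_split]
      exact dvd_sub ((pow_dvd_pow _ (by omega)).trans hm2) (h3.mul_left _)
    · have := dvd_sub ((pow_dvd_pow _ (by omega : j + i + 1 ≤ j + 2)).trans hm2) h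
      rw [sub_sub_cancel, Adj_split] at this
      exact hp'.pow_dvd_of_dvd_mul_left _ (fun h => hg (hp'.dvd_of_dvd_pow h)) this
  rcases Nat.even_or_odd j with he | ho
  · exact key 0 (by omega) he
  · exact key 1 le_rfl ho.add_one

/-- Exact valuations: lifting the exponent for an odd prime. -/
theorem lte {p j τ : ℕ} (hp : p.Prime) (h2 : p ≠ 2) (hj : 1 ≤ j) {g : ℤ}
    (h1 : (p : ℤ) ^ j ∣ g ^ τ - 1) (h3 : ¬ (p : ℤ) ^ (j + 1) ∣ g ^ τ - 1) (i u : ℕ)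
    (hu : ¬ p ∣ u) : ¬ (p : ℤ) ^ (j + i + 1) ∣ g ^ (τ * p ^ i * u) - 1 := by
  exact Adj_lte hp h2 hj h1 h3 i u hu

/-- The exact valuation does not change along multipliers prime to p. -/
theorem lte_unit {p j τ : ℕ} (hp : p.Prime) (hj : 1 ≤ j) {g : ℤ}
    (h1 : (p : ℤ) ^ j ∣ g ^ τ - 1) (h3 : ¬ (p : ℤ) ^ (j + 1) ∣ g ^ τ - 1) (u : ℕ)
    (hu : ¬ p ∣ u) : ¬ (p : ℤ) ^ (j + 1) ∣ g ^ (τ * u) - 1 := by
  intro h
  have hp' : Prime (p : ℤ) := Nat.prime_iff_prime_int.1 hp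
  have hp0 : (p : ℤ) ≠ 0 := hp'.ne_zero
  obtain ⟨x, hx⟩ := h1
  have h4 : (p : ℤ) ^ (j + 1) ∣ (g ^ τ - 1) ^ 2 := by
    rw [hx, mul_pow, ← pow_mul]
    exact (pow_dvd_pow _ (by omega)).mul_right _
  rw [pow_mul] at h
  have h5 := dvd_sub h (h4.trans (Adj_basic (g ^ τ) u))
  rw [sub_sub_cancel, hx, pow_succ, mul_left_comm,
    mul_dvd_mul_iff_left (pow_ne_zero j hp0)] at h5
  rcases hp'.dvd_or_dvd h5 with h6 | h6
  · exact hu (by exact_mod_cast h6)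
  · exact h3 (by
      rw [hx, pow_succ]
      exact mul_dvd_mul_left _ h6)

theorem lte_dvd {p j τ : ℕ} (hj : 1 ≤ j) {g : ℤ} (h1 : (p : ℤ) ^ j ∣ g ^ τ - 1) (i u : ℕ) :
    (p : ℤ) ^ (j + i) ∣ g ^ (τ * p ^ i * u) - 1 := by
  exact Adj_lte_dvd hj h1 i u

theorem assemble {L : ℕ} (P : Finset ℕ) (hP : ∀ p ∈ P, p.Prime) (h2 : 2 ∈ P) (k μ v : ℕ → ℕ)
    {ι : Type} [Nonempty ι] (m : ι → ℤ) (h : ∀ p ∈ P, ∀ i, Fin' L p (k p) (μ p) (v p) (m i)) :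
    4 ∣ ∏ p ∈ P, p ^ (k p - v p) ∧ (∃ x y : ℕ, ∏ p ∈ P, p ^ v p = x ^ 2 + y ^ 2) ∧
      ∀ i, ∃ b : ℤ, m i = (∏ p ∈ P, p ^ v p : ℕ) * b ∧ b % 4 = 1 ∧
        IsCoprime b ((∏ p ∈ P, p ^ (k p - v p) : ℕ) : ℤ) := by
  obtain ⟨i₀⟩ := ‹Nonempty ι›
  refine ⟨?_, ?_, fun i => ?_⟩
  · refine Dvd.dvd.trans ?_ (dvd_prod_of_mem _ h2)
    have := ((h 2 h2 i₀).2.2.2.2.2.1 rfl).1
    exact pow_dvd_pow 2 (by omega : 2 ≤ k 2 - v 2)
  · refine prod_induction _ (fun n => ∃ x y : ℕ, n = x ^ 2 + y ^ 2)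
      (fun a b ⟨_, _, ha⟩ ⟨_, _, hb⟩ => Nat.sq_add_sq_mul ha hb) ⟨1, 0, rfl⟩ fun p hp => ?_
    by_cases h3 : p % 4 = 3
    · obtain ⟨r, hr⟩ := (h p hp i₀).2.2.2.2.1 h3
      exact ⟨p ^ r, 0, by rw [hr]; ring⟩
    · have := Fact.mk (hP p hp)
      obtain ⟨a, b, hab⟩ := Nat.Prime.sq_add_sq h3
      induction v p with
      | zero => exact ⟨1, 0, rfl⟩
      | succ n ih =>
        obtain ⟨x, y, hxy⟩ := ih
        rw [pow_succ]
        exact Nat.sq_add_sq_mul hxy hab.symm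
  · obtain ⟨b, hb⟩ : ((∏ p ∈ P, p ^ v p : ℕ) : ℤ) ∣ m i := by
      push_cast
      refine Finset.prod_dvd_of_coprime (fun p hp q hq hne => ?_) fun p hp => (h p hp i).2.2.1
      exact (Nat.isCoprime_iff_coprime.2 ((Nat.coprime_primes (hP p hp) (hP q hq)).2 hne)).pow
    refine ⟨b, hb, ?_, ?_⟩
    · have h4 : (∏ p ∈ P.erase 2, p ^ v p) % 4 = 1 := by
        refine prod_induction _ (fun n => n % 4 = 1)
          (fun a b ha hb => by rw [Nat.mul_mod, ha, hb]) rfl fun p hp => ?_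
        obtain ⟨hne, hp⟩ := mem_erase.1 hp
        have h5 := (hP p hp).eq_two_or_odd.resolve_left hne
        rcases (by omega : p % 4 = 1 ∨ p % 4 = 3) with h6 | h6
        · rw [Nat.pow_mod, h6, one_pow]
          rfl
        · obtain ⟨r, hr⟩ := (h p hp i).2.2.2.2.1 h6
          rw [hr, ← two_mul, pow_mul, Nat.pow_mod, Nat.pow_mod p 2, h6]
          simp
      rw [← mul_prod_erase P _ h2] at hb
      obtain ⟨s, hs⟩ := ((h 2 h2 i).2.2.2.2.2.1 rfl).2.2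
      generalize (∏ p ∈ P.erase 2, p ^ v p) = G at h4 hb
      obtain ⟨n, rfl⟩ : ∃ n, G = 4 * n + 1 := ⟨G / 4, by omega⟩
      push_cast at hb
      have h7 : b = 4 * (s - n * b) + 1 := by
        refine mul_left_cancel₀ (pow_ne_zero (v 2) (two_ne_zero (α := ℤ))) ?_
        linear_combination hs - hb
      omega
    · push_cast
      refine IsCoprime.prod_right fun p hp => ?_
      rcases (h p hp i).1.eq_or_lt with he | hlt
      · rw [he, Nat.sub_self, pow_zero]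
        exact isCoprime_one_right
      · refine IsCoprime.pow_right ?_
        refine ((Nat.prime_iff_prime_int.1 (hP p hp)).coprime_iff_not_dvd.2 fun hd => ?_).symm
        refine ((h p hp i).2.2.2.1 hlt).2 ?_
        rw [hb, pow_succ]
        refine mul_dvd_mul ?_ hd
        exact_mod_cast dvd_prod_of_mem (fun p => p ^ v p) hp

end Pool.Agent.MP_c903c4_nt
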