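import Pool.Agent.MP_c903c4_nt.Defs
import Pool.Agent.MP_fdd1d3_nt.Mertens

/-!
Moduli with smooth orders are sparse.
-/

open Finset Filter Topology
open scoped Classical

noncomputable section

namespace Pool.Agent.MP_c903c4_nt

theorem Arith_euler (f : ℕ →* ℝ) (h0 : ∀ n, 0 ≤ f n) (h1 : ∀ p : ℕ, p.Prime → f p < 1)
    (S A : Finset ℕ) (hS : ∀ p ∈ S, p.Prime) (hA : ∀ n ∈ A, ∀ p, p.Prime → p ∣ n → p ∈ S) :
    ∑ n ∈ A, f n ≤ ∏ p ∈ S, (1 - f p)⁻¹ := by
  have h := (EulerProduct.summable_and_hasSum_factoredNumbers_prod_filter_prime_geometric (f := f)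
    (fun {p} hp => by rw [Real.norm_eq_abs, abs_of_nonneg (h0 p)]; exact h1 p hp) S).2
  rw [filter_true_of_mem hS] at h
  have h2 := sum_le_hasSum (A.subtype fun n => n ∈ Nat.factoredNumbers S) (fun m _ => h0 m) h
  rwa [sum_subtype_of_mem (fun n => f n) (fun n hn => Nat.mem_factoredNumbers'.2 (hA n hn))] at h2

/-- The reciprocal as a multiplicative map. -/
def Arith_inv : ℕ →* ℝ where
  toFun n := 1 / (n : ℝ)
  map_one' := by simp
  map_mul' m n := by push_cast; rw [one_div_mul_one_div]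

/-- The reciprocal square root as a multiplicative map. -/
def Arith_isq : ℕ →* ℝ where
  toFun n := 1 / Real.sqrt n
  map_one' := by simp
  map_mul' m n := by
    push_cast
    rw [Real.sqrt_mul (Nat.cast_nonneg m), one_div_mul_one_div]

theorem Arith_inv_le (u c : ℝ) (h0 : 0 ≤ u) (hc : 0 < c) (h1 : 1 ≤ c * (1 - u)) :
    (1 - u)⁻¹ ≤ Real.exp (c * u) := by
  have h2 : 0 < 1 - u := by
    by_contra h
    push Not at h
    nlinarith
  refine le_trans ?_ (Real.add_one_le_exp _)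
  rw [inv_eq_one_div, div_le_iff₀ h2]
  nlinarith [mul_le_mul_of_nonneg_left h1 h0]

theorem Arith_sqrt_sum (Z : ℕ) : ∑ l ∈ Icc 1 Z, 1 / Real.sqrt l ≤ 2 * Real.sqrt Z := by
  induction Z with
  | zero => simp
  | succ Z ih =>
    rw [sum_Icc_succ_top (by omega)]
    have h1 : 0 < Real.sqrt ((Z + 1 : ℕ) : ℝ) := Real.sqrt_pos.2 (by positivity)
    have h2 : Real.sqrt ((Z + 1 : ℕ) : ℝ) ^ 2 = Z + 1 := by
      rw [Real.sq_sqrt (by positivity)]; push_cast; rfl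
    have h3 : Real.sqrt (Z : ℝ) ^ 2 = Z := Real.sq_sqrt (by positivity)
    have h4 : 1 / Real.sqrt ((Z + 1 : ℕ) : ℝ) ≤
        2 * Real.sqrt ((Z + 1 : ℕ) : ℝ) - 2 * Real.sqrt Z := by
      rw [div_le_iff₀ h1]
      nlinarith [sq_nonneg (Real.sqrt ((Z + 1 : ℕ) : ℝ) - Real.sqrt Z)]
    linarith

theorem Arith_smooth (Z : ℕ) (K : Finset ℕ) (hK : ∀ k ∈ K, ∀ l, l.Prime → l ∣ k → l ≤ Z) :
    ∑ k ∈ K, 1 / Real.sqrt k ≤ Real.exp (8 * Real.sqrt Z) := by
  have hp : ∀ p : ℕ, p.Prime → 1 / Real.sqrt p ≤ 3 / 4 := by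
    intro p hp
    have h2 : (2 : ℝ) ≤ p := by exact_mod_cast hp.two_le
    have h3 : 4 / 3 ≤ Real.sqrt p := Real.le_sqrt_of_sq_le (by linarith)
    rw [div_le_iff₀ (by linarith)]
    linarith
  have h := Arith_euler Arith_isq (fun n => by show 0 ≤ 1 / Real.sqrt n; positivity)
    (fun p h => lt_of_le_of_lt (hp p h) (by norm_num)) ((Icc 1 Z).filter Nat.Prime) K
    (fun p h => (mem_filter.1 h).2)
    (fun k hk l hl hd => mem_filter.2 ⟨mem_Icc.2 ⟨hl.one_le, hK k hk l hl hd⟩, hl⟩)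
  refine h.trans ?_
  calc ∏ p ∈ (Icc 1 Z).filter Nat.Prime, (1 - Arith_isq p)⁻¹
      ≤ ∏ p ∈ (Icc 1 Z).filter Nat.Prime, Real.exp (4 * (1 / Real.sqrt p)) := by
        refine prod_le_prod (fun p h => ?_) fun p h => ?_
        · have := hp p (mem_filter.1 h).2
          exact inv_nonneg.2 (by show 0 ≤ 1 - 1 / Real.sqrt p; linarith)
        · have := hp p (mem_filter.1 h).2
          exact Arith_inv_le (1 / Real.sqrt p) 4 (by positivity) (by norm_num) (by linarith)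
    _ = Real.exp (4 * ∑ p ∈ (Icc 1 Z).filter Nat.Prime, 1 / Real.sqrt p) := by
        rw [mul_sum, Real.exp_sum]
    _ ≤ Real.exp (8 * Real.sqrt Z) := by
        refine Real.exp_le_exp.2 ?_
        have h1 : ∑ p ∈ (Icc 1 Z).filter Nat.Prime, 1 / Real.sqrt p ≤
            ∑ p ∈ Icc 1 Z, 1 / Real.sqrt p :=
          sum_le_sum_of_subset_of_nonneg (filter_subset _ _) fun p _ _ => by positivity
        linarith [Arith_sqrt_sum Z]

theorem Arith_card (k : ℕ) (hk : 0 < k) (F : Finset ℕ)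
    (hF : ∀ p ∈ F, p.Prime ∧ orderOf (3 : ZMod p) = k) : F.card ≤ 2 * k := by
  have h1 : ∏ p ∈ F, p ∣ 3 ^ k - 1 := by
    refine Finset.prod_primes_dvd _ (fun p hp => (hF p hp).1.prime) fun p hp => ?_
    have h2 : (3 : ZMod p) ^ k = 1 := by rw [← (hF p hp).2]; exact pow_orderOf_eq_one _
    have h3 : ((1 : ℕ) : ZMod p) = ((3 ^ k : ℕ) : ZMod p) := by push_cast; exact h2.symm
    exact (Nat.modEq_iff_dvd' (Nat.one_le_pow _ _ (by norm_num))).1
      ((ZMod.natCast_eq_natCast_iff _ _ _).1 h3)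
  have h2 : 1 < 3 ^ k := Nat.one_lt_pow hk.ne' (by norm_num)
  have h3 : ∏ p ∈ F, p ≤ 3 ^ k - 1 := Nat.le_of_dvd (by omega) h1
  have h4 : 2 ^ F.card ≤ ∏ p ∈ F, p := pow_card_le_prod _ _ _ fun p hp => (hF p hp).1.two_le
  have h5 : 3 ^ k ≤ 2 ^ (2 * k) := by
    rw [pow_mul]
    exact Nat.pow_le_pow_left (by norm_num) k
  exact (Nat.pow_le_pow_iff_right (by norm_num : 1 < 2)).1 (by omega)

theorem Arith_fiber (k : ℕ) (hk : 0 < k) (F : Finset ℕ) (hc : F.card ≤ 2 * k)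
    (hF : ∀ p ∈ F, 2 ≤ p ∧ k ∣ p - 1) :
    ∑ p ∈ F, (1 : ℝ) / p ≤ (2 + Real.log (2 * k)) / k := by
  have hkR : (0 : ℝ) < k := by exact_mod_cast hk
  have hj : ∀ p ∈ F, p = (p - 1) / k * k + 1 ∧ 1 ≤ (p - 1) / k := by
    intro p hp
    obtain ⟨h1, h2⟩ := hF p hp
    have h3 := Nat.div_mul_cancel h2
    refine ⟨by omega, Nat.pos_of_ne_zero fun h => ?_⟩
    rw [h] at h3
    omega
  have hle : ∀ p ∈ F, (1 : ℝ) / p ≤ 1 / (((p - 1) / k : ℕ) : ℝ) / k := by
    intro p hp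
    obtain ⟨h1, h2⟩ := hj p hp
    have h3 : (p : ℝ) = (((p - 1) / k : ℕ) : ℝ) * k + 1 := by exact_mod_cast h1
    have h4 : (1 : ℝ) ≤ (((p - 1) / k : ℕ) : ℝ) := by exact_mod_cast h2
    rw [div_div]
    exact one_div_le_one_div_of_le (by positivity) (by linarith)
  refine (sum_le_sum hle).trans ?_
  rw [← sum_div]
  refine div_le_div_of_nonneg_right ?_ hkR.le
  have hinj : Set.InjOn (fun p => (p - 1) / k) F := by
    intro p hp q hq h
    have h1 := (hj p hp).1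
    have h2 := (hj q hq).1
    simp only at h
    rw [h] at h1
    omega
  rw [← sum_image (f := fun j : ℕ => 1 / (j : ℝ)) hinj]
  set J := F.image fun p => (p - 1) / k with hJ
  have hJc : J.card ≤ 2 * k := card_image_le.trans hc
  rw [← sum_filter_add_sum_filter_not J (fun j => j ≤ 2 * k)]
  have h1 : ∑ j ∈ J.filter (fun j => j ≤ 2 * k), 1 / (j : ℝ) ≤ 1 + Real.log (2 * k) := by
    have := MP_fdd1d3_nt.harm_le (2 * k)
    push_cast at this
    refine le_trans (sum_le_sum_of_subset_of_nonneg ?_ fun j _ _ => by positivity) this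
    intro j hj'
    obtain ⟨h2, h3⟩ := mem_filter.1 hj'
    obtain ⟨p, hp, rfl⟩ := mem_image.1 h2
    exact mem_Icc.2 ⟨(hj p hp).2, h3⟩
  have h2 : ∑ j ∈ J.filter (fun j => ¬ j ≤ 2 * k), 1 / (j : ℝ) ≤ 1 := by
    have h3 := sum_le_card_nsmul (J.filter fun j => ¬ j ≤ 2 * k) (fun j => 1 / (j : ℝ))
      (1 / (2 * k)) (fun j hj' => by
        have h4 : 2 * k ≤ j := by have := (mem_filter.1 hj').2; omega
        exact one_div_le_one_div_of_le (by positivity) (by exact_mod_cast h4))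
    refine h3.trans ?_
    have h4 : ((J.filter fun j => ¬ j ≤ 2 * k).card : ℝ) ≤ 2 * k := by
      exact_mod_cast (card_filter_le _ _).trans hJc
    rw [nsmul_eq_mul, mul_one_div, div_le_one (by positivity)]
    exact h4
  linarith

theorem Arith_log (k Y : ℕ) (hY : 1 ≤ Y) (hk : Y ≤ k) :
    (2 + Real.log (2 * k)) / k ≤ 4 / Real.sqrt (Real.sqrt Y) * (1 / Real.sqrt k) := by
  have hYR : (1 : ℝ) ≤ Y := by exact_mod_cast hY
  have hkR : (Y : ℝ) ≤ k := by exact_mod_cast hk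
  set t := Real.sqrt (Real.sqrt k) with ht
  have hs : 0 < Real.sqrt (Real.sqrt Y) := Real.sqrt_pos.2 (Real.sqrt_pos.2 (by linarith))
  have hst : Real.sqrt (Real.sqrt Y) ≤ t := Real.sqrt_le_sqrt (Real.sqrt_le_sqrt hkR)
  have ht0 : 0 < t := lt_of_lt_of_le hs hst
  have h2 : Real.sqrt k = t ^ 2 := (Real.sq_sqrt (Real.sqrt_nonneg _)).symm
  have h4 : (k : ℝ) = t ^ 4 := by
    rw [show t ^ 4 = (t ^ 2) ^ 2 by ring, ← h2, Real.sq_sqrt (by positivity)]
  have h5 : Real.log (2 * k) ≤ 4 * t - 3 := by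
    rw [Real.log_mul (by norm_num) (by linarith), h4, Real.log_pow]
    have := Real.log_le_sub_one_of_pos ht0
    have h6 := Real.log_le_sub_one_of_pos (two_pos : (0 : ℝ) < 2)
    push_cast
    linarith
  calc (2 + Real.log (2 * k)) / k ≤ 4 * t / k := by
        refine div_le_div_of_nonneg_right (by linarith) (by positivity)
    _ = 4 / t * (1 / Real.sqrt k) := by
        rw [h2, h4]
        field_simp
    _ ≤ _ := by gcongr

theorem Arith_big (Z Y : ℕ) (hY : 1 ≤ Y) (hYZ : Real.exp (32 * Real.sqrt Z) ≤ Y) (S : Finset ℕ)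
    (hS : ∀ p ∈ S, p.Prime ∧ Y ^ 2 < p ∧ (3 : ZMod p) ≠ 0 ∧
      ∀ l, l.Prime → l ∣ orderOf (3 : ZMod p) → l ≤ Z) :
    ∑ p ∈ S, (1 : ℝ) / p ≤ 6 := by
  have hYR : (1 : ℝ) ≤ Y := by exact_mod_cast hY
  set K := S.image fun p => orderOf (3 : ZMod p) with hK
  have hdvd : ∀ p ∈ S, orderOf (3 : ZMod p) ∣ p - 1 := by
    intro p hp
    have := Fact.mk (hS p hp).1
    exact ZMod.orderOf_dvd_card_sub_one (hS p hp).2.2.1
  have hpos : ∀ k ∈ K, 0 < k := by
    intro k hk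
    obtain ⟨p, hp, rfl⟩ := mem_image.1 hk
    have := (hS p hp).1.two_le
    exact Nat.pos_of_dvd_of_pos (hdvd p hp) (by omega)
  have hcard : ∀ k ∈ K, (S.filter fun p => orderOf (3 : ZMod p) = k).card ≤ 2 * k := fun k hk =>
    Arith_card k (hpos k hk) _ fun p hp => ⟨(hS p (mem_filter.1 hp).1).1, (mem_filter.1 hp).2⟩
  rw [← sum_fiberwise_of_maps_to (t := K) (g := fun p => orderOf (3 : ZMod p))
    (fun p hp => mem_image_of_mem _ hp), ← sum_filter_add_sum_filter_not K (fun k => k ≤ Y)]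
  have h1 : ∑ k ∈ K.filter (fun k => k ≤ Y),
      ∑ p ∈ S.filter (fun p => orderOf (3 : ZMod p) = k), (1 : ℝ) / p ≤ 2 := by
    have h2 := sum_le_card_nsmul (K.filter fun k => k ≤ Y)
      (fun k => ∑ p ∈ S.filter (fun p => orderOf (3 : ZMod p) = k), (1 : ℝ) / p) (2 / Y) ?_
    · refine h2.trans ?_
      have h3 : (K.filter fun k => k ≤ Y).card ≤ Y := by
        have : K.filter (fun k => k ≤ Y) ⊆ Icc 1 Y := fun k hk =>
          mem_Icc.2 ⟨hpos k (mem_filter.1 hk).1, (mem_filter.1 hk).2⟩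
        simpa using card_le_card this
      have h4 : ((K.filter fun k => k ≤ Y).card : ℝ) ≤ Y := by exact_mod_cast h3
      rw [nsmul_eq_mul, mul_div_assoc', div_le_iff₀ (by linarith)]
      linarith
    · intro k hk
      obtain ⟨hk1, hk2⟩ := mem_filter.1 hk
      have h3 := sum_le_card_nsmul (S.filter fun p => orderOf (3 : ZMod p) = k)
        (fun p => (1 : ℝ) / p) (1 / (Y : ℝ) ^ 2) (fun p hp => by
          have h4 := (hS p (mem_filter.1 hp).1).2.1.le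
          exact one_div_le_one_div_of_le (by positivity) (by exact_mod_cast h4))
      refine h3.trans ?_
      have h4 : ((S.filter fun p => orderOf (3 : ZMod p) = k).card : ℝ) ≤ 2 * Y := by
        exact_mod_cast (hcard k hk1).trans (by omega)
      rw [nsmul_eq_mul, mul_one_div, div_le_div_iff₀ (by positivity) (by linarith)]
      nlinarith
  have h2 : ∑ k ∈ K.filter (fun k => ¬ k ≤ Y),
      ∑ p ∈ S.filter (fun p => orderOf (3 : ZMod p) = k), (1 : ℝ) / p ≤ 4 := by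
    have hs : Real.exp (8 * Real.sqrt Z) ≤ Real.sqrt (Real.sqrt Y) := by
      refine Real.le_sqrt_of_sq_le (Real.le_sqrt_of_sq_le ?_)
      rw [← pow_mul, ← Real.exp_nat_mul]
      refine le_trans (le_of_eq ?_) hYZ
      congr 1
      push_cast
      ring
    have hs0 : 0 < Real.sqrt (Real.sqrt Y) := lt_of_lt_of_le (Real.exp_pos _) hs
    calc _ ≤ ∑ k ∈ K.filter (fun k => ¬ k ≤ Y),
          4 / Real.sqrt (Real.sqrt Y) * (1 / Real.sqrt k) := by
          refine sum_le_sum fun k hk => ?_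
          obtain ⟨hk1, hk2⟩ := mem_filter.1 hk
          refine (Arith_fiber k (hpos k hk1) _ (hcard k hk1) fun p hp => ?_).trans
            (Arith_log k Y hY (by omega))
          obtain ⟨h3, h4⟩ := mem_filter.1 hp
          exact ⟨(hS p h3).1.two_le, h4 ▸ hdvd p h3⟩
      _ ≤ 4 / Real.sqrt (Real.sqrt Y) * Real.exp (8 * Real.sqrt Z) := by
          rw [← mul_sum]
          refine mul_le_mul_of_nonneg_left (Arith_smooth Z _ fun k hk l hl hd => ?_)
            (by positivity)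
          obtain ⟨p, hp, rfl⟩ := mem_image.1 (mem_filter.1 hk).1
          exact (hS p hp).2.2.2 l hl hd
      _ ≤ 4 := by
          rw [div_mul_eq_mul_div, div_le_iff₀ hs0]
          linarith
  linarith

theorem Arith_ord {q Z p : ℕ} (hq : Ok q) (hZ : Lam q ≤ Z) (hp : p.Prime) (hd : p ∣ q) :
    (3 : ZMod p) ≠ 0 ∧ ∀ l, l.Prime → l ∣ orderOf (3 : ZMod p) → l ≤ Z := by
  obtain ⟨h0, hc⟩ := hq
  have : NeZero q := ⟨h0.ne'⟩
  have h3 : Nat.Coprime 3 q := (hc.coprime_dvd_right (by norm_num : 3 ∣ 15)).symm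
  have h5 : Nat.Coprime 5 q := (hc.coprime_dvd_right (by norm_num : 5 ∣ 15)).symm
  have o3 : 0 < orderOf (3 : ZMod q) := by
    have := (ZMod.isUnit_iff_coprime 3 q).2 h3
    exact (isOfFinOrder_iff_isUnit.2 (by simpa using this)).orderOf_pos
  have o5 : 0 < orderOf (5 : ZMod q) := by
    have := (ZMod.isUnit_iff_coprime 5 q).2 h5
    exact (isOfFinOrder_iff_isUnit.2 (by simpa using this)).orderOf_pos
  constructor
  · intro h
    have h1 : ((3 : ℕ) : ZMod p) = 0 := by simpa using h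
    rw [ZMod.natCast_eq_zero_iff] at h1
    exact hp.one_lt.ne' (Nat.eq_one_of_dvd_coprimes h3 h1 hd)
  · intro l hl hld
    have h1 := orderOf_map_dvd (ZMod.castHom hd (ZMod p)).toMonoidHom (3 : ZMod q)
    have h2 : (ZMod.castHom hd (ZMod p)).toMonoidHom (3 : ZMod q) = 3 := map_ofNat (ZMod.castHom hd (ZMod p)) 3
    rw [h2] at h1
    refine le_trans ?_ hZ
    exact le_sup (f := id) (Nat.mem_primeFactors.2
      ⟨hl, (hld.trans h1).mul_right _, (Nat.mul_pos o3 o5).ne'⟩)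

theorem hsum : ∃ C : ℝ, 0 < C ∧ ∀ Z : ℕ, 1 ≤ Z → ∀ A : Finset ℕ, (∀ q ∈ A, Ok q ∧ Lam q ≤ Z) →
    ∑ q ∈ A, (1 : ℝ) / q ≤ C * Real.sqrt Z := by
  refine ⟨Real.exp 4 * Real.exp 6 * 990, by positivity, fun Z hZ A hA => ?_⟩
  set S := A.biUnion Nat.primeFactors with hSd
  have hS : ∀ p ∈ S, p.Prime ∧ (3 : ZMod p) ≠ 0 ∧
      ∀ l, l.Prime → l ∣ orderOf (3 : ZMod p) → l ≤ Z := by
    intro p hp
    obtain ⟨q, hq, hpq⟩ := mem_biUnion.1 hp
    have hpp := Nat.prime_of_mem_primeFactors hpq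
    exact ⟨hpp, Arith_ord (hA q hq).1 (hA q hq).2 hpp (Nat.dvd_of_mem_primeFactors hpq)⟩
  have hp2 : ∀ p : ℕ, p.Prime → (1 : ℝ) / p ≤ 1 / 2 := fun p hp =>
    one_div_le_one_div_of_le two_pos (by exact_mod_cast hp.two_le)
  have h1 := Arith_euler Arith_inv (fun n => by show 0 ≤ 1 / (n : ℝ); positivity)
    (fun p h => lt_of_le_of_lt (hp2 p h) (by norm_num)) S A (fun p h => (hS p h).1)
    (fun q hq p hp hd => mem_biUnion.2 ⟨q, hq, Nat.mem_primeFactors.2 ⟨hp, hd, (hA q hq).1.1.ne'⟩⟩)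
  refine h1.trans ?_
  have hsZ : 1 ≤ Real.sqrt Z := Real.le_sqrt_of_sq_le (by exact_mod_cast hZ)
  set Y := ⌈Real.exp (32 * Real.sqrt Z)⌉₊ with hY
  have hYZ : Real.exp (32 * Real.sqrt Z) ≤ Y := Nat.le_ceil _
  have hE : 2 ≤ Real.exp (32 * Real.sqrt Z) := by
    linarith [Real.add_one_le_exp (32 * Real.sqrt Z)]
  have hY2 : 2 ≤ Y := by exact_mod_cast hE.trans hYZ
  have hYu : (Y : ℝ) ≤ 2 * Real.exp (32 * Real.sqrt Z) := by
    have := Nat.ceil_lt_add_one (Real.exp_pos (32 * Real.sqrt Z)).le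
    linarith
  have hlog : Real.log ((Y ^ 2 : ℕ) : ℝ) ≤ 66 * Real.sqrt Z := by
    have hY0 : (0 : ℝ) < Y := by exact_mod_cast (by omega : 0 < Y)
    have h2 := Real.log_le_log hY0 hYu
    rw [Real.log_mul (by norm_num) (Real.exp_pos _).ne', Real.log_exp] at h2
    have h6 := Real.log_le_sub_one_of_pos (two_pos : (0 : ℝ) < 2)
    push_cast
    rw [Real.log_pow]
    push_cast
    linarith
  have h2 : ∏ p ∈ S, (1 - Arith_inv p)⁻¹ ≤
      ∏ p ∈ S, ((1 + 1 / (p : ℝ)) * Real.exp (2 * (1 / (p : ℝ)) ^ 2)) := by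
    refine prod_le_prod (fun p h => ?_) fun p h => ?_
    · have := hp2 p (hS p h).1
      exact inv_nonneg.2 (by show 0 ≤ 1 - 1 / (p : ℝ); linarith)
    · have h3 := hp2 p (hS p h).1
      have h4 : (0 : ℝ) ≤ 1 / p := by positivity
      show (1 - 1 / (p : ℝ))⁻¹ ≤ _
      generalize 1 / (p : ℝ) = u at h3 h4
      have h5 := Arith_inv_le (u ^ 2) 2 (by positivity) two_pos (by nlinarith)
      have h6 : (1 - u)⁻¹ = (1 + u) * (1 - u ^ 2)⁻¹ := by
        have : 1 - u ≠ 0 := by linarith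
        have : 1 + u ≠ 0 := by linarith
        rw [show 1 - u ^ 2 = (1 + u) * (1 - u) by ring]
        field_simp
      rw [h6]
      exact mul_le_mul_of_nonneg_left h5 (by linarith)
  refine h2.trans ?_
  rw [prod_mul_distrib, ← Real.exp_sum, ← prod_filter_mul_prod_filter_not S (fun p => p ≤ Y ^ 2)]
  have h3 : ∑ p ∈ S, 2 * (1 / (p : ℝ)) ^ 2 ≤ 4 := by
    rw [← mul_sum]
    have h4 := MP_fdd1d3_nt.inv_sq_le_two (S.sup id)
    have h5 : ∑ p ∈ S, (1 / (p : ℝ)) ^ 2 ≤ ∑ p ∈ Icc 1 (S.sup id), (1 / (p : ℝ)) ^ 2 :=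
      sum_le_sum_of_subset_of_nonneg
        (fun p hp => mem_Icc.2 ⟨(hS p hp).1.one_le, le_sup (f := id) hp⟩) fun p _ _ => by positivity
    linarith
  have h4 : ∏ p ∈ S.filter (fun p => p ≤ Y ^ 2), (1 + 1 / (p : ℝ)) ≤ 990 * Real.sqrt Z := by
    have h5 := MP_fdd1d3_nt.mertens_b (Y ^ 2) (by nlinarith)
    have h6 : ∏ p ∈ MP_fdd1d3_nt.PP 0 (Y ^ 2), (1 + 1 / (p : ℝ)) =
        ∑ s ∈ (MP_fdd1d3_nt.PP 0 (Y ^ 2)).powerset, 1 / MP_fdd1d3_nt.nn (fun p => p) s := by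
      rw [prod_one_add]
      refine sum_congr rfl fun s _ => ?_
      simp [MP_fdd1d3_nt.nn]
    have h7 : ∏ p ∈ S.filter (fun p => p ≤ Y ^ 2), (1 + 1 / (p : ℝ)) ≤
        ∏ p ∈ MP_fdd1d3_nt.PP 0 (Y ^ 2), (1 + 1 / (p : ℝ)) := by
      refine prod_le_prod_of_subset_of_one_le ?_ (fun p _ => by positivity)
        fun p _ _ => le_add_of_nonneg_right (by positivity)
      intro p hp
      obtain ⟨h8, h9⟩ := mem_filter.1 hp
      exact (MP_fdd1d3_nt.mem_PP _ _ _).2 ⟨⟨(hS p h8).1.pos, h9⟩, (hS p h8).1⟩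
    linarith
  have h5 : ∏ p ∈ S.filter (fun p => ¬ p ≤ Y ^ 2), (1 + 1 / (p : ℝ)) ≤ Real.exp 6 := by
    have h6 := Arith_big Z Y (by omega) hYZ (S.filter fun p => ¬ p ≤ Y ^ 2) fun p hp => by
      obtain ⟨h7, h8⟩ := mem_filter.1 hp
      exact ⟨(hS p h7).1, by omega, (hS p h7).2⟩
    refine le_trans ?_ (Real.exp_le_exp.2 h6)
    rw [Real.exp_sum]
    refine prod_le_prod (fun p _ => by positivity) fun p _ => ?_
    linarith [Real.add_one_le_exp (1 / (p : ℝ))]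
  calc _ ≤ 990 * Real.sqrt Z * Real.exp 6 * Real.exp 4 := by
        refine mul_le_mul (mul_le_mul h4 h5 (prod_nonneg fun p _ => by positivity)
          (by positivity)) (Real.exp_le_exp.2 h3) (by positivity) (by positivity)
    _ = _ := by ring

end Pool.Agent.MP_c903c4_nt
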