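import Pool.Agent.MP_c903c4_nt.Four

/-!
The second moment estimate on one block.
-/

open Finset Filter Topology
open scoped Classical

noncomputable section

namespace Pool.Agent.MP_c903c4_nt

open Pool.Agent.MP_2a1f0e_nt (ex ex_add ex_zero)

theorem Block_count {q₁ e : ℕ} (hc : e.Coprime q₁) (Y H : ℕ) (b : ℤ) :
    ((Ioc Y (Y + H)).filter fun t : ℕ => (e : ℤ) ∣ q₁ * t + b).card ≤ H / e + 1 := by
  rw [← card_range (H / e + 1)]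
  refine card_le_card_of_injOn (fun t => (t - Y) / e) ?_ ?_
  · intro t ht
    simp only [coe_filter, mem_Ioc, Set.mem_setOf_eq] at ht
    simp only [coe_range, Set.mem_Iio]
    have : (t - Y) / e ≤ H / e := Nat.div_le_div_right (by omega)
    omega
  · intro t ht t' ht' h
    simp only [coe_filter, mem_Ioc, Set.mem_setOf_eq] at ht ht'
    simp only at h
    have h1 : (e : ℤ) ∣ (q₁ : ℤ) * ((t : ℤ) - t') := by
      have h0 : (q₁ : ℤ) * ((t : ℤ) - t') = (q₁ * t + b) - (q₁ * t' + b) := by ring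
      rw [h0]
      exact dvd_sub ht.2 ht'.2
    have h2 : (e : ℤ) ∣ (t : ℤ) - t' :=
      (Nat.isCoprime_iff_coprime.2 hc).dvd_of_dvd_mul_left h1
    have h3 : (t' - Y) ≡ (t - Y) [MOD e] := by
      rw [Nat.modEq_iff_dvd]
      have e1 : ((t - Y : ℕ) : ℤ) = t - Y := by omega
      have e2 : ((t' - Y : ℕ) : ℤ) = t' - Y := by omega
      have h0 : (t : ℤ) - Y - (t' - Y) = t - t' := by ring
      rw [e1, e2, h0]
      exact h2
    have h4 := Nat.div_add_mod (t - Y) e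
    have h5 := Nat.div_add_mod (t' - Y) e
    unfold Nat.ModEq at h3
    rw [h, ← h3] at h4
    omega

theorem Block_cop {q₁ e t : ℕ} {b : ℤ} (hb : IsCoprime b (q₁ : ℤ))
    (h : (e : ℤ) ∣ q₁ * t + b) : e.Coprime q₁ := by
  rw [← Nat.isCoprime_iff_coprime]
  have h1 : IsCoprime ((q₁ : ℤ) * t + b) (q₁ : ℤ) := by
    rw [add_comm]
    exact hb.add_mul_left_left _
  exact h1.of_isCoprime_of_dvd_left h

theorem Block_W {q₁ Y H D : ℕ} {b : ℤ} (hb : IsCoprime b (q₁ : ℤ)) (hbH : |b| ≤ H) (hD : 0 < D)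
    (hDH : D ≤ H) (hY : H ≤ q₁ * Y) (hD2 : q₁ * Y - H < (D + 1) ^ 2) :
    ∑ t ∈ Ioc Y (Y + H), (((Ioc D (q₁ * t + b).toNat).filter fun e =>
      e ∣ (q₁ * t + b).toNat ∧ e * D < (q₁ * t + b).toNat).card : ℝ) ≤
        ((q₁ + 4) * H / D) * (2 * H / D) := by
  set M : ℕ := q₁ * (Y + H) + H with hM
  set E : Finset ℕ := (Ioc D (M / D)).filter fun e => e.Coprime q₁ with hE
  have hDr : (0 : ℝ) < D := by exact_mod_cast hD
  have hb1 := abs_le.1 hbH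
  have h1 : ∀ t ∈ Ioc Y (Y + H), ((Ioc D (q₁ * t + b).toNat).filter fun e =>
      e ∣ (q₁ * t + b).toNat ∧ e * D < (q₁ * t + b).toNat).card ≤
        (E.filter fun e : ℕ => (e : ℤ) ∣ q₁ * t + b).card := by
    intro t ht
    refine card_le_card fun e he => ?_
    rw [mem_Ioc] at ht
    simp only [mem_filter, mem_Ioc] at he
    obtain ⟨⟨h2, h3⟩, h4, h5⟩ := he
    have h6 : (0 : ℤ) ≤ q₁ * t + b := by omega
    have h7 : (e : ℤ) ∣ q₁ * t + b := by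
      have := Int.natCast_dvd_natCast.2 h4
      rwa [Int.toNat_of_nonneg h6] at this
    have h8 : q₁ * t ≤ q₁ * (Y + H) := Nat.mul_le_mul_left _ ht.2
    have h9 : (q₁ * t + b).toNat ≤ M := by
      have : ((q₁ * t : ℕ) : ℤ) ≤ ((q₁ * (Y + H) : ℕ) : ℤ) := by exact_mod_cast h8
      rw [Int.toNat_le, hM]
      push_cast at this ⊢
      linarith
    simp only [hE, mem_filter, mem_Ioc]
    refine ⟨⟨⟨h2, ?_⟩, Block_cop hb h7⟩, h7⟩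
    rw [Nat.le_div_iff_mul_le hD]
    omega
  have h2 : ∑ t ∈ Ioc Y (Y + H), (E.filter fun e : ℕ => (e : ℤ) ∣ q₁ * t + b).card =
      ∑ e ∈ E, ((Ioc Y (Y + H)).filter fun t : ℕ => (e : ℤ) ∣ q₁ * t + b).card := by
    simp only [card_filter]
    exact sum_comm
  have h3 : ∀ e ∈ E, (((Ioc Y (Y + H)).filter fun t : ℕ => (e : ℤ) ∣ q₁ * t + b).card : ℝ) ≤
      2 * H / D := by
    intro e he
    simp only [hE, mem_filter, mem_Ioc] at he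
    have h4 := Block_count he.2 Y H b
    have h5 : H / e ≤ H / D := Nat.div_le_div_left he.1.1.le hD
    have h6 : ((H / D : ℕ) : ℝ) ≤ (H : ℝ) / D := Nat.cast_div_le
    have h7 : (1 : ℝ) ≤ (H : ℝ) / D := by
      rw [le_div_iff₀ hDr, one_mul]
      exact_mod_cast hDH
    have h8 : (((Ioc Y (Y + H)).filter fun t : ℕ => (e : ℤ) ∣ q₁ * t + b).card : ℝ) ≤
        ((H / D : ℕ) : ℝ) + 1 := by exact_mod_cast h4.trans (by omega)
    have h9 : (2 : ℝ) * H / D = H / D + H / D := by ring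
    linarith
  have h4 : (E.card : ℝ) ≤ (q₁ + 4) * H / D := by
    have h5 : E.card ≤ M / D - D := by
      have := card_filter_le (Ioc D (M / D)) fun e => e.Coprime q₁
      rwa [Nat.card_Ioc] at this
    have h6 : (M / D - D) * D ≤ (q₁ + 4) * H := by
      have h7 : M / D * D ≤ M := Nat.div_mul_le_self _ _
      rw [Nat.sub_mul]
      have h8 : (D + 1) ^ 2 = D * D + 2 * D + 1 := by ring
      have h9 : M = q₁ * Y + q₁ * H + H := by rw [hM]; ring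
      have h10 : (q₁ + 4) * H = q₁ * H + 4 * H := by ring
      omega
    rw [le_div_iff₀ hDr]
    exact_mod_cast (Nat.mul_le_mul_right D h5).trans h6
  calc _ ≤ ((∑ t ∈ Ioc Y (Y + H), (E.filter fun e : ℕ => (e : ℤ) ∣ q₁ * t + b).card : ℕ) : ℝ) := by
        rw [Nat.cast_sum]
        exact sum_le_sum fun t ht => by exact_mod_cast h1 t ht
    _ = ∑ e ∈ E, (((Ioc Y (Y + H)).filter fun t : ℕ => (e : ℤ) ∣ q₁ * t + b).card : ℝ) := by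
        rw [h2, Nat.cast_sum]
    _ ≤ E.card • (2 * H / D : ℝ) := sum_le_card_nsmul _ _ _ h3
    _ ≤ _ := by
        rw [nsmul_eq_mul]
        exact mul_le_mul_of_nonneg_right h4 (by positivity)

/-- The coefficients of the trigonometric polynomial. -/
def Block_u {ι : Type} (q₁ D : ℕ) (S : Finset ι) (b : ι → ℤ) (q r : ℕ) : ℂ :=
  (((chi q : ℝ) / q * Aco q₁ (D / q) : ℝ) : ℂ) * ∑ s ∈ S, ex ((r : ℝ) * b s / q)

/-- The part of the trigonometric polynomial with denominators in B. -/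
def Block_E {ι : Type} (q₁ D : ℕ) (S : Finset ι) (b : ι → ℤ) (B : Finset ℕ) (t : ℕ) : ℂ :=
  ∑ q ∈ B, ∑ r ∈ Red q, Block_u q₁ D S b q r * ex ((r : ℝ) * (q₁ * t) / q)

theorem Block_four {ι : Type} (q₁ D : ℕ) (S : Finset ι) (b : ι → ℤ) (t : ℕ) :
    ((∑ s ∈ S, ∑ d ∈ (Cop q₁ 0 D).filter (fun d : ℕ => (d : ℤ) ∣ q₁ * t + b s), chi d : ℤ) : ℂ) =
      Block_E q₁ D S b (Cop q₁ 0 D) t := by
  rw [Int.cast_sum]
  simp only [fourier]
  unfold Block_E Block_u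
  rw [sum_comm]
  refine sum_congr rfl fun q _ => ?_
  rw [← mul_sum, sum_comm, mul_sum]
  refine sum_congr rfl fun r _ => ?_
  rw [mul_assoc, sum_mul]
  congr 1
  refine sum_congr rfl fun s _ => ?_
  rw [← ex_add]
  congr 1
  push_cast
  ring

theorem Block_split {ι : Type} (q₁ : ℕ) {D Q : ℕ} (hQ : 1 ≤ Q) (hQD : Q ≤ D) (S : Finset ι)
    (b : ι → ℤ) (t : ℕ) :
    Block_E q₁ D S b (Cop q₁ 0 D) t = ((Aco q₁ D * S.card : ℝ) : ℂ) +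
      Block_E q₁ D S b (Cop q₁ 1 Q) t + Block_E q₁ D S b (Cop q₁ Q D) t := by
  have h1 : Cop q₁ 0 D = ({1} ∪ Cop q₁ 1 Q) ∪ Cop q₁ Q D := by
    ext e
    simp only [Cop, mem_filter, mem_Ioc, mem_union, mem_singleton]
    constructor
    · rintro ⟨⟨h2, h3⟩, h4⟩
      by_cases h5 : e = 1
      · exact Or.inl (Or.inl h5)
      by_cases h6 : e ≤ Q
      · exact Or.inl (Or.inr ⟨⟨by omega, h6⟩, h4⟩)
      · exact Or.inr ⟨⟨by omega, h3⟩, h4⟩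
    · rintro ((h2 | ⟨⟨h2, h3⟩, h4⟩) | ⟨⟨h2, h3⟩, h4⟩)
      · subst h2
        exact ⟨⟨by omega, by omega⟩, Nat.coprime_one_left _⟩
      · exact ⟨⟨by omega, by omega⟩, h4⟩
      · exact ⟨⟨by omega, by omega⟩, h4⟩
  have h2 : Disjoint ({1} : Finset ℕ) (Cop q₁ 1 Q) := by
    rw [disjoint_singleton_left]
    simp [Cop]
  have h3 : Disjoint ({1} ∪ Cop q₁ 1 Q) (Cop q₁ Q D) := by
    rw [disjoint_left]
    intro e he he'
    simp only [Cop, mem_filter, mem_Ioc, mem_union, mem_singleton] at he he'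
    omega
  have h4 : Red 1 = {0} := by
    ext r
    simp only [Red, mem_filter, mem_range, mem_singleton]
    constructor
    · intro h
      omega
    · rintro rfl
      exact ⟨by omega, Nat.coprime_one_right _⟩
  unfold Block_E
  rw [h1, sum_union h3, sum_union h2, sum_singleton, h4, sum_singleton]
  congr 2
  simp [Block_u, ex_zero, chi_one]

theorem Block_sq {ι : Type} (q₁ D R Y : ℕ) {H : ℕ} (hH : 1 ≤ H) (S : Finset ι) (b : ι → ℤ)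
    (B : Finset ℕ) (hB : B ⊆ Cop q₁ 0 R) {K : ℝ} (hK : ∀ q ∈ B, |Aco q₁ (D / q)| ≤ K) :
    ∑ t ∈ Ioc Y (Y + H), ‖Block_E q₁ D S b B t‖ ^ 2 ≤
      24 * (2 * H + (R : ℝ) ^ 2) * (K ^ 2 * ∑ q ∈ B, (cc S b q : ℝ) / q) := by
  refine (ls q₁ R Y H hH B hB (Block_u q₁ D S b)).trans ?_
  refine mul_le_mul_of_nonneg_left ?_ (by positivity)
  rw [mul_sum]
  refine sum_le_sum fun q hq => ?_
  have hq0 : 0 < q := by
    have := hB hq
    simp only [Cop, mem_filter, mem_Ioc] at this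
    exact this.1.1
  have hqr : (0 : ℝ) < q := by exact_mod_cast hq0
  have h1 : |(chi q : ℝ) / q * Aco q₁ (D / q)| ≤ K / q := by
    have h2 : |(chi q : ℝ)| ≤ 1 := by exact_mod_cast abs_chi_le q
    rw [abs_mul, abs_div, abs_of_pos hqr]
    calc _ ≤ 1 / q * K := by
          gcongr
          exact hK q hq
      _ = _ := by ring
  have h3 : ∑ r ∈ Red q, ‖Block_u q₁ D S b q r‖ ^ 2 =
      |(chi q : ℝ) / q * Aco q₁ (D / q)| ^ 2 *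
        ∑ r ∈ Red q, ‖∑ s ∈ S, ex ((r : ℝ) * b s / q)‖ ^ 2 := by
    rw [mul_sum]
    refine sum_congr rfl fun r _ => ?_
    unfold Block_u
    rw [norm_mul, mul_pow, Complex.norm_real, Real.norm_eq_abs]
  rw [h3]
  calc _ ≤ (K / q) ^ 2 * (q * (cc S b q : ℝ)) := by
        gcongr
        exact parseval S b hq0
    _ = _ := by field_simp

theorem Block_pt {ι : Type} {q₁ D Q t : ℕ} (h4 : 4 ∣ q₁) (hQ : 1 ≤ Q) (hQD : Q ≤ D) (S : Finset ι)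
    (b : ι → ℤ) (hb : ∀ s ∈ S, b s % 4 = 1 ∧ IsCoprime (b s) (q₁ : ℤ))
    (hm : ∀ s ∈ S, ((D ^ 2 : ℕ) : ℤ) < q₁ * t + b s)
    (h0 : ∀ s ∈ S, rho (q₁ * t + b s).toNat = 0) :
    Aco q₁ D * S.card ≤ ‖Block_E q₁ D S b (Cop q₁ 1 Q) t‖ + ‖Block_E q₁ D S b (Cop q₁ Q D) t‖ +
      (∑ s ∈ S, (((Ioc D (q₁ * t + b s).toNat).filter fun e =>
        e ∣ (q₁ * t + b s).toNat ∧ e * D < (q₁ * t + b s).toNat).card : ℝ)) / 2 := by
  set P : ℤ := ∑ s ∈ S, ∑ d ∈ (Cop q₁ 0 D).filter (fun d : ℕ => (d : ℤ) ∣ q₁ * t + b s), chi d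
    with hP
  have h1 : (P : ℂ) = ((Aco q₁ D * S.card : ℝ) : ℂ) +
      Block_E q₁ D S b (Cop q₁ 1 Q) t + Block_E q₁ D S b (Cop q₁ Q D) t := by
    rw [← Block_split q₁ hQ hQD, hP, Block_four]
  have h2 : ∀ s ∈ S,
      2 * |∑ d ∈ (Cop q₁ 0 D).filter (fun d : ℕ => (d : ℤ) ∣ q₁ * t + b s), chi d| ≤
        (((Ioc D (q₁ * t + b s).toNat).filter fun e =>
          e ∣ (q₁ * t + b s).toNat ∧ e * D < (q₁ * t + b s).toNat).card : ℤ) := by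
    intro s hs
    have h3 := hm s hs
    have h5 : (0 : ℤ) ≤ q₁ * t + b s := le_trans (by positivity) h3.le
    have h6 : (((q₁ * t + b s).toNat : ℕ) : ℤ) = q₁ * t + b s := Int.toNat_of_nonneg h5
    have h7 : (q₁ * t + b s).toNat % 4 = 1 := by
      obtain ⟨c, hc⟩ := h4
      have h8 := (hb s hs).1
      have h9 : (q₁ : ℤ) * t = 4 * (c * t) := by
        rw [hc]
        push_cast
        ring
      rw [h9] at h6 ⊢
      omega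
    have h8 : D ^ 2 < (q₁ * t + b s).toNat := by omega
    have h9 := hyper h7 h8
    rw [h0 s hs, zero_sub, abs_neg, abs_mul] at h9
    have h10 : (Ioc 0 D).filter (fun d => d ∣ (q₁ * t + b s).toNat) =
        (Cop q₁ 0 D).filter (fun d : ℕ => (d : ℤ) ∣ q₁ * t + b s) := by
      ext d
      simp only [Cop, mem_filter]
      rw [← Int.natCast_dvd_natCast, h6]
      exact ⟨fun h => ⟨⟨h.1, Block_cop (hb s hs).2 h.2⟩, h.2⟩, fun h => ⟨h.1.1, h.2⟩⟩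
    rw [h10] at h9
    simpa using h9
  have h3 : 2 * |P| ≤ ∑ s ∈ S, (((Ioc D (q₁ * t + b s).toNat).filter fun e =>
      e ∣ (q₁ * t + b s).toNat ∧ e * D < (q₁ * t + b s).toNat).card : ℤ) := by
    refine le_trans ?_ (sum_le_sum h2)
    rw [← mul_sum]
    exact mul_le_mul_of_nonneg_left (abs_sum_le_sum_abs _ _) (by norm_num)
  have h5 : 2 * |(P : ℝ)| ≤ ∑ s ∈ S, (((Ioc D (q₁ * t + b s).toNat).filter fun e =>
      e ∣ (q₁ * t + b s).toNat ∧ e * D < (q₁ * t + b s).toNat).card : ℝ) := by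
    exact_mod_cast h3
  have h6 : ((Aco q₁ D * S.card : ℝ) : ℂ) =
      (P : ℂ) - Block_E q₁ D S b (Cop q₁ 1 Q) t - Block_E q₁ D S b (Cop q₁ Q D) t := by
    rw [h1]
    ring
  have h7 : ‖((Aco q₁ D * S.card : ℝ) : ℂ)‖ ≤
      ‖(P : ℂ)‖ + ‖Block_E q₁ D S b (Cop q₁ 1 Q) t‖ + ‖Block_E q₁ D S b (Cop q₁ Q D) t‖ := by
    rw [h6]
    exact (norm_sub_le _ _).trans (by gcongr; exact norm_sub_le _ _)
  rw [Complex.norm_real, Real.norm_eq_abs, Complex.norm_intCast] at h7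
  have h8 := le_abs_self (Aco q₁ D * S.card)
  linarith

theorem Block_ind {x y w a : ℝ} (ha : 0 < a) (hw : 0 ≤ w)
    (h : a / 2 ≤ x + y + w / 2) : 1 ≤ 36 / a ^ 2 * x ^ 2 + 36 / a ^ 2 * y ^ 2 + 3 / a * w := by
  have h1 : 0 ≤ 36 / a ^ 2 * x ^ 2 := by positivity
  have h2 : 0 ≤ 36 / a ^ 2 * y ^ 2 := by positivity
  have h3 : 0 ≤ 3 / a * w := by positivity
  have key : ∀ z : ℝ, a / 6 ≤ z → 1 ≤ 36 / a ^ 2 * z ^ 2 := by
    intro z hz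
    have h4 : (a / 6) ^ 2 ≤ z ^ 2 := by gcongr
    calc (1 : ℝ) = 36 / a ^ 2 * (a / 6) ^ 2 := by field_simp; norm_num
      _ ≤ _ := by gcongr
  by_cases h4 : a / 6 ≤ x
  · linarith [key x h4]
  by_cases h5 : a / 6 ≤ y
  · linarith [key y h5]
  have h6 : a / 3 ≤ w := by linarith
  have h7 : (1 : ℝ) ≤ 3 / a * w := by
    calc (1 : ℝ) = 3 / a * (a / 3) := by field_simp
      _ ≤ _ := by gcongr
  linarith

theorem Block_e1 {ι : Type} {q₁ D Q H N₀ : ℕ} (Y : ℕ) {A : ℝ} (hA : 0 < A)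
    (hN₀ : ∀ N, N₀ ≤ N → A / 2 ≤ Aco q₁ N ∧ Aco q₁ N ≤ 2 * A) (hH : 1 ≤ H) (hH2 : Q ^ 2 ≤ H)
    (hD5 : Q * (N₀ + 1) ≤ D) (S : Finset ι) (b : ι → ℤ) :
    ∑ t ∈ Ioc Y (Y + H), ‖Block_E q₁ D S b (Cop q₁ 1 Q) t‖ ^ 2 ≤
      288 * H * A ^ 2 * ∑ q ∈ Cop q₁ 1 Q, (cc S b q : ℝ) / q := by
  have h1 : Cop q₁ 1 Q ⊆ Cop q₁ 0 Q :=
    filter_subset_filter _ (Ioc_subset_Ioc_left (by omega))
  have h2 : ∀ q ∈ Cop q₁ 1 Q, |Aco q₁ (D / q)| ≤ 2 * A := by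
    intro q hq'
    simp only [Cop, mem_filter, mem_Ioc] at hq'
    have h3 : N₀ ≤ D / q := by
      rw [Nat.le_div_iff_mul_le (by omega)]
      have : N₀ * q ≤ Q * (N₀ + 1) := by
        rw [mul_comm]
        exact Nat.mul_le_mul hq'.1.2 (Nat.le_succ _)
      omega
    have h5 := hN₀ _ h3
    rw [abs_le]
    constructor <;> linarith [h5.1, h5.2]
  have h3 := Block_sq q₁ D Q Y hH S b _ h1 h2
  have h5 : (Q : ℝ) ^ 2 ≤ H := by exact_mod_cast hH2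
  have h6 : 0 ≤ ∑ q ∈ Cop q₁ 1 Q, (cc S b q : ℝ) / q := sum_nonneg fun q _ => by positivity
  generalize ∑ q ∈ Cop q₁ 1 Q, (cc S b q : ℝ) / q = S₁ at *
  calc _ ≤ _ := h3
    _ ≤ 24 * (2 * H + H) * ((2 * A) ^ 2 * S₁) := by gcongr
    _ = _ := by ring

theorem Block_e2 {ι : Type} {q₁ D H J : ℕ} (Q Y : ℕ) {K : ℝ} (hK : ∀ N, |Aco q₁ N| ≤ K)
    (hH : 1 ≤ H) (hJ : 1 ≤ J) (hD3 : D ^ 2 ≤ q₁ * J ^ 2 * H) (hD4 : D ≤ H)
    (S : Finset ι) (b : ι → ℤ) :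
    ∑ t ∈ Ioc Y (Y + H), ‖Block_E q₁ D S b (Cop q₁ Q D) t‖ ^ 2 ≤
      24 * (2 + q₁) * J ^ 2 * H * K ^ 2 * ∑ q ∈ Cop q₁ Q H, (cc S b q : ℝ) / q := by
  have h1 : Cop q₁ Q D ⊆ Cop q₁ 0 D :=
    filter_subset_filter _ (Ioc_subset_Ioc_left (by omega))
  have h2 : Cop q₁ Q D ⊆ Cop q₁ Q H :=
    filter_subset_filter _ (Ioc_subset_Ioc_right hD4)
  have h3 := Block_sq q₁ D D Y hH S b _ h1 fun q _ => hK (D / q)
  have h5 : (D : ℝ) ^ 2 ≤ q₁ * J ^ 2 * H := by exact_mod_cast hD3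
  have h6 : ∑ q ∈ Cop q₁ Q D, (cc S b q : ℝ) / q ≤ ∑ q ∈ Cop q₁ Q H, (cc S b q : ℝ) / q :=
    sum_le_sum_of_subset_of_nonneg h2 fun q _ _ => by positivity
  have h7 : (H : ℝ) ≤ J ^ 2 * H := by
    have : (1 : ℝ) ≤ J := by exact_mod_cast hJ
    exact le_mul_of_one_le_left (Nat.cast_nonneg _) (one_le_pow₀ this)
  have h8 : 0 ≤ ∑ q ∈ Cop q₁ Q D, (cc S b q : ℝ) / q := sum_nonneg fun q _ => by positivity
  generalize ∑ q ∈ Cop q₁ Q H, (cc S b q : ℝ) / q = S₂ at *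
  generalize ∑ q ∈ Cop q₁ Q D, (cc S b q : ℝ) / q = S₃ at *
  calc _ ≤ _ := h3
    _ ≤ 24 * (2 * (J ^ 2 * H) + q₁ * J ^ 2 * H) * (K ^ 2 * S₂) := by gcongr
    _ = _ := by ring

theorem Block_e3 {q₁ D H J : ℕ} (hJ : 1 ≤ J) (hD : 0 < D) (hD8 : 3 * (J * H) ≤ 4 * D ^ 2) :
    ((q₁ + 4) * H / D : ℝ) * (2 * H / D) ≤ 3 * (q₁ + 4) * H / J := by
  have hJr : (0 : ℝ) < J := by exact_mod_cast hJ
  have hDr : (0 : ℝ) < D := by exact_mod_cast hD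
  have h2 : (3 : ℝ) * (J * H) ≤ 4 * D ^ 2 := by exact_mod_cast hD8
  rw [div_mul_div_comm, div_le_div_iff₀ (by positivity) hJr]
  have h5 : (0 : ℝ) ≤ (D : ℝ) ^ 2 := by positivity
  have h6 : (2 : ℝ) * (J * H) ≤ 3 * D ^ 2 := by linarith
  calc ((q₁ : ℝ) + 4) * H * (2 * H) * J = (q₁ + 4) * H * (2 * (J * H)) := by ring
    _ ≤ (q₁ + 4) * H * (3 * D ^ 2) := by gcongr
    _ = _ := by ring

theorem Block_fin {A L K S₁ S₂ H J q x y w : ℝ} (hA : 0 < A) (hL : 0 < L) (hJ : 0 < J)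
    (hH : 0 ≤ H) (hq : 0 ≤ q) (h1 : 0 ≤ S₁) (h2 : 0 ≤ S₂) (e1 : x ≤ 288 * H * A ^ 2 * S₁)
    (e2 : y ≤ 24 * (2 + q) * J ^ 2 * H * K ^ 2 * S₂) (e3 : w ≤ L * (3 * (q + 4) * H / J)) :
    36 / (A * L) ^ 2 * x + 36 / (A * L) ^ 2 * y + 3 / (A * L) * w ≤
      H * (11000 * S₁ / L ^ 2 +
        (864 * (2 + q) * K ^ 2 / A ^ 2 + 9 * (q + 4) / A) * J ^ 2 * S₂ / L ^ 2 +
          (864 * (2 + q) * K ^ 2 / A ^ 2 + 9 * (q + 4) / A) / J) := by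
  have h3 : 0 ≤ 864 * (2 + q) * K ^ 2 / A ^ 2 := by positivity
  have h4 : 0 ≤ 9 * (q + 4) / A := by positivity
  calc _ ≤ 36 / (A * L) ^ 2 * (288 * H * A ^ 2 * S₁) +
        36 / (A * L) ^ 2 * (24 * (2 + q) * J ^ 2 * H * K ^ 2 * S₂) +
          3 / (A * L) * (L * (3 * (q + 4) * H / J)) := by gcongr
    _ = H * (10368 * S₁ / L ^ 2 + (864 * (2 + q) * K ^ 2 / A ^ 2) * J ^ 2 * S₂ / L ^ 2 +
          (9 * (q + 4) / A) / J) := by
        field_simp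
        ring
    _ ≤ _ := by
        gcongr
        · norm_num
        · linarith
        · linarith

theorem Block_D {q₁ J Q N H Y : ℕ} (hq4 : 4 ≤ q₁) (hJ : 1 ≤ J) (hQ : 1 ≤ Q) (hH1 : q₁ * J ^ 2 ≤ H)
    (hH3 : (Q * (N + 1)) ^ 2 ≤ H) (hY1 : J * H ≤ Y) (hY2 : Y ≤ J ^ 2 * H) :
    ∃ D : ℕ, D ^ 2 + H < q₁ * (Y + 1) ∧ q₁ * Y - H < (D + 1) ^ 2 ∧ D ^ 2 ≤ q₁ * J ^ 2 * H ∧ D ≤ H ∧
      Q * (N + 1) ≤ D ∧ Q ≤ D ∧ N ≤ D ∧ 3 * (J * H) ≤ 4 * D ^ 2 ∧ H ≤ q₁ * Y := by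
  obtain ⟨D, hD⟩ : ∃ D, D = Nat.sqrt (q₁ * Y - H) := ⟨_, rfl⟩
  have hHJ : H ≤ J * H := Nat.le_mul_of_pos_left _ hJ
  have hY3 : 4 * (J * H) ≤ q₁ * Y := Nat.mul_le_mul hq4 hY1
  have hD1 : D ^ 2 ≤ q₁ * Y - H := hD ▸ Nat.sqrt_le' _
  have hD2 : q₁ * Y - H < (D + 1) ^ 2 := hD ▸ Nat.lt_succ_sqrt' _
  have hD3 : D ^ 2 ≤ q₁ * J ^ 2 * H := by
    have : q₁ * Y ≤ q₁ * (J ^ 2 * H) := Nat.mul_le_mul_left _ hY2
    rw [mul_assoc]
    omega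
  have hD4 : D ≤ H := by
    have : q₁ * J ^ 2 * H ≤ H * H := Nat.mul_le_mul_right _ hH1
    have h1 : D ^ 2 ≤ H ^ 2 := by rw [sq H]; omega
    exact (Nat.pow_le_pow_iff_left two_ne_zero).1 h1
  have hD5 : Q * (N + 1) ≤ D := by
    rw [hD, Nat.le_sqrt']
    omega
  have hD6 : Q ≤ D := le_trans (Nat.le_mul_of_pos_right _ (Nat.succ_pos _)) hD5
  have hD7 : N + 1 ≤ D := le_trans (Nat.le_mul_of_pos_left _ hQ) hD5
  have hD8 : 3 * (J * H) ≤ 4 * D ^ 2 := by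
    have h1 : (D + 1) ^ 2 ≤ (2 * D) ^ 2 := Nat.pow_le_pow_left (by omega) 2
    have h2 : (2 * D) ^ 2 = 4 * D ^ 2 := by ring
    omega
  refine ⟨D, ?_, hD2, hD3, hD4, hD5, hD6, by omega, hD8, by omega⟩
  rw [mul_add]
  omega

theorem block {q₁ : ℕ} (h4 : 4 ∣ q₁) (hq : 0 < q₁) : ∃ C : ℝ, 0 < C ∧ ∀ J Q : ℕ, 1 ≤ J → 1 ≤ Q →
    ∀ᶠ H : ℕ in atTop, ∀ Y : ℕ, J * H ≤ Y → Y ≤ J ^ 2 * H →
      ∀ (ι : Type) (S : Finset ι) (b : ι → ℤ), S.Nonempty →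
        (∀ s ∈ S, |b s| ≤ H ∧ b s % 4 = 1 ∧ IsCoprime (b s) (q₁ : ℤ)) →
        (((Ioc Y (Y + H)).filter fun t : ℕ => ∀ s ∈ S, rho (q₁ * t + b s).toNat = 0).card : ℝ) ≤
          H * (11000 * (∑ q ∈ Cop q₁ 1 Q, (cc S b q : ℝ) / q) / (S.card : ℝ) ^ 2 +
            C * (J : ℝ) ^ 2 * (∑ q ∈ Cop q₁ Q H, (cc S b q : ℝ) / q) / (S.card : ℝ) ^ 2 +
              C / J) := by
  obtain ⟨A, hA, hlim⟩ := A_lim hq
  obtain ⟨K, hK⟩ : ∃ K : ℝ, ∀ N, |Aco q₁ N| ≤ K := by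
    obtain ⟨K, hK⟩ := hlim.abs.bddAbove_range
    exact ⟨K, fun N => hK ⟨N, rfl⟩⟩
  obtain ⟨N₀, hN₀⟩ : ∃ N₀ : ℕ, ∀ N, N₀ ≤ N → A / 2 ≤ Aco q₁ N ∧ Aco q₁ N ≤ 2 * A := by
    have h1 := hlim.eventually (Icc_mem_nhds (by linarith : A / 2 < A) (by linarith : A < 2 * A))
    exact eventually_atTop.1 h1
  have hq4 : 4 ≤ q₁ := Nat.le_of_dvd hq h4
  refine ⟨864 * (2 + q₁) * K ^ 2 / A ^ 2 + 9 * (q₁ + 4) / A, by positivity, fun J Q hJ hQ => ?_⟩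
  filter_upwards [eventually_ge_atTop (q₁ * J ^ 2), eventually_ge_atTop (Q ^ 2),
    eventually_ge_atTop ((Q * (N₀ + 1)) ^ 2)] with H hH1 hH2 hH3 Y hY1 hY2 ι S b hS hb
  have hH : 1 ≤ H := le_trans (Nat.one_le_pow _ _ hQ) hH2
  obtain ⟨D, hD1, hD2, hD3, hD4, hD5, hD6, hD7, hD8, hD9⟩ := Block_D hq4 hJ hQ hH1 hH3 hY1 hY2
  have hD0 : 0 < D := lt_of_lt_of_le hQ hD6
  have hL : (0 : ℝ) < S.card := by exact_mod_cast hS.card_pos
  have hJr : (0 : ℝ) < J := by exact_mod_cast hJ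
  obtain ⟨W, hW⟩ : ∃ W : ℕ → ℝ, W = fun t : ℕ => ∑ s ∈ S,
      (((Ioc D (q₁ * t + b s).toNat).filter fun e =>
        e ∣ (q₁ * t + b s).toNat ∧ e * D < (q₁ * t + b s).toNat).card : ℝ) := ⟨_, rfl⟩
  have hW0 : ∀ t, 0 ≤ W t := fun t => by
    rw [hW]
    exact sum_nonneg fun s _ => Nat.cast_nonneg _
  have hAL : 0 < A * S.card := mul_pos hA hL
  have e1 := Block_e1 Y hA hN₀ hH hH2 hD5 S b
  have e2 := Block_e2 Q Y hK hH hJ hD3 hD4 S b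
  have e3 : ∑ t ∈ Ioc Y (Y + H), W t ≤ S.card * (3 * (q₁ + 4) * H / J) := by
    rw [hW, sum_comm]
    calc _ ≤ S.card • (3 * (q₁ + 4) * H / J : ℝ) := sum_le_card_nsmul _ _ _ fun s hs =>
          (Block_W (hb s hs).2.2 (hb s hs).1 hD0 hD4 hD9 hD2).trans (Block_e3 hJ hD0 hD8)
      _ = _ := nsmul_eq_mul _ _
  obtain ⟨F, hF⟩ : ∃ F : ℕ → ℝ, F = fun t : ℕ =>
      36 / (A * S.card) ^ 2 * ‖Block_E q₁ D S b (Cop q₁ 1 Q) t‖ ^ 2 +
        36 / (A * S.card) ^ 2 * ‖Block_E q₁ D S b (Cop q₁ Q D) t‖ ^ 2 + 3 / (A * S.card) * W t :=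
    ⟨_, rfl⟩
  have hF0 : ∀ t, 0 ≤ F t := fun t => by
    have := hW0 t
    rw [hF]
    positivity
  have e4 : ∀ t ∈ (Ioc Y (Y + H)).filter fun t : ℕ => ∀ s ∈ S, rho (q₁ * t + b s).toNat = 0,
      (1 : ℝ) ≤ F t := by
    intro t ht
    rw [mem_filter, mem_Ioc] at ht
    have h1 : ∀ s ∈ S, ((D ^ 2 : ℕ) : ℤ) < q₁ * t + b s := by
      intro s hs
      have h2 := (abs_le.1 (hb s hs).1).1
      have h3 : q₁ * (Y + 1) ≤ q₁ * t := Nat.mul_le_mul_left _ ht.1.1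
      have h6 : ((D ^ 2 + H : ℕ) : ℤ) < ((q₁ * t : ℕ) : ℤ) := by exact_mod_cast hD1.trans_le h3
      rw [Nat.cast_add, Nat.cast_mul] at h6
      linarith only [h2, h6]
    have h2 := Block_pt h4 hQ hD6 S b (fun s hs => (hb s hs).2) h1 ht.2
    have h5 : A / 2 * S.card ≤ Aco q₁ D * S.card :=
      mul_le_mul_of_nonneg_right (hN₀ _ hD7).1 hL.le
    rw [hF]
    refine Block_ind hAL (hW0 t) ?_
    rw [mul_div_right_comm, hW]
    exact h5.trans h2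
  have e5 : (((Ioc Y (Y + H)).filter fun t : ℕ =>
      ∀ s ∈ S, rho (q₁ * t + b s).toNat = 0).card : ℝ) ≤ ∑ t ∈ Ioc Y (Y + H), F t := by
    have h1 := card_nsmul_le_sum _ _ _ e4
    rw [nsmul_eq_mul, mul_one] at h1
    exact h1.trans (sum_le_sum_of_subset_of_nonneg (filter_subset _ _) fun t _ _ => hF0 t)
  refine e5.trans ?_
  rw [hF, sum_add_distrib, sum_add_distrib, ← mul_sum, ← mul_sum, ← mul_sum]
  exact Block_fin hA hL hJr (Nat.cast_nonneg _) (Nat.cast_nonneg _)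
    (sum_nonneg fun q _ => by positivity) (sum_nonneg fun q _ => by positivity) e1 e2 e3

end Pool.Agent.MP_c903c4_nt
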