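import Mathlib

/-!
Definitions for the local-global theorem for two squares, a power of three and a power of five.
-/

open Finset

noncomputable section

namespace Pool.Agent.MP_c903c4_nt

/-- The non-principal character modulo four. -/
def chi (n : ℕ) : ℤ := ZMod.χ₄ (n : ZMod 4)

/-- One quarter of the number of representations as a sum of two squares. -/
def rho (m : ℕ) : ℤ := ∑ d ∈ m.divisors, chi d

/-- The integers of (a, b] that are coprime to q. -/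
def Cop (q a b : ℕ) : Finset ℕ := (Ioc a b).filter fun e => e.Coprime q

/-- Truncated series of the character over integers coprime to q. -/
def Aco (q N : ℕ) : ℝ := ∑ e ∈ Cop q 0 N, (chi e : ℝ) / e

/-- Reduced residues modulo q. -/
def Red (q : ℕ) : Finset ℕ := (range q).filter fun r => r.Coprime q

/-- The number of collisions modulo q. -/
def cc {ι : Type} (S : Finset ι) (b : ι → ℤ) (q : ℕ) : ℕ :=
  ((S ×ˢ S).filter fun x => (q : ℤ) ∣ b x.1 - b x.2).card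

/-- Representable integers. -/
def Rep (n : ℕ) : Prop := ∃ a b c d : ℕ, n = a ^ 2 + b ^ 2 + 3 ^ c + 5 ^ d

/-- Integers representable modulo q with a large power of three. -/
def Loc (q n : ℕ) : Prop := ∃ a b c d : ℕ, q ≤ c ∧ n ≡ a ^ 2 + b ^ 2 + 3 ^ c + 5 ^ d [MOD q]

/-- The remainder after removing the two powers. -/
def mm (a : ℤ) (c d : ℕ) : ℤ := a - 3 ^ c - 5 ^ d

/-- Separation of the powers of three or of five modulo N along multiples of T. -/
def Sep (N T l : ℕ) : Prop :=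
  ∃ g : ℤ, (g = 3 ∨ g = 5) ∧ ∀ i c : ℕ, 0 < i → i < l → ¬ (N : ℤ) ∣ g ^ c * (g ^ (T * i) - 1)

/-- A good class of exponents for the residue a modulo q₀. -/
def Data (ε : ℝ) (q₀ a : ℕ) : Prop :=
  ∃ (G q₁ T c₀ d₀ : ℕ) (lam : ℕ → ℕ), G * q₁ = q₀ ∧ 4 ∣ q₁ ∧ 0 < T ∧ (∃ u v : ℕ, G = u ^ 2 + v ^ 2) ∧
    (∀ i j : ℕ, ∃ b : ℤ, mm a (c₀ + T * i) (d₀ + T * j) = G * b ∧ b % 4 = 1 ∧ IsCoprime b (q₁ : ℤ)) ∧
    (∀ q : ℕ, 1 < q → q.Coprime q₁ → 1 ≤ lam q ∧ Sep (G * q) T (lam q)) ∧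
    ∀ Q : ℕ, ∑ q ∈ Cop q₁ 1 Q, (1 : ℝ) / (q * lam q) ≤ ε

/-- The largest prime factor of the orders of three and five modulo q (zero if there is none). -/
def Lam (q : ℕ) : ℕ := (orderOf (3 : ZMod q) * orderOf (5 : ZMod q)).primeFactors.sup id

/-- Positive and coprime to fifteen. -/
def Ok (q : ℕ) : Prop := 0 < q ∧ q.Coprime 15

/-- A sum of two squares modulo M. -/
def SS (M m : ℤ) : Prop := ∃ x y : ℤ, M ∣ m - (x ^ 2 + y ^ 2)

/-- The final local state at the prime p: valuation v, modulus exponent k, stable modulo p ^ μ;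
primes up to L are small. -/
def Fin' (L p k μ v : ℕ) (m : ℤ) : Prop :=
  v ≤ k ∧ v ≤ μ ∧ (p : ℤ) ^ v ∣ m ∧ (v < k → v < μ ∧ ¬ (p : ℤ) ^ (v + 1) ∣ m) ∧
    (p % 4 = 3 → Even v) ∧ (p = 2 → v + 2 ≤ k ∧ v + 2 ≤ μ ∧ (2 : ℤ) ^ (v + 2) ∣ m - 2 ^ v) ∧
    (p ≤ L → v < k)

end Pool.Agent.MP_c903c4_nt
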