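import Pool.Agent.MP_c903c4_nt.Rho
import Pool.Agent.MP_2a1f0e_nt.Variance

/-!
Fourier expansion over reduced fractions, the large sieve and Parseval.
-/

open Finset Filter Topology
open scoped Classical

noncomputable section

namespace Pool.Agent.MP_c903c4_nt

open Pool.Agent.MP_2a1f0e_nt (ex)

theorem Four_memCop {q a b e : ℕ} : e ∈ Cop q a b ↔ (a < e ∧ e ≤ b) ∧ e.Coprime q := by
  simp only [Cop, mem_filter, mem_Ioc]

theorem Four_memRed {q r : ℕ} : r ∈ Red q ↔ r < q ∧ r.Coprime q := by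
  simp only [Red, mem_filter, mem_range]

theorem Four_red {d : ℕ} (hd : 0 < d) (f : ℝ → ℂ) :
    ∑ k ∈ range d, f ((k : ℝ) / d) = ∑ q ∈ d.divisors, ∑ r ∈ Red q, f ((r : ℝ) / q) := by
  rw [sum_sigma']
  symm
  refine sum_nbij' (fun p => p.2 * (d / p.1)) (fun k => ⟨d / Nat.gcd k d, k / Nat.gcd k d⟩)
    ?_ ?_ ?_ ?_ ?_
  · rintro ⟨q, r⟩ hp
    simp only [mem_sigma, Nat.mem_divisors, Four_memRed] at hp
    obtain ⟨⟨⟨e, rfl⟩, -⟩, h2, -⟩ := hp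
    have hq : 0 < q := Nat.pos_of_mul_pos_right hd
    have he : 0 < e := Nat.pos_of_mul_pos_left hd
    simp only [mem_range, Nat.mul_div_cancel_left e hq]
    exact Nat.mul_lt_mul_of_pos_right h2 he
  · intro k hk
    rw [mem_range] at hk
    have hg : 0 < Nat.gcd k d := Nat.gcd_pos_of_pos_right _ hd
    simp only [mem_sigma, Nat.mem_divisors, Four_memRed]
    exact ⟨⟨Nat.div_dvd_of_dvd (Nat.gcd_dvd_right _ _), hd.ne'⟩,
      Nat.div_lt_div_of_lt_of_dvd (Nat.gcd_dvd_right _ _) hk, Nat.coprime_div_gcd_div_gcd hg⟩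
  · rintro ⟨q, r⟩ hp
    simp only [mem_sigma, Nat.mem_divisors, Four_memRed] at hp
    obtain ⟨⟨⟨e, rfl⟩, -⟩, h2, h3⟩ := hp
    have hq : 0 < q := Nat.pos_of_mul_pos_right hd
    have he : 0 < e := Nat.pos_of_mul_pos_left hd
    simp only [Nat.mul_div_cancel_left e hq, Nat.gcd_mul_right, Nat.Coprime.gcd_eq_one h3, one_mul,
      Nat.mul_div_cancel _ he]
  · intro k hk
    simp only
    rw [Nat.div_div_self (Nat.gcd_dvd_right _ _) hd.ne', Nat.div_mul_cancel (Nat.gcd_dvd_left _ _)]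
  · rintro ⟨q, r⟩ hp
    simp only [mem_sigma, Nat.mem_divisors, Four_memRed] at hp
    obtain ⟨⟨⟨e, rfl⟩, -⟩, h2, h3⟩ := hp
    have hq : 0 < q := Nat.pos_of_mul_pos_right hd
    have he : 0 < e := Nat.pos_of_mul_pos_left hd
    simp only [Nat.mul_div_cancel_left e hq]
    congr 1
    push_cast
    rw [mul_div_mul_right _ _ (by positivity)]

theorem Four_swap (q₁ D : ℕ) (g : ℕ → ℕ → ℂ) :
    ∑ d ∈ Cop q₁ 0 D, ∑ q ∈ d.divisors, g d q =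
      ∑ q ∈ Cop q₁ 0 D, ∑ e ∈ Cop q₁ 0 (D / q), g (q * e) q := by
  rw [sum_sigma', sum_sigma']
  refine sum_nbij' (fun p => ⟨p.2, p.1 / p.2⟩) (fun p => ⟨p.1 * p.2, p.1⟩) ?_ ?_ ?_ ?_ ?_
  · rintro ⟨d, q⟩ hp
    simp only [mem_sigma, Nat.mem_divisors, Four_memCop] at hp ⊢
    obtain ⟨⟨⟨h1, h2⟩, h3⟩, ⟨e, rfl⟩, -⟩ := hp
    have hq : 0 < q := Nat.pos_of_mul_pos_right h1
    have he : 0 < e := Nat.pos_of_mul_pos_left h1
    rw [Nat.mul_div_cancel_left e hq, Nat.le_div_iff_mul_le hq, mul_comm e q]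
    exact ⟨⟨⟨hq, (Nat.le_mul_of_pos_right q he).trans h2⟩, Nat.Coprime.coprime_mul_right h3⟩,
      ⟨he, h2⟩, Nat.Coprime.coprime_mul_left h3⟩
  · rintro ⟨q, e⟩ hp
    simp only [mem_sigma, Nat.mem_divisors, Four_memCop] at hp ⊢
    obtain ⟨⟨⟨h1, -⟩, h3⟩, ⟨h4, h5⟩, h6⟩ := hp
    rw [Nat.le_div_iff_mul_le h1, mul_comm] at h5
    exact ⟨⟨⟨by positivity, h5⟩, Nat.Coprime.mul_left h3 h6⟩, dvd_mul_right _ _, by positivity⟩
  · rintro ⟨d, q⟩ hp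
    simp only [mem_sigma, Nat.mem_divisors] at hp
    simp only [Nat.mul_div_cancel' hp.2.1]
  · rintro ⟨q, e⟩ hp
    simp only [mem_sigma, Four_memCop] at hp
    simp only [Nat.mul_div_cancel_left e hp.1.1.1]
  · rintro ⟨d, q⟩ hp
    simp only [mem_sigma, Nat.mem_divisors] at hp
    simp only [Nat.mul_div_cancel' hp.2.1]

theorem fourier (q₁ D : ℕ) (m : ℤ) :
    ((∑ d ∈ (Cop q₁ 0 D).filter (fun d : ℕ => (d : ℤ) ∣ m), chi d : ℤ) : ℂ) =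
      ∑ q ∈ Cop q₁ 0 D, (((chi q : ℝ) / q * Aco q₁ (D / q) : ℝ) : ℂ) *
        ∑ r ∈ Red q, ex ((r : ℝ) * m / q) := by
  have h1 : ((∑ d ∈ (Cop q₁ 0 D).filter (fun d : ℕ => (d : ℤ) ∣ m), chi d : ℤ) : ℂ) =
      ∑ d ∈ Cop q₁ 0 D, ∑ q ∈ d.divisors,
        (chi d : ℂ) / d * ∑ r ∈ Red q, ex ((r : ℝ) * m / q) := by
    rw [sum_filter, Int.cast_sum]
    refine sum_congr rfl fun d hd => ?_
    have hd0 : 0 < d := (Four_memCop.1 hd).1.1
    have e1 := Four_red hd0 fun x => ex (x * m)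
    have e2 := Pool.Agent.MP_2a1f0e_nt.gs_div d hd0 m
    unfold Pool.Agent.MP_2a1f0e_nt.gs at e2
    simp only [div_mul_eq_mul_div] at e1
    simp only [← mul_div_assoc] at e2
    rw [← mul_sum, ← e1, e2]
    have : (d : ℂ) ≠ 0 := by exact_mod_cast hd0.ne'
    split_ifs
    · field_simp
    · simp
  rw [h1, Four_swap]
  refine sum_congr rfl fun q _ => ?_
  rw [← sum_mul]
  congr 1
  rw [Aco, mul_sum, Complex.ofReal_sum]
  refine sum_congr rfl fun e _ => ?_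
  rw [chi_mul]
  push_cast
  ring

theorem Four_idx {ι : Type} (s : Finset ι) (φ : ι → ℝ) (w : ι → ℂ) {Q : ℝ} (hQ : 0 < Q)
    (h01 : ∀ i ∈ s, 0 ≤ φ i ∧ φ i ≤ 1)
    (hsep : ∀ i ∈ s, ∀ j ∈ s, i ≠ j → 1 ≤ |Q * φ i - Q * φ j|) {Y : ℕ} (hY : 1 ≤ Y) :
    ∑ x ∈ Icc 1 Y, ‖∑ i ∈ s, w i * ex (x * φ i)‖ ^ 2 ≤ 24 * (2 * Y + Q) * ∑ i ∈ s, ‖w i‖ ^ 2 := by
  have hinj : Set.InjOn φ s := fun i hi j hj h => by
    by_contra hne
    have := hsep i hi j hj hne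
    rw [h, sub_self, abs_zero] at this
    linarith
  have hc : ∀ i ∈ s, ∑ j ∈ s.filter (fun j => φ j = φ i), w j = w i := fun i hi => by
    refine sum_eq_single_of_mem i (mem_filter.2 ⟨hi, rfl⟩) fun j hj hne => ?_
    exact absurd (hinj (mem_filter.1 hj).1 hi (mem_filter.1 hj).2) hne
  have h := Pool.Agent.MP_2a1f0e_nt.large_sieve (s.image φ)
    (fun ρ => ∑ j ∈ s.filter (fun j => φ j = ρ), w j) hQ
    (fun ρ hρ => by
      obtain ⟨i, hi, rfl⟩ := mem_image.1 hρ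
      exact h01 i hi)
    (fun ρ hρ ρ' hρ' hne => by
      obtain ⟨i, hi, rfl⟩ := mem_image.1 hρ
      obtain ⟨j, hj, rfl⟩ := mem_image.1 hρ'
      exact hsep i hi j hj fun h => hne (by rw [h])) hY
  simp only [sum_image hinj] at h
  rw [sum_congr rfl fun i hi => congrArg (fun z : ℂ => ‖z‖ ^ 2) (hc i hi)] at h
  refine le_trans (le_of_eq (sum_congr rfl fun x _ => ?_)) h
  rw [sum_congr rfl fun i hi => congrArg (fun z : ℂ => z * ex (x * φ i)) (hc i hi)]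

theorem Four_ne {q₁ q q' r r' : ℕ} {k : ℤ} (h1 : q.Coprime q₁) (h1' : q'.Coprime q₁)
    (h2 : r ∈ Red q) (h2' : r' ∈ Red q')
    (h : (r : ℤ) * q₁ * q' - r' * q₁ * q - k * (q * q') = 0) : q = q' ∧ r = r' := by
  rw [Four_memRed] at h2 h2'
  have d1 : q ∣ q' := by
    refine (Nat.Coprime.mul_right h2.2.symm h1).dvd_of_dvd_mul_left ?_
    rw [← Int.natCast_dvd_natCast]
    exact ⟨r' * q₁ + k * q', by push_cast; linear_combination h⟩
  have d2 : q' ∣ q := by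
    refine (Nat.Coprime.mul_right h2'.2.symm h1').dvd_of_dvd_mul_left ?_
    rw [← Int.natCast_dvd_natCast]
    exact ⟨r * q₁ - k * q, by push_cast; linear_combination -h⟩
  obtain rfl := Nat.dvd_antisymm d1 d2
  refine ⟨rfl, ?_⟩
  have hq : (q : ℤ) ≠ 0 := by
    have := h2.1
    omega
  have d3 : (q : ℤ) ∣ q₁ * (r' - r) :=
    ⟨-k, mul_left_cancel₀ hq (by linear_combination -h)⟩
  have d4 : r ≡ r' [MOD q] :=
    (Nat.modEq_iff_dvd).2 ((Nat.isCoprime_iff_coprime.2 h1).dvd_of_dvd_mul_left d3)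
  exact Nat.ModEq.eq_of_lt_of_lt d4 h2.1 h2'.1

theorem ls (q₁ Q Y H : ℕ) (hH : 1 ≤ H) (B : Finset ℕ) (hB : B ⊆ Cop q₁ 0 Q) (u : ℕ → ℕ → ℂ) :
    ∑ t ∈ Ioc Y (Y + H), ‖∑ q ∈ B, ∑ r ∈ Red q, u q r * ex ((r : ℝ) * (q₁ * t) / q)‖ ^ 2 ≤
      24 * (2 * H + (Q : ℝ) ^ 2) * ∑ q ∈ B, ∑ r ∈ Red q, ‖u q r‖ ^ 2 := by
  rcases B.eq_empty_or_nonempty with rfl | ⟨q₀, hq₀⟩
  · simp
  have hQ : 0 < Q := by
    have := (Four_memCop.1 (hB hq₀)).1
    omega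
  have h := Four_idx (B.sigma Red) (fun p => Int.fract ((p.2 : ℝ) * q₁ / p.1))
    (fun p => u p.1 p.2 * ex (Y * Int.fract ((p.2 : ℝ) * q₁ / p.1))) (Q := (Q : ℝ) ^ 2)
    (by positivity) (fun p _ => ⟨Int.fract_nonneg _, (Int.fract_lt_one _).le⟩) ?_ hH
  · simp only [norm_mul, Pool.Agent.MP_2a1f0e_nt.norm_ex, mul_one, sum_sigma] at h
    refine le_trans (le_of_eq ?_) h
    symm
    refine sum_nbij' (fun x => Y + x) (fun t => t - Y) ?_ ?_ ?_ ?_ ?_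
    · intro x hx
      simp only [mem_Icc, mem_Ioc] at hx ⊢
      omega
    · intro x hx
      simp only [mem_Icc, mem_Ioc] at hx ⊢
      omega
    · intro x _
      simp
    · intro x hx
      simp only [mem_Ioc] at hx ⊢
      omega
    · intro x _
      congr 2
      refine sum_congr rfl fun q _ => sum_congr rfl fun r _ => ?_
      rw [mul_assoc, ← Pool.Agent.MP_2a1f0e_nt.ex_add]
      congr 1
      have e : (r : ℝ) * (q₁ * ((Y + x : ℕ) : ℝ)) / q =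
          (Y * Int.fract ((r : ℝ) * q₁ / q) + x * Int.fract ((r : ℝ) * q₁ / q)) +
            (((Y + x : ℕ) * ⌊(r : ℝ) * q₁ / q⌋ : ℤ) : ℝ) := by
        unfold Int.fract
        push_cast
        ring
      rw [e, Pool.Agent.MP_2a1f0e_nt.ex_add _ (Int.cast _), Pool.Agent.MP_2a1f0e_nt.ex_int, mul_one]
  · rintro ⟨q, r⟩ hp ⟨q', r'⟩ hp' hne
    rw [mem_sigma] at hp hp'
    obtain ⟨⟨a1, a2⟩, a3⟩ := Four_memCop.1 (hB hp.1)
    obtain ⟨⟨b1, b2⟩, b3⟩ := Four_memCop.1 (hB hp'.1)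
    simp only at a1 a2 a3 b1 b2 b3 hp hp' ⊢
    set k : ℤ := ⌊(r : ℝ) * q₁ / q⌋ - ⌊(r' : ℝ) * q₁ / q'⌋ with hk
    have hN : (r : ℤ) * q₁ * q' - r' * q₁ * q - k * (q * q') ≠ 0 := fun h0 => by
      obtain ⟨rfl, rfl⟩ := Four_ne a3 b3 hp.2 hp'.2 h0
      exact hne rfl
    have hN1 : (1 : ℝ) ≤ |(((r : ℤ) * q₁ * q' - r' * q₁ * q - k * (q * q') : ℤ) : ℝ)| := by
      exact_mod_cast Int.one_le_abs hN
    have c1 : (0 : ℝ) < q := by exact_mod_cast a1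
    have c2 : (0 : ℝ) < q' := by exact_mod_cast b1
    have c3 : (q : ℝ) ≤ Q := by exact_mod_cast a2
    have c4 : (q' : ℝ) ≤ Q := by exact_mod_cast b2
    have e : (Q : ℝ) ^ 2 * Int.fract ((r : ℝ) * q₁ / q) - (Q : ℝ) ^ 2 * Int.fract ((r' : ℝ) * q₁ / q') =
        (Q : ℝ) ^ 2 / (q * q') * (((r : ℤ) * q₁ * q' - r' * q₁ * q - k * (q * q') : ℤ) : ℝ) := by
      unfold Int.fract
      rw [hk]
      push_cast
      field_simp
      ring
    rw [e, abs_mul, abs_of_pos (by positivity : (0 : ℝ) < (Q : ℝ) ^ 2 / (q * q'))]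
    refine one_le_mul_of_one_le_of_one_le ?_ hN1
    rw [one_le_div (by positivity), sq]
    exact mul_le_mul c3 c4 c2.le (c1.le.trans c3)

theorem parseval {ι : Type} (S : Finset ι) (b : ι → ℤ) {q : ℕ} (hq : 0 < q) :
    ∑ r ∈ Red q, ‖∑ s ∈ S, ex ((r : ℝ) * b s / q)‖ ^ 2 ≤ q * (cc S b q : ℝ) := by
  refine (sum_le_sum_of_subset_of_nonneg (filter_subset _ (range q))
    fun _ _ _ => by positivity).trans (le_of_eq ?_)
  rw [← Complex.ofReal_inj, Complex.ofReal_sum]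
  have h1 : ∀ r ∈ range q, ((‖∑ s ∈ S, ex ((r : ℝ) * b s / q)‖ ^ 2 : ℝ) : ℂ) =
      ∑ x ∈ S ×ˢ S, ex (r * (((b x.1 - b x.2 : ℤ) : ℝ) / q)) := fun r _ => by
    have := Pool.Agent.MP_2a1f0e_nt.normsq_sum S (fun _ => 1) fun s => (r : ℝ) * b s / q
    simp only [one_mul, map_one] at this
    rw [this, sum_product]
    refine sum_congr rfl fun s _ => sum_congr rfl fun t _ => ?_
    congr 1
    push_cast
    ring
  rw [sum_congr rfl h1, sum_comm]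
  have h2 : ∀ x ∈ S ×ˢ S, ∑ r ∈ range q, ex (r * (((b x.1 - b x.2 : ℤ) : ℝ) / q)) =
      if (q : ℤ) ∣ b x.1 - b x.2 then (q : ℂ) else 0 := fun x _ =>
    Pool.Agent.MP_2a1f0e_nt.gs_div q hq _
  rw [sum_congr rfl h2, ← sum_filter, sum_const, cc, nsmul_eq_mul]
  push_cast
  ring

end Pool.Agent.MP_c903c4_nt
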