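import Pool.Agent.MP_c903c4_nt.Arith

/-!
Tails of the Romanov type series.
-/

open Finset Filter Topology
open scoped Classical

noncomputable section

namespace Pool.Agent.MP_c903c4_nt

lemma tail_ranges {C : ℝ} (hC : ∀ Z : ℕ, 1 ≤ Z → ∀ A : Finset ℕ, (∀ q ∈ A, Ok q ∧ Lam q ≤ Z) →
    ∑ q ∈ A, (1 : ℝ) / q ≤ C * Real.sqrt Z) {L : ℕ} (hL : 1 ≤ L) (k : ℕ) :
    ∀ A : Finset ℕ, (∀ q ∈ A, Ok q ∧ L < Lam q ∧ Lam q ≤ L * 4 ^ k) →
      ∑ q ∈ A, (1 : ℝ) / (q * Lam q) ≤ 4 * C / Real.sqrt L * (1 - 1 / 2 ^ k) := by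
  induction k with
  | zero =>
    intro A hA
    have : A = ∅ := eq_empty_of_forall_notMem fun q hq => by
      have := hA q hq
      omega
    simp [this]
  | succ k ih =>
    intro A hA
    have hL0 : (0 : ℝ) < L := by exact_mod_cast hL
    have hs : 0 < Real.sqrt L := Real.sqrt_pos.2 hL0
    have hss : Real.sqrt L * Real.sqrt L = L := Real.mul_self_sqrt hL0.le
    have h1 := ih (A.filter fun q => Lam q ≤ L * 4 ^ k) fun q hq => by
      rw [mem_filter] at hq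
      exact ⟨(hA q hq.1).1, (hA q hq.1).2.1, hq.2⟩
    have h2 := hC (L * 4 ^ (k + 1)) (Nat.mul_pos hL (by positivity))
      (A.filter fun q => ¬ Lam q ≤ L * 4 ^ k) fun q hq =>
        ⟨(hA q (mem_filter.1 hq).1).1, (hA q (mem_filter.1 hq).1).2.2⟩
    have h3 : Real.sqrt ((L * 4 ^ (k + 1) : ℕ) : ℝ) = Real.sqrt L * 2 ^ (k + 1) := by
      push_cast
      rw [Real.sqrt_mul hL0.le, show (4 : ℝ) ^ (k + 1) = (2 ^ (k + 1)) ^ 2 by
        rw [← pow_mul, mul_comm, pow_mul]; norm_num, Real.sqrt_sq (by positivity)]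
    have h4 : ∑ q ∈ A.filter (fun q => ¬ Lam q ≤ L * 4 ^ k), (1 : ℝ) / (q * Lam q) ≤
        (∑ q ∈ A.filter (fun q => ¬ Lam q ≤ L * 4 ^ k), (1 : ℝ) / q) / (L * 4 ^ k) := by
      rw [sum_div]
      refine sum_le_sum fun q hq => ?_
      rw [mem_filter] at hq
      have hq0 : (0 : ℝ) < q := by exact_mod_cast (hA q hq.1).1.1
      have : (L : ℝ) * 4 ^ k ≤ Lam q := by exact_mod_cast (not_le.1 hq.2).le
      rw [div_div]
      exact one_div_le_one_div_of_le (by positivity) (mul_le_mul_of_nonneg_left this hq0.le)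
    have h5 : (∑ q ∈ A.filter (fun q => ¬ Lam q ≤ L * 4 ^ k), (1 : ℝ) / q) / (L * 4 ^ k) ≤
        C * (Real.sqrt L * 2 ^ (k + 1)) / (L * 4 ^ k) :=
      div_le_div_of_nonneg_right (h3 ▸ h2) (by positivity)
    have h6 : C * (Real.sqrt L * 2 ^ (k + 1)) / (L * 4 ^ k) =
        4 * C / Real.sqrt L * (1 / 2 ^ k - 1 / 2 ^ (k + 1)) := by
      have h4' : (4 : ℝ) ^ k = 2 ^ k * 2 ^ k := by rw [← mul_pow]; norm_num
      rw [h4', pow_succ]
      generalize Real.sqrt L = s at hs hss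
      rw [← hss]
      field_simp
      ring
    rw [← sum_filter_add_sum_filter_not A fun q => Lam q ≤ L * 4 ^ k]
    linarith

lemma tail_main {C : ℝ} (hC0 : 0 < C) (hC : ∀ Z : ℕ, 1 ≤ Z → ∀ A : Finset ℕ,
    (∀ q ∈ A, Ok q ∧ Lam q ≤ Z) → ∑ q ∈ A, (1 : ℝ) / q ≤ C * Real.sqrt Z) {L : ℕ} (hL : 1 ≤ L)
    (A : Finset ℕ) (hA : ∀ q ∈ A, Ok q ∧ L < Lam q) :
    ∑ q ∈ A, (1 : ℝ) / (q * Lam q) ≤ 4 * C / Real.sqrt L := by
  refine (tail_ranges hC hL (A.sup Lam) A fun q hq => ⟨(hA q hq).1, (hA q hq).2, ?_⟩).trans ?_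
  · calc Lam q ≤ A.sup Lam := le_sup hq
      _ ≤ 4 ^ A.sup Lam := (Nat.lt_pow_self (by norm_num)).le
      _ ≤ L * 4 ^ A.sup Lam := Nat.le_mul_of_pos_left _ hL
  · exact mul_le_of_le_one_right (by positivity) (sub_le_self _ (by positivity))

lemma tail_summable {P : ℕ → Prop} {c : ℝ}
    (h : ∀ A : Finset ℕ, (∀ q ∈ A, P q) → ∑ q ∈ A, (1 : ℝ) / q ≤ c) :
    Summable fun q : ℕ => if P q then (1 : ℝ) / q else 0 :=
  summable_of_sum_le (fun q => by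
    show (0 : ℝ) ≤ if P q then (1 : ℝ) / q else 0
    split_ifs <;> positivity) fun A => by
      rw [← sum_filter]; exact h _ fun q hq => (mem_filter.1 hq).2

theorem tails {ε : ℝ} (hε : 0 < ε) : ∃ (L y : ℕ) (σ : ℕ → ℝ), 5 ≤ L ∧
    (∀ A : Finset ℕ, (∀ q ∈ A, Ok q ∧ L < Lam q) → ∑ q ∈ A, (1 : ℝ) / (q * Lam q) ≤ ε) ∧
    (∀ A : Finset ℕ, (∀ q ∈ A, Ok q ∧ Lam q ≤ L) → ∑ q ∈ A, (1 : ℝ) / q ≤ ε * L) ∧
    (∀ A : Finset ℕ, (∀ q ∈ A, Ok q ∧ Lam q ≤ L ∧ y < q) → ∑ q ∈ A, (1 : ℝ) / q ≤ ε) ∧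
    (∀ l, 0 ≤ σ l) ∧
    (∀ (l : ℕ) (A : Finset ℕ), (∀ q ∈ A, Ok q ∧ Lam q = l) → ∑ q ∈ A, (1 : ℝ) / q ≤ σ l) ∧
    ∀ B : Finset ℕ, (∀ l ∈ B, L < l) → ∑ l ∈ B, σ l / l ≤ ε ^ 2 := by
  obtain ⟨C, hC0, hC⟩ := hsum
  have hsq : Tendsto (fun L : ℕ => Real.sqrt L) atTop atTop :=
    Real.tendsto_sqrt_atTop.comp tendsto_natCast_atTop_atTop
  obtain ⟨L, hL5, hL1, hL2⟩ := ((eventually_ge_atTop 5).and
    ((hsq.eventually_ge_atTop (4 * C / ε)).and (hsq.eventually_ge_atTop (4 * C / ε ^ 2)))).exists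
  have hL : 1 ≤ L := by omega
  have hL0 : (0 : ℝ) < L := by exact_mod_cast hL
  have hs : 0 < Real.sqrt L := Real.sqrt_pos.2 hL0
  rw [div_le_iff₀ hε] at hL1
  rw [div_le_iff₀ (by positivity)] at hL2
  have e1 : 4 * C / Real.sqrt L ≤ ε := by rw [div_le_iff₀ hs]; linarith
  have e2 : 4 * C / Real.sqrt L ≤ ε ^ 2 := by rw [div_le_iff₀ hs]; linarith
  have hS := tail_summable (P := fun q => Ok q ∧ Lam q ≤ L) (hC L hL)
  obtain ⟨s, hs'⟩ := summable_iff_vanishing_norm.1 hS ε hε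
  have hT : ∀ l, Summable fun q : ℕ => if Ok q ∧ Lam q = l then (1 : ℝ) / q else 0 := fun l => by
    convert tail_summable (P := fun q => Ok q ∧ Lam q = l) (c := C * Real.sqrt (l + 1 : ℕ))
      fun A hA => hC (l + 1) (by omega) A fun q hq => ⟨(hA q hq).1, by rw [(hA q hq).2]; omega⟩
  have hnn : ∀ l q : ℕ, (0 : ℝ) ≤ if Ok q ∧ Lam q = l then (1 : ℝ) / q else 0 := fun l q => by
    split_ifs <;> positivity
  refine ⟨L, s.sup id, fun l => ∑' q : ℕ, if Ok q ∧ Lam q = l then (1 : ℝ) / q else 0, hL5,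
    fun A hA => (tail_main hC0 hC hL A hA).trans e1, fun A hA => (hC L hL A hA).trans ?_,
    fun A hA => ?_, fun l => tsum_nonneg (hnn l), fun l A hA => ?_, fun B hB => ?_⟩
  · have := Real.mul_self_sqrt hL0.le
    nlinarith
  · have h1 := hs' A (disjoint_left.2 fun q hq hq' =>
      absurd (le_sup (f := id) hq') (not_le.2 (hA q hq).2.2))
    refine le_trans (le_of_eq (sum_congr rfl fun q hq => ?_)) ((le_abs_self _).trans h1.le)
    rw [if_pos ⟨(hA q hq).1, (hA q hq).2.1⟩]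
  · refine le_trans (le_of_eq (sum_congr rfl fun q hq => ?_))
      ((hT l).sum_le_tsum A fun q _ => hnn l q)
    rw [if_pos (hA q hq)]
  · refine hasSum_le_of_sum_le (hasSum_sum fun l _ => (hT l).hasSum.div_const (l : ℝ)) fun A => ?_
    refine le_trans (le_of_eq ?_) ((tail_main hC0 hC hL (A.filter fun q => Ok q ∧ Lam q ∈ B)
      fun q hq => ⟨(mem_filter.1 hq).2.1, hB _ (mem_filter.1 hq).2.2⟩).trans e2)
    rw [sum_filter]
    refine sum_congr rfl fun q _ => ?_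
    by_cases hq : Ok q
    · simp only [hq, true_and, ite_div, zero_div, sum_ite_eq, div_div]
    · simp [hq]

end Pool.Agent.MP_c903c4_nt
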