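import Pool.Agent.MP_c903c4_nt.GC3
import Pool.Agent.MP_c903c4_nt.Tail

/-!
Good classes exist for most locally soluble residues.
-/

open Finset Filter Topology
open scoped Classical

noncomputable section

namespace Pool.Agent.MP_c903c4_nt

/-- The separation length for the modulus q. -/
def lamq (L y : ℕ) (F : Finset ℕ) (q : ℕ) : ℕ :=
  if L < Lam q then (if Lam q ∈ F then 1 else Lam q) else if ∃ p ∈ bg L y, p ∣ q then L else 1

variable {L y : ℕ} {F : Finset ℕ}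

lemma sep_one (N T : ℕ) : Sep N T 1 := ⟨3, Or.inl rfl, fun i _ h1 h2 => by omega⟩

lemma sep_lam (hL : 5 ≤ L) (hF : ∀ r ∈ F, r.Prime) {G q : ℕ} (hq : Ok q) (h1 : L < Lam q)
    (h2 : Lam q ∉ F) : Sep (G * q) (TT L y F) (Lam q) := by
  obtain ⟨hp, hd⟩ := Lam_spec (q := q) (by omega)
  have hT : ¬ Lam q ∣ TT L y F := by
    intro h
    rcases (Nat.Prime.dvd_mul hp).1 h with h | h
    · have := OO_smooth hL hp h
      omega
    · exact not_dvd_prods hp (fun l hl => ⟨(mem_sm.1 hl).2, by have := (mem_sm.1 hl).1; omega⟩)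
        (fun l hl => ⟨hF l hl, fun h => h2 (h ▸ hl)⟩) _ h
  have key : ∀ g : ℕ, g.Coprime q → Lam q ∣ orderOf (g : ZMod q) → ∀ i c : ℕ, 0 < i → i < Lam q →
      ¬ ((G * q : ℕ) : ℤ) ∣ (g : ℤ) ^ c * ((g : ℤ) ^ (TT L y F * i) - 1) := by
    intro g hg ho i c hi hil h
    have a1 : (q : ℤ) ∣ (g : ℤ) ^ c * ((g : ℤ) ^ (TT L y F * i) - 1) :=
      Dvd.dvd.trans (by push_cast; exact Dvd.intro_left _ rfl) h
    have a2 : IsCoprime (q : ℤ) ((g : ℤ) ^ c) :=
      (Nat.isCoprime_iff_coprime.2 hg.symm).pow_right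
    have a3 := ho.trans (ord_of_dvd (a2.dvd_of_dvd_mul_left a1))
    rcases (Nat.Prime.dvd_mul hp).1 a3 with h | h
    · exact hT h
    · have := Nat.le_of_dvd hi h
      omega
  rcases (Nat.Prime.dvd_mul hp).1 hd with h | h
  · refine ⟨3, Or.inl rfl, ?_⟩
    exact_mod_cast key 3 (Nat.Coprime.symm (hq.2.of_dvd_right (by norm_num))) (by simpa using h)
  · refine ⟨5, Or.inr rfl, ?_⟩
    exact_mod_cast key 5 (Nat.Coprime.symm (hq.2.of_dvd_right (by norm_num))) (by simpa using h)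

lemma sep_big (hL : 5 ≤ L) (hF : ∀ r ∈ F, r.Prime) {p N : ℕ} (hp : p ∈ bg L y)
    (hN : p ^ (mu L y F p + 1) ∣ N) : Sep N (TT L y F) L := by
  obtain ⟨⟨h1, _⟩, hpp, _⟩ := mem_bg.1 hp
  obtain ⟨g, hg, d2⟩ := ee_exact (y := y) hL hpp
  have d1 := ee_dvd (y := y) hL hpp hg
  have hpg : (p : ℤ) ≠ g := by rcases hg with rfl | rfl <;> omega
  refine ⟨g, hg, fun i c hi hil h => ?_⟩
  have a1 : (p : ℤ) ^ (mu L y F p + 1) ∣ g ^ c * (g ^ (TT L y F * i) - 1) :=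
    Dvd.dvd.trans (by exact_mod_cast hN) h
  have a2 : IsCoprime ((p : ℤ) ^ (mu L y F p + 1)) (g ^ c) :=
    ((Nat.prime_iff_prime_int.1 hpp).irreducible.coprime_iff_not_dvd.2
      (not_dvd_base hpp hg hpg)).pow
  have a3 := a2.dvd_of_dvd_mul_left a1
  have hu := not_dvd_prods hpp (A := sm L) (B := F.erase p)
    (fun l hl => ⟨(mem_sm.1 hl).2, by have := (mem_sm.1 hl).1; omega⟩)
    (fun l hl => ⟨hF l (mem_erase.1 hl).2, (mem_erase.1 hl).1⟩) (kk L y)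
  have hu' : ¬ p ∣ ((∏ l ∈ sm L, l ^ kk L y) * ∏ r ∈ F.erase p, r) * i := by
    intro h
    rcases (Nat.Prime.dvd_mul hpp).1 h with h | h
    · exact hu h
    · have := Nat.le_of_dvd hi h
      omega
  have e : TT L y F * i = OO L y * p ^ (if p ∈ F then 1 else 0) *
      (((∏ l ∈ sm L, l ^ kk L y) * ∏ r ∈ F.erase p, r) * i) := by
    unfold TT
    split_ifs with h
    · rw [← Finset.mul_prod_erase F (fun r => r) h]
      ring
    · rw [Finset.erase_eq_of_notMem h]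
      ring
  refine lte hpp (by omega) (ee_pos hL hp) d1 d2 (if p ∈ F then 1 else 0) _ hu' ?_
  rw [← e]
  rwa [mu, if_neg (by omega)] at a3

lemma gc_sum {q₁ : ℕ} {σ : ℕ → ℝ} {ε : ℝ} (hL : 5 ≤ L) (hs : ∀ l ∈ sm L, l ∣ q₁)
    (t1 : ∀ A : Finset ℕ, (∀ q ∈ A, Ok q ∧ L < Lam q) → ∑ q ∈ A, (1 : ℝ) / (q * Lam q) ≤ ε)
    (t2 : ∀ A : Finset ℕ, (∀ q ∈ A, Ok q ∧ Lam q ≤ L) → ∑ q ∈ A, (1 : ℝ) / q ≤ ε * L)
    (t3 : ∀ A : Finset ℕ, (∀ q ∈ A, Ok q ∧ Lam q ≤ L ∧ y < q) → ∑ q ∈ A, (1 : ℝ) / q ≤ ε)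
    (t5 : ∀ (l : ℕ) (A : Finset ℕ), (∀ q ∈ A, Ok q ∧ Lam q = l) → ∑ q ∈ A, (1 : ℝ) / q ≤ σ l)
    (hF : ∑ p ∈ F, σ p ≤ ε) (hok : ∀ q, 1 < q → q.Coprime q₁ → Ok q) (Q : ℕ) :
    ∑ q ∈ Cop q₁ 1 Q, (1 : ℝ) / (q * lamq L y F q) ≤ 4 * ε := by
  set C := Cop q₁ 1 Q with hC
  have hm : ∀ q ∈ C, 1 < q ∧ q.Coprime q₁ := fun q hq =>
    ⟨(mem_Ioc.1 (mem_filter.1 hq).1).1, (mem_filter.1 hq).2⟩
  have hk : ∀ q ∈ C, Ok q := fun q hq => hok q (hm q hq).1 (hm q hq).2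
  rw [← Finset.sum_filter_add_sum_filter_not C (fun q => L < Lam q),
    ← Finset.sum_filter_add_sum_filter_not (C.filter fun q => L < Lam q) (fun q => Lam q ∈ F),
    ← Finset.sum_filter_add_sum_filter_not (C.filter fun q => ¬ L < Lam q)
      (fun q => ∃ p ∈ bg L y, p ∣ q)]
  have a1 : ∑ q ∈ (C.filter fun q => L < Lam q).filter (fun q => Lam q ∈ F),
      (1 : ℝ) / (q * lamq L y F q) ≤ ε := by
    refine le_trans ?_ hF
    rw [← Finset.sum_fiberwise_of_maps_to (t := F) (g := Lam) fun q hq => (mem_filter.1 hq).2]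
    refine Finset.sum_le_sum fun l _ => le_trans (le_of_eq ?_) (t5 l
      (((C.filter fun q => L < Lam q).filter fun q => Lam q ∈ F).filter fun q => Lam q = l)
      fun q hq => ⟨hk q (mem_filter.1 (mem_filter.1 (mem_filter.1 hq).1).1).1, (mem_filter.1 hq).2⟩)
    refine Finset.sum_congr rfl fun q hq => ?_
    have b1 := (mem_filter.1 (mem_filter.1 hq).1).2
    have b2 := (mem_filter.1 (mem_filter.1 (mem_filter.1 hq).1).1).2
    simp [lamq, b1, b2]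
  have a2 : ∑ q ∈ (C.filter fun q => L < Lam q).filter (fun q => ¬ Lam q ∈ F),
      (1 : ℝ) / (q * lamq L y F q) ≤ ε := by
    refine le_trans (le_of_eq ?_) (t1 ((C.filter fun q => L < Lam q).filter fun q => ¬ Lam q ∈ F)
      fun q hq => ⟨hk q (mem_filter.1 (mem_filter.1 hq).1).1, (mem_filter.1 (mem_filter.1 hq).1).2⟩)
    refine Finset.sum_congr rfl fun q hq => ?_
    have b1 := (mem_filter.1 hq).2
    have b2 := (mem_filter.1 (mem_filter.1 hq).1).2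
    simp [lamq, b1, b2]
  have a3 : ∑ q ∈ (C.filter fun q => ¬ L < Lam q).filter (fun q => ∃ p ∈ bg L y, p ∣ q),
      (1 : ℝ) / (q * lamq L y F q) ≤ ε := by
    have hL0 : (0 : ℝ) < L := by exact_mod_cast (by omega : 0 < L)
    have b0 := t2 ((C.filter fun q => ¬ L < Lam q).filter fun q => ∃ p ∈ bg L y, p ∣ q)
      fun q hq => ⟨hk q (mem_filter.1 (mem_filter.1 hq).1).1,
        not_lt.1 (mem_filter.1 (mem_filter.1 hq).1).2⟩
    rw [← div_le_iff₀ hL0, Finset.sum_div] at b0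
    refine le_trans (le_of_eq ?_) b0
    refine Finset.sum_congr rfl fun q hq => ?_
    have b1 := (mem_filter.1 hq).2
    have b2 := (mem_filter.1 (mem_filter.1 hq).1).2
    simp only [lamq, b1, b2, if_true, if_false, div_div]
  have a4 : ∑ q ∈ (C.filter fun q => ¬ L < Lam q).filter (fun q => ¬ ∃ p ∈ bg L y, p ∣ q),
      (1 : ℝ) / (q * lamq L y F q) ≤ ε := by
    refine le_trans (le_of_eq ?_)
      (t3 ((C.filter fun q => ¬ L < Lam q).filter fun q => ¬ ∃ p ∈ bg L y, p ∣ q) fun q hq => ?_)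
    · refine Finset.sum_congr rfl fun q hq => ?_
      have b1 := (mem_filter.1 hq).2
      have b2 := (mem_filter.1 (mem_filter.1 hq).1).2
      simp only [lamq, b1, b2, if_false, Nat.cast_one, mul_one]
    · have b1 := (mem_filter.1 hq).2
      have b2 := not_lt.1 (mem_filter.1 (mem_filter.1 hq).1).2
      have b3 := (mem_filter.1 (mem_filter.1 hq).1).1
      refine ⟨hk q b3, b2, ?_⟩
      obtain ⟨c1, c2⟩ := hm q b3
      have hp := Nat.minFac_prime (by omega : q ≠ 1)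
      have hd := Nat.minFac_dvd q
      have c3 : L < q.minFac := by
        by_contra hc
        have := Nat.dvd_gcd hd (hs _ (mem_sm.2 ⟨not_lt.1 hc, hp⟩))
        rw [c2] at this
        exact hp.one_lt.ne' (Nat.dvd_one.1 this)
      by_contra hc
      refine b1 ⟨q.minFac, mem_bg.2 ⟨⟨c3, ?_⟩, hp, (Lam_mono (hk q b3) hd).trans b2⟩, hd⟩
      exact (Nat.le_of_dvd (by omega) hd).trans (not_lt.1 hc)
  linarith

theorem gc {ε : ℝ} (hε : 0 < ε) : ∃ (q₀ : ℕ) (Bad : Finset ℕ), 0 < q₀ ∧ (Bad.card : ℝ) ≤ ε * q₀ ∧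
    ∀ a, a < q₀ → a ∉ Bad → Loc q₀ a → Data ε q₀ a := by
  obtain ⟨L, y, σ, hL, t1, t2, t3, t4, t5, t6⟩ := tails (ε := ε / 4) (by positivity)
  refine ⟨q0 L y, (range (q0 L y)).filter fun a => ε / 4 < ∑ p ∈ FF L y a, σ p, q0_pos, ?_, ?_⟩
  · have := bad_card (y := y) hL t4 (by positivity : 0 < ε / 4)
      (t6 _ fun l hl => (mem_bg.1 hl).1.1)
    have h0 : (0 : ℝ) ≤ q0 L y := by positivity
    nlinarith
  intro a ha hbad hloc
  have hσ : ∑ p ∈ FF L y a, σ p ≤ ε / 4 := by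
    by_contra hc
    exact hbad (mem_filter.2 ⟨mem_range.2 ha, not_le.1 hc⟩)
  set F := FF L y a with hFd
  have hFb : ∀ r ∈ F, r ∈ bg L y ∧ r % 4 = 3 ∧ Odd (ee L y r) := fun r hr =>
    ⟨(mem_filter.1 hr).1, (mem_filter.1 hr).2.1, (mem_filter.1 hr).2.2.1⟩
  have hFp : ∀ r ∈ F, r.Prime := fun r hr => (mem_bg.1 (hFb r hr).1).2.1
  obtain ⟨c₀, d₀, hc, hd, hv⟩ := exists_good (F := F) hL (al_of_loc hL hloc)
    fun p => mem_filter
  choose! v hv using hv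
  obtain ⟨g1, g2, g3⟩ := assemble (L := L) (PP L y) (fun p => PP_prime) (two_mem hL) (ff L y)
    (mu L y F) v (fun x : ℕ × ℕ => mm a (c₀ + TT L y F * x.1) (d₀ + TT L y F * x.2))
    fun p hp x => (hv p hp).congr (stab_TT hL hp a x.1 x.2 hc hd)
  set G := ∏ p ∈ PP L y, p ^ v p with hG
  set q₁ := ∏ p ∈ PP L y, p ^ (ff L y p - v p) with hq₁
  have hdv : ∀ p ∈ PP L y, v p < ff L y p → p ∣ q₁ := fun p hp h =>
    (dvd_pow_self p (by omega)).trans
      (Finset.dvd_prod_of_mem (fun p => p ^ (ff L y p - v p)) hp)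
  have hs : ∀ l ∈ sm L, l ∣ q₁ := fun l hl =>
    hdv l (mem_PP.2 (Or.inl hl)) ((hv l (mem_PP.2 (Or.inl hl))).2.2.2.2.2.2 (mem_sm.1 hl).1)
  have hok : ∀ q, 1 < q → q.Coprime q₁ → Ok q := by
    intro q h1 h2
    refine ⟨by omega, ?_⟩
    exact Nat.Coprime.mul_right (h2.of_dvd_right (hs 3 (mem_sm.2 ⟨by omega, Nat.prime_three⟩)))
      (h2.of_dvd_right (hs 5 (mem_sm.2 ⟨by omega, Nat.prime_five⟩)))
  refine ⟨G, q₁, TT L y F, c₀, d₀, lamq L y F, ?_, g1, ?_, g2, fun i j => g3 (i, j), ?_, ?_⟩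
  · rw [hG, hq₁, ← Finset.prod_mul_distrib]
    refine Finset.prod_congr rfl fun p hp => ?_
    rw [← pow_add, Nat.add_sub_cancel' (hv p hp).1]
  · exact Nat.mul_pos (OO_pos hL) (Nat.mul_pos
      (Finset.prod_pos fun l hl => pow_pos (mem_sm.1 hl).2.pos _)
      (Finset.prod_pos fun r hr => (hFp r hr).pos))
  · intro q h1 h2
    unfold lamq
    split_ifs with c1 c2 c3
    · exact ⟨le_rfl, sep_one _ _⟩
    · exact ⟨by omega, sep_lam hL hFp (hok q h1 h2) c1 c2⟩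
    · obtain ⟨p, hp, hpq⟩ := c3
      refine ⟨by omega, sep_big hL hFp hp ?_⟩
      have hPP : p ∈ PP L y := mem_PP.2 (Or.inr hp)
      obtain ⟨⟨b1, _⟩, hpp, _⟩ := mem_bg.1 hp
      have b2 : ¬ v p < ff L y p := fun h => by
        have := Nat.dvd_gcd hpq (hdv p hPP h)
        rw [h2] at this
        exact hpp.one_lt.ne' (Nat.dvd_one.1 this)
      have b3 : mu L y F p ≤ ff L y p := by
        unfold mu ff
        rw [if_neg (by omega), if_neg (by omega : ¬ p ≤ L)]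
        by_cases h : p ∈ F
        · rw [if_pos h, if_pos (hFb p h).2]
        · rw [if_neg h]
          split_ifs <;> omega
      rw [pow_succ]
      exact Nat.mul_dvd_mul ((pow_dvd_pow p (by omega)).trans
        (Finset.dvd_prod_of_mem (fun p => p ^ v p) hPP)) hpq
    · exact ⟨le_rfl, sep_one _ _⟩
  · intro Q
    have := gc_sum hL hs t1 t2 t3 t5 hσ hok Q
    linarith

end Pool.Agent.MP_c903c4_nt
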