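import Pool.Agent.MP_c903c4_nt.Adj

/-!
Parameters for the choice of good classes.
-/

open Finset Filter Topology
open scoped Classical

noncomputable section

namespace Pool.Agent.MP_c903c4_nt

/-- The small primes. -/
def sm (L : ℕ) : Finset ℕ := (range (L + 1)).filter Nat.Prime

/-- The larger primes with smooth orders. -/
def bg (L y : ℕ) : Finset ℕ := (Ioc L y).filter fun p => p.Prime ∧ Lam p ≤ L

/-- The basic exponent. -/
def OO (L y : ℕ) : ℕ :=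
  (∏ p ∈ bg L y, orderOf (3 : ZMod p) * orderOf (5 : ZMod p)) * ∏ l ∈ sm L, l * (l - 1)

/-- The base used at a small prime. -/
def gs (l : ℕ) : ℤ := if l = 5 then 3 else 5

/-- The exponent of the small primes. -/
def kk (L y : ℕ) : ℕ := (sm L).sup (fun l => padicValInt l (gs l ^ OO L y - 1)) + 3

/-- The Wieferich level of a larger prime. -/
def ee (L y p : ℕ) : ℕ := min (padicValInt p (3 ^ OO L y - 1)) (padicValInt p (5 ^ OO L y - 1))

/-- The exponent of a prime in the modulus. -/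
def ff (L y p : ℕ) : ℕ :=
  if p ≤ L then kk L y else if p % 4 = 3 ∧ Odd (ee L y p) then ee L y p + 1 else ee L y p

/-- All primes of the modulus. -/
def PP (L y : ℕ) : Finset ℕ := sm L ∪ bg L y

/-- The modulus. -/
def q0 (L y : ℕ) : ℕ := ∏ p ∈ PP L y, p ^ ff L y p

/-- The part of the modulus that decides the choice of the class. -/
def q1 (L y : ℕ) : ℕ := ∏ p ∈ (PP L y).filter (fun p => p ≤ L ∨ 2 ≤ ee L y p), p ^ ff L y p

/-- The basic period. -/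
def T0 (L y : ℕ) : ℕ := OO L y * ∏ l ∈ sm L, l ^ kk L y

variable {L y : ℕ}

lemma mem_sm {p : ℕ} : p ∈ sm L ↔ p ≤ L ∧ p.Prime := by
  simp [sm]

lemma mem_bg {p : ℕ} : p ∈ bg L y ↔ (L < p ∧ p ≤ y) ∧ p.Prime ∧ Lam p ≤ L := by
  simp [bg]

lemma mem_PP {p : ℕ} : p ∈ PP L y ↔ p ∈ sm L ∨ p ∈ bg L y := by simp [PP]

lemma PP_prime {p : ℕ} (h : p ∈ PP L y) : p.Prime := by
  rcases mem_PP.1 h with h | h
  · exact (mem_sm.1 h).2
  · exact (mem_bg.1 h).2.1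

lemma PP_big {p : ℕ} (h : p ∈ PP L y) (hp : ¬ p ≤ L) : p ∈ bg L y := by
  rcases mem_PP.1 h with h | h
  · exact absurd (mem_sm.1 h).1 hp
  · exact h

lemma PP_small {p : ℕ} (h : p ∈ PP L y) (hp : p ≤ L) : p ∈ sm L :=
  mem_sm.2 ⟨hp, PP_prime h⟩

lemma ord_pos {q g : ℕ} (hq : 0 < q) (h : g.Coprime q) : 0 < orderOf (g : ZMod q) := by
  have : NeZero q := ⟨hq.ne'⟩
  have : IsUnit (g : ZMod q) := (ZMod.isUnit_iff_coprime g q).2 h
  obtain ⟨u, hu⟩ := this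
  rw [← hu, orderOf_units]
  exact orderOf_pos u

lemma Ok.ord3 {q : ℕ} (h : Ok q) : 0 < orderOf (3 : ZMod q) := by
  have := ord_pos (g := 3) h.1 (Nat.Coprime.symm (h.2.of_dvd_right (by norm_num)))
  simpa using this

lemma Ok.ord5 {q : ℕ} (h : Ok q) : 0 < orderOf (5 : ZMod q) := by
  have := ord_pos (g := 5) h.1 (Nat.Coprime.symm (h.2.of_dvd_right (by norm_num)))
  simpa using this

lemma ok_prime {p : ℕ} (hp : p.Prime) (h : 5 < p) : Ok p := by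
  refine ⟨hp.pos, ?_⟩
  have h3 : p.Coprime 3 := (Nat.coprime_primes hp Nat.prime_three).2 (by omega)
  have h5 : p.Coprime 5 := (Nat.coprime_primes hp Nat.prime_five).2 (by omega)
  exact Nat.Coprime.mul_right h3 h5

lemma le_Lam {q l : ℕ} (hq : Ok q) (hl : l.Prime)
    (h : l ∣ orderOf (3 : ZMod q) * orderOf (5 : ZMod q)) : l ≤ Lam q :=
  Finset.le_sup (f := id) (Nat.mem_primeFactors.2 ⟨hl, h, (Nat.mul_pos hq.ord3 hq.ord5).ne'⟩)

lemma Lam_spec {q : ℕ} (h : 0 < Lam q) :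
    (Lam q).Prime ∧ Lam q ∣ orderOf (3 : ZMod q) * orderOf (5 : ZMod q) := by
  have hne : (orderOf (3 : ZMod q) * orderOf (5 : ZMod q)).primeFactors.Nonempty := by
    by_contra hc
    rw [Finset.not_nonempty_iff_eq_empty] at hc
    simp [Lam, hc] at h
  obtain ⟨l, hl, he⟩ := Finset.exists_mem_eq_sup _ hne id
  have : Lam q = l := he
  rw [this]
  exact ⟨Nat.prime_of_mem_primeFactors hl, Nat.dvd_of_mem_primeFactors hl⟩

lemma dvd_of_ord {q g n : ℕ} (h : orderOf (g : ZMod q) ∣ n) : (q : ℤ) ∣ (g : ℤ) ^ n - 1 := by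
  rw [← ZMod.intCast_zmod_eq_zero_iff_dvd]
  push_cast
  rw [orderOf_dvd_iff_pow_eq_one.1 h, sub_self]

lemma ord_of_dvd {q g n : ℕ} (h : (q : ℤ) ∣ (g : ℤ) ^ n - 1) : orderOf (g : ZMod q) ∣ n := by
  rw [← ZMod.intCast_zmod_eq_zero_iff_dvd] at h
  push_cast at h
  exact orderOf_dvd_iff_pow_eq_one.2 (sub_eq_zero.1 h)

lemma Lam_mono {p q : ℕ} (hq : Ok q) (h : p ∣ q) : Lam p ≤ Lam q := by
  rcases Nat.eq_zero_or_pos (Lam p) with h0 | h0
  · omega
  obtain ⟨h1, h2⟩ := Lam_spec h0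
  refine le_Lam hq h1 (h2.trans (Nat.mul_dvd_mul ?_ ?_))
  · have := ord_of_dvd (q := p) (g := 3)
      ((Int.natCast_dvd_natCast.2 h).trans (dvd_of_ord (q := q) (g := 3) dvd_rfl))
    simpa using this
  · have := ord_of_dvd (q := p) (g := 5)
      ((Int.natCast_dvd_natCast.2 h).trans (dvd_of_ord (q := q) (g := 5) dvd_rfl))
    simpa using this

lemma OO_pos (hL : 5 ≤ L) : 0 < OO L y := by
  refine Nat.mul_pos (Finset.prod_pos fun p hp => ?_) (Finset.prod_pos fun l hl => ?_)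
  · obtain ⟨⟨h1, _⟩, h2, _⟩ := mem_bg.1 hp
    have := ok_prime h2 (by omega)
    exact Nat.mul_pos this.ord3 this.ord5
  · have := (mem_sm.1 hl).2.two_le
    exact Nat.mul_pos (by omega) (by omega)

lemma OO_smooth (hL : 5 ≤ L) {l : ℕ} (hl : l.Prime) (h : l ∣ OO L y) : l ≤ L := by
  rcases (Nat.Prime.dvd_mul hl).1 h with h | h
  · obtain ⟨p, hp, h⟩ := (Prime.dvd_finsetProd_iff hl.prime _).1 h
    obtain ⟨⟨h1, _⟩, h2, h3⟩ := mem_bg.1 hp
    exact (le_Lam (ok_prime h2 (by omega)) hl h).trans h3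
  · obtain ⟨p, hp, h⟩ := (Prime.dvd_finsetProd_iff hl.prime _).1 h
    obtain ⟨h1, h2⟩ := mem_sm.1 hp
    have := h2.two_le
    rcases (Nat.Prime.dvd_mul hl).1 h with h | h
    · exact (Nat.le_of_dvd (by omega) h).trans h1
    · have := Nat.le_of_dvd (by omega) h
      omega

lemma pow_sub_one_ne (hL : 5 ≤ L) {g : ℤ} (hg : g = 3 ∨ g = 5) : g ^ OO L y - 1 ≠ 0 := by
  have h1 : 1 < g ^ OO L y := one_lt_pow₀ (by rcases hg with rfl | rfl <;> norm_num) (OO_pos hL).ne'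
  omega

lemma val_dvd_iff {p n : ℕ} (hp : p.Prime) {x : ℤ} (hx : x ≠ 0) :
    (p : ℤ) ^ n ∣ x ↔ n ≤ padicValInt p x := by
  have := Fact.mk hp
  rw [padicValInt_dvd_iff]
  simp [hx]

lemma not_dvd_base {p : ℕ} (hp : p.Prime) {g : ℤ} (hg : g = 3 ∨ g = 5) (h : (p : ℤ) ≠ g) :
    ¬ (p : ℤ) ∣ g := by
  intro hd
  rcases hg with rfl | rfl
  · have : p ∣ 3 := by exact_mod_cast hd
    exact h (by exact_mod_cast (Nat.prime_dvd_prime_iff_eq hp Nat.prime_three).1 this)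
  · have : p ∣ 5 := by exact_mod_cast hd
    exact h (by exact_mod_cast (Nat.prime_dvd_prime_iff_eq hp Nat.prime_five).1 this)

lemma small_sq {l : ℕ} (hl : l ∈ sm L) {g : ℤ} (hg : g = 3 ∨ g = 5) (h : (l : ℤ) ≠ g) :
    (l : ℤ) ^ 2 ∣ g ^ OO L y - 1 := by
  have hp := (mem_sm.1 hl).2
  have hd : l * (l - 1) ∣ OO L y :=
    Dvd.dvd.mul_left (Finset.dvd_prod_of_mem (fun l => l * (l - 1)) hl) _
  have ht : Nat.totient (l ^ 2) = l * (l - 1) := by
    rw [Nat.totient_prime_pow hp (by norm_num)]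
    simp
  have key : ∀ n : ℕ, ¬ (l : ℤ) ∣ (n : ℤ) → (l : ℤ) ^ 2 ∣ (n : ℤ) ^ OO L y - 1 := by
    intro n hn
    have hc : n.Coprime (l ^ 2) :=
      Nat.Coprime.pow_right 2 ((Nat.Prime.coprime_iff_not_dvd hp).2
        (fun h => hn (by exact_mod_cast h))).symm
    have h1 := Nat.ModEq.pow_totient hc
    rw [ht] at h1
    have h2 : ((l ^ 2 : ℕ) : ℤ) ∣ (n : ℤ) ^ (l * (l - 1)) - 1 := by
      have := (Nat.modEq_iff_dvd.1 h1.symm)
      exact_mod_cast this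
    have h3 := dvd_of_ord ((ord_of_dvd h2).trans hd)
    exact_mod_cast h3
  have hn := not_dvd_base hp hg h
  rcases hg with rfl | rfl
  · exact_mod_cast key 3 (by exact_mod_cast hn)
  · exact_mod_cast key 5 (by exact_mod_cast hn)

lemma ee_dvd (hL : 5 ≤ L) {p : ℕ} (hp : p.Prime) {g : ℤ} (hg : g = 3 ∨ g = 5) :
    (p : ℤ) ^ ee L y p ∣ g ^ OO L y - 1 := by
  rw [val_dvd_iff hp (pow_sub_one_ne hL hg)]
  rcases hg with rfl | rfl
  · exact min_le_left _ _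
  · exact min_le_right _ _

lemma ee_exact (hL : 5 ≤ L) {p : ℕ} (hp : p.Prime) :
    ∃ g : ℤ, (g = 3 ∨ g = 5) ∧ ¬ (p : ℤ) ^ (ee L y p + 1) ∣ g ^ OO L y - 1 := by
  rcases le_total (padicValInt p (3 ^ OO L y - 1)) (padicValInt p (5 ^ OO L y - 1)) with h | h
  · refine ⟨3, Or.inl rfl, ?_⟩
    rw [val_dvd_iff hp (pow_sub_one_ne hL (Or.inl rfl)), ee, min_eq_left h]
    omega
  · refine ⟨5, Or.inr rfl, ?_⟩
    rw [val_dvd_iff hp (pow_sub_one_ne hL (Or.inr rfl)), ee, min_eq_right h]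
    omega

lemma ee_pos (hL : 5 ≤ L) {p : ℕ} (hp : p ∈ bg L y) : 1 ≤ ee L y p := by
  have h1 := (mem_bg.1 hp).2.1
  have hd : orderOf (3 : ZMod p) * orderOf (5 : ZMod p) ∣ OO L y :=
    Dvd.dvd.mul_right
      (Finset.dvd_prod_of_mem (fun p => orderOf (3 : ZMod p) * orderOf (5 : ZMod p)) hp) _
  refine le_min ?_ ?_
  · rw [← val_dvd_iff h1 (pow_sub_one_ne hL (Or.inl rfl)), pow_one]
    have := dvd_of_ord (q := p) (g := 3) (n := OO L y)
      (by simpa using (Dvd.intro _ rfl).trans hd)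
    exact_mod_cast this
  · rw [← val_dvd_iff h1 (pow_sub_one_ne hL (Or.inr rfl)), pow_one]
    have := dvd_of_ord (q := p) (g := 5) (n := OO L y)
      (by simpa using (Dvd.intro_left _ rfl).trans hd)
    exact_mod_cast this

lemma ee_le_ff {p : ℕ} (hp : ¬ p ≤ L) : ee L y p ≤ ff L y p := by
  unfold ff
  rw [if_neg hp]
  split_ifs <;> omega

lemma ff_small {p : ℕ} (hp : p ≤ L) : ff L y p = kk L y := if_pos hp

lemma q0_pos : 0 < q0 L y := Finset.prod_pos fun _ hp => pow_pos (PP_prime hp).pos _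

lemma q1_pos : 0 < q1 L y :=
  Finset.prod_pos fun _ hp => pow_pos (PP_prime (mem_filter.1 hp).1).pos _

lemma pow_dvd_q0 {p : ℕ} (hp : p ∈ PP L y) : p ^ ff L y p ∣ q0 L y :=
  Finset.dvd_prod_of_mem (fun p => p ^ ff L y p) hp

lemma pow_dvd_q1 {p : ℕ} (hp : p ∈ PP L y) (h : p ≤ L ∨ 2 ≤ ee L y p) : p ^ ff L y p ∣ q1 L y :=
  Finset.dvd_prod_of_mem (fun p => p ^ ff L y p) (mem_filter.2 ⟨hp, h⟩)

lemma two_mem (hL : 5 ≤ L) : 2 ∈ PP L y := mem_PP.2 (Or.inl (mem_sm.2 ⟨by omega, Nat.prime_two⟩))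

lemma kk_le_q0 (hL : 5 ≤ L) : kk L y ≤ q0 L y := by
  have h1 := Nat.le_of_dvd q0_pos (pow_dvd_q0 (two_mem (y := y) hL))
  rw [ff_small (by omega)] at h1
  exact (Nat.lt_two_pow_self).le.trans h1

/-- Stability of the powers under shifts of the exponent. -/
lemma stab (hL : 5 ≤ L) (F : Finset ℕ) {p : ℕ} (hp : p ∈ PP L y) {g : ℤ} (hg : g = 3 ∨ g = 5)
    {u c : ℕ} (hc : kk L y ≤ c) (h1 : p ≤ L → OO L y * p ^ kk L y ∣ u)
    (h2 : ¬ p ≤ L → OO L y * p ^ (if p ∈ F then 1 else 0) ∣ u) :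
    (p : ℤ) ^ (if p ≤ L then kk L y else ee L y p + if p ∈ F then 1 else 0) ∣
      g ^ (c + u) - g ^ c := by
  have e : g ^ (c + u) - g ^ c = g ^ c * (g ^ u - 1) := by ring
  rw [e]
  by_cases h : p ≤ L
  · rw [if_pos h]
    by_cases hpg : (p : ℤ) = g
    · rw [← hpg]
      exact Dvd.dvd.mul_right (pow_dvd_pow _ hc) _
    · obtain ⟨w, rfl⟩ := h1 h
      have := lte_dvd (by norm_num : 1 ≤ 2) (small_sq (y := y) (PP_small hp h) hg hpg) (kk L y) w
      exact Dvd.dvd.mul_left ((pow_dvd_pow _ (by omega)).trans this) _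
  · rw [if_neg h]
    obtain ⟨w, rfl⟩ := h2 h
    exact Dvd.dvd.mul_left
      (lte_dvd (ee_pos hL (PP_big hp h)) (ee_dvd hL (PP_prime hp) hg) _ w) _

lemma even_val {p v : ℕ} (hp : p.Prime) (h3 : p % 4 = 3) {x y : ℤ}
    (h1 : (p : ℤ) ^ v ∣ x ^ 2 + y ^ 2) (h2 : ¬ (p : ℤ) ^ (v + 1) ∣ x ^ 2 + y ^ 2) : Even v := by
  have e : x ^ 2 + y ^ 2 = ((x.natAbs ^ 2 + y.natAbs ^ 2 : ℕ) : ℤ) := by
    push_cast
    simp
  rw [e] at h1 h2
  set n := x.natAbs ^ 2 + y.natAbs ^ 2 with hn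
  have h1' : p ^ v ∣ n := by exact_mod_cast h1
  have h2' : ¬ p ^ (v + 1) ∣ n := fun h => h2 (by exact_mod_cast h)
  have hn0 : n ≠ 0 := fun h => h2' (by simp [h])
  have := Fact.mk hp
  have hv : padicValNat p n = v := by
    have a1 := (padicValNat_dvd_iff_le hn0).1 h1'
    have a2 : ¬ v + 1 ≤ padicValNat p n := fun h => h2' ((padicValNat_dvd_iff_le hn0).2 h)
    omega
  rcases Nat.eq_zero_or_pos v with h0 | h0
  · simp [h0]
  have := Nat.eq_sq_add_sq_iff.1 ⟨_, _, hn⟩ p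
    (Nat.mem_primeFactors.2 ⟨hp, (dvd_pow_self p h0.ne').trans h1', hn0⟩) h3
  rwa [hv] at this

end Pool.Agent.MP_c903c4_nt
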