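import Pool.Agent.MP_c903c4_nt.GC1

/-!
The choice of the class and the exceptional residues.
-/

open Finset Filter Topology
open scoped Classical

noncomputable section

namespace Pool.Agent.MP_c903c4_nt

/-- Classes of exponents that are alive for the residue a. -/
def Al (L y : ℕ) (a : ℤ) (c d : ℕ) : Prop :=
  kk L y ≤ c ∧ kk L y ≤ d ∧ (∀ l ∈ sm L, l % 4 = 1 ∨ SS ((l : ℤ) ^ kk L y) (mm a c d)) ∧
    ∀ p ∈ bg L y, 2 ≤ ee L y p → p % 4 = 3 → ∀ v, v < ee L y p → (p : ℤ) ^ v ∣ mm a c d →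
      ¬ (p : ℤ) ^ (v + 1) ∣ mm a c d → Even v

/-- The chosen class. -/
def xx (L y a : ℕ) : ℕ × ℕ :=
  if h : ∃ x : ℕ × ℕ, Al L y a x.1 x.2 then h.choose else (0, 0)

/-- The primes whose component of the exponent has to be fixed. -/
def FF (L y a : ℕ) : Finset ℕ :=
  (bg L y).filter fun p => p % 4 = 3 ∧ Odd (ee L y p) ∧
    (p : ℤ) ^ ee L y p ∣ mm a (xx L y (a % q1 L y)).1 (xx L y (a % q1 L y)).2

variable {L y : ℕ}

lemma dv {a b c : ℤ} (h : a ∣ b) (e : b = c) : a ∣ c := e ▸ h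

lemma SS.congr {M m m' : ℤ} (h : SS M m) (hm : M ∣ m' - m) : SS M m' := by
  obtain ⟨x, y, h⟩ := h
  exact ⟨x, y, dv (hm.add h) (by ring)⟩

lemma Al.congr {a a' : ℤ} {c d : ℕ} (h : Al L y a c d) (ha : (q1 L y : ℤ) ∣ a' - a) :
    Al L y a' c d := by
  have e : mm a' c d - mm a c d = a' - a := by unfold mm; ring
  obtain ⟨h1, h2, h3, h4⟩ := h
  refine ⟨h1, h2, fun l hl => ?_, fun p hp h5 h6 v hv h7 h8 => ?_⟩
  · refine (h3 l hl).imp id fun h => h.congr ?_
    rw [e]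
    refine Dvd.dvd.trans ?_ ha
    have := pow_dvd_q1 (y := y) (mem_PP.2 (Or.inl hl)) (Or.inl (mem_sm.1 hl).1)
    rw [ff_small (mem_sm.1 hl).1] at this
    exact_mod_cast this
  · have hL : ¬ p ≤ L := by have := (mem_bg.1 hp).1.1; omega
    have hd : (p : ℤ) ^ ee L y p ∣ mm a' c d - mm a c d := by
      rw [e]
      refine Dvd.dvd.trans ?_ ha
      have := (pow_dvd_pow p (ee_le_ff (y := y) hL)).trans
        (pow_dvd_q1 (mem_PP.2 (Or.inr hp)) (Or.inr h5))
      exact_mod_cast this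
    refine h4 p hp h5 h6 v hv ?_ fun h => h8 ?_
    · have := h7.sub ((pow_dvd_pow _ hv.le).trans hd)
      exact dv this (by ring)
    · have := h.add ((pow_dvd_pow _ (Nat.succ_le_of_lt hv)).trans hd)
      exact dv this (by ring)

lemma mod_dvd (a N : ℕ) : (N : ℤ) ∣ (a : ℤ) - ((a % N : ℕ) : ℤ) := by
  exact Nat.modEq_iff_dvd.1 (Nat.mod_modEq a N)

lemma al_of_loc (hL : 5 ≤ L) {a : ℕ} (h : Loc (q0 L y) a) :
    Al L y a (xx L y (a % q1 L y)).1 (xx L y (a % q1 L y)).2 := by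
  obtain ⟨u, w, c, d, hc, h⟩ := h
  have h0 : (q0 L y : ℤ) ∣ mm a c d - ((u : ℤ) ^ 2 + (w : ℤ) ^ 2) := by
    have := Nat.modEq_iff_dvd.1 h.symm
    push_cast at this
    exact dv this (by unfold mm; ring)
  have hT : 0 < T0 L y :=
    Nat.mul_pos (OO_pos hL) (Finset.prod_pos fun l hl => pow_pos (mem_sm.1 hl).2.pos _)
  have e : mm a c (d + T0 L y * kk L y) - ((u : ℤ) ^ 2 + (w : ℤ) ^ 2) =
      mm a c d - ((u : ℤ) ^ 2 + (w : ℤ) ^ 2) - 5 ^ d * (5 ^ (T0 L y * kk L y) - 1) := by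
    unfold mm
    ring
  have key : Al L y a c (d + T0 L y * kk L y) := by
    refine ⟨(kk_le_q0 hL).trans hc, ?_, fun l hl => ?_, fun p hp h5 h6 v hv h7 h8 => ?_⟩
    · nlinarith
    · by_cases h5 : l = 5
      · left
        rw [h5]
      right
      refine ⟨u, w, ?_⟩
      rw [e]
      refine Dvd.dvd.sub ?_ (Dvd.dvd.mul_left ?_ _)
      · refine Dvd.dvd.trans ?_ h0
        have := pow_dvd_q0 (y := y) (mem_PP.2 (Or.inl hl))
        rw [ff_small (mem_sm.1 hl).1] at this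
        exact_mod_cast this
      · obtain ⟨z, hz⟩ := Finset.dvd_prod_of_mem (fun l => l ^ kk L y) hl
        have := lte_dvd (by norm_num : 1 ≤ 2) (small_sq (y := y) hl (Or.inr rfl)
          (by exact_mod_cast h5)) (kk L y) (z * kk L y)
        rw [T0, hz]
        refine (pow_dvd_pow _ (by omega : kk L y ≤ 2 + kk L y)).trans ?_
        exact dv this (by congr 2; ring)
    · have hLp : ¬ p ≤ L := by have := (mem_bg.1 hp).1.1; omega
      have hpp := (mem_bg.1 hp).2.1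
      have hd : (p : ℤ) ^ ee L y p ∣
          mm a c (d + T0 L y * kk L y) - ((u : ℤ) ^ 2 + (w : ℤ) ^ 2) := by
        rw [e]
        refine Dvd.dvd.sub ?_ (Dvd.dvd.mul_left ?_ _)
        · refine Dvd.dvd.trans ?_ h0
          have := (pow_dvd_pow p (ee_le_ff (y := y) hLp)).trans
            (pow_dvd_q0 (mem_PP.2 (Or.inr hp)))
          exact_mod_cast this
        · have := lte_dvd (ee_pos hL hp) (ee_dvd hL hpp (Or.inr rfl)) 0
            ((∏ l ∈ sm L, l ^ kk L y) * kk L y)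
          rw [T0]
          exact dv this (by congr 2; ring)
      refine even_val hpp h6 (x := u) (y := w) ?_ fun h => h8 ?_
      · have := h7.sub ((pow_dvd_pow _ hv.le).trans hd)
        exact dv this (by ring)
      · have := h.add ((pow_dvd_pow _ (Nat.succ_le_of_lt hv)).trans hd)
        exact dv this (by ring)
  have k2 : ∃ x : ℕ × ℕ, Al L y ((a % q1 L y : ℕ) : ℤ) x.1 x.2 :=
    ⟨(c, d + T0 L y * kk L y), key.congr (by rw [← neg_sub]; exact (mod_dvd a _).neg_right)⟩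
  have k3 := k2.choose_spec
  have k4 : xx L y (a % q1 L y) = k2.choose := dif_pos k2
  rw [k4]
  exact k3.congr (mod_dvd a _)

lemma cnt {q N : ℕ} (hN : 0 < N) (h : N ∣ q) (A : Finset ℕ) (hA : ∀ a ∈ A, a < q)
    (hc : ∀ a ∈ A, ∀ b ∈ A, (N : ℤ) ∣ (a : ℤ) - b) : (A.card : ℝ) ≤ q / N := by
  obtain ⟨r, rfl⟩ := h
  have h1 : A.card ≤ (range r).card := by
    refine Finset.card_le_card_of_injOn (fun a => a / N) (fun a ha => ?_) fun a ha b hb hab => ?_
    · simp only [coe_range, Set.mem_Iio]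
      exact Nat.div_lt_of_lt_mul (hA a ha)
    · have h2 : b ≡ a [MOD N] := Nat.modEq_iff_dvd.2 (hc a ha b hb)
      have h3 : a / N = b / N := hab
      rw [← Nat.div_add_mod a N, ← Nat.div_add_mod b N, h3, show a % N = b % N from h2.symm]
  rw [card_range] at h1
  have : ((N * r : ℕ) : ℝ) / N = r := by
    push_cast
    field_simp
  rw [this]
  exact_mod_cast h1

lemma cube_period (hL : 5 ≤ L) {p : ℕ} (hp : p ∈ bg L y) (h3 : 3 ≤ ee L y p) {g : ℕ}
    (hg : g = 3 ∨ g = 5) (c : ℕ) : (p : ℤ) ^ 3 ∣ (g : ℤ) ^ c - (g : ℤ) ^ (c % (p - 1)) := by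
  obtain ⟨⟨h1, _⟩, hpp, _⟩ := mem_bg.1 hp
  have hg' : (g : ℤ) = 3 ∨ (g : ℤ) = 5 := by rcases hg with rfl | rfl <;> simp
  have a1 : ((p ^ 3 : ℕ) : ℤ) ∣ (g : ℤ) ^ OO L y - 1 := by
    push_cast
    exact (pow_dvd_pow _ h3).trans (ee_dvd hL hpp hg')
  have hc : g.Coprime (p ^ 3) := by
    refine Nat.Coprime.pow_right 3 ((Nat.Prime.coprime_iff_not_dvd hpp).2 fun h => ?_).symm
    have := Nat.le_of_dvd (by omega) h
    omega
  have a2 : ((p ^ 3 : ℕ) : ℤ) ∣ (g : ℤ) ^ (p ^ 2 * (p - 1)) - 1 := by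
    have h1 := Nat.ModEq.pow_totient hc
    rw [Nat.totient_prime_pow hpp (by norm_num)] at h1
    have := Nat.modEq_iff_dvd.1 h1.symm
    exact_mod_cast this
  have b1 := ord_of_dvd a1
  have b2 := ord_of_dvd a2
  have b3 : (orderOf (g : ZMod (p ^ 3))).Coprime (p ^ 2) := by
    refine Nat.Coprime.pow_right 2 ((Nat.Prime.coprime_iff_not_dvd hpp).2 fun h => ?_).symm
    have := OO_smooth hL hpp (h.trans b1)
    omega
  have b4 := b3.dvd_of_dvd_mul_left b2
  have b5 := dvd_of_ord (b4.trans (Dvd.intro (c / (p - 1)) rfl))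
  have e : (g : ℤ) ^ c - (g : ℤ) ^ (c % (p - 1)) =
      (g : ℤ) ^ (c % (p - 1)) * ((g : ℤ) ^ ((p - 1) * (c / (p - 1))) - 1) := by
    rw [mul_sub, ← pow_add, mul_one, Nat.mod_add_div]
  rw [e]
  exact Dvd.dvd.mul_left (by exact_mod_cast b5) _

lemma cnt_FF (hL : 5 ≤ L) {p : ℕ} (hp : p ∈ bg L y) :
    (((range (q0 L y)).filter fun a => p ∈ FF L y a).card : ℝ) ≤ q0 L y / p := by
  obtain ⟨⟨h1, _⟩, hpp, _⟩ := mem_bg.1 hp
  have hPP : p ∈ PP L y := mem_PP.2 (Or.inr hp)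
  have hLp : ¬ p ≤ L := by omega
  have hp0 : (0 : ℝ) < p := by exact_mod_cast hpp.pos
  set A := (range (q0 L y)).filter fun a => p ∈ FF L y a with hA
  have he := ee_pos hL hp
  by_cases h2 : 2 ≤ ee L y p
  · by_cases hodd : Odd (ee L y p)
    swap
    · have : A = ∅ := by
        refine Finset.filter_eq_empty_iff.2 fun a _ h => hodd ?_
        exact (mem_filter.1 h).2.2.1
      rw [this]
      simp only [card_empty, Nat.cast_zero]
      positivity
    have h3 : 3 ≤ ee L y p := by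
      obtain ⟨t, ht⟩ := hodd
      omega
    have hdv : p ^ 3 ∣ q0 L y :=
      (pow_dvd_pow p (h3.trans (ee_le_ff hLp))).trans (pow_dvd_q0 hPP)
    have hsub : A ⊆ (range (p - 1) ×ˢ range (p - 1)).biUnion fun x =>
        (range (q0 L y)).filter fun a : ℕ => (p : ℤ) ^ 3 ∣ mm a x.1 x.2 := by
      intro a ha
      obtain ⟨ha1, ha2⟩ := mem_filter.1 ha
      obtain ⟨_, _, _, h5⟩ := mem_filter.1 ha2
      set x := xx L y (a % q1 L y)
      refine mem_biUnion.2 ⟨(x.1 % (p - 1), x.2 % (p - 1)), ?_, mem_filter.2 ⟨ha1, ?_⟩⟩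
      · simp only [mem_product, mem_range]
        exact ⟨Nat.mod_lt _ (by omega), Nat.mod_lt _ (by omega)⟩
      · have b1 := cube_period hL hp h3 (Or.inl rfl) x.1
        have b2 := cube_period hL hp h3 (Or.inr rfl) x.2
        have := (((pow_dvd_pow _ h3).trans h5).add b1).add b2
        exact dv this (by unfold mm; push_cast; ring)
    have c1 : (A.card : ℝ) ≤ ∑ _x ∈ range (p - 1) ×ˢ range (p - 1), (q0 L y : ℝ) / (p ^ 3 : ℕ) := by
      have c0 := (Nat.cast_le (α := ℝ)).2 ((Finset.card_le_card hsub).trans card_biUnion_le)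
      rw [Nat.cast_sum] at c0
      refine c0.trans (Finset.sum_le_sum fun x _ => ?_)
      have := cnt (pow_pos hpp.pos 3) hdv
        ((range (q0 L y)).filter fun a : ℕ => (p : ℤ) ^ 3 ∣ mm a x.1 x.2)
        (fun a ha => mem_range.1 (mem_filter.1 ha).1) fun a ha b hb => by
          have := (mem_filter.1 ha).2.sub (mem_filter.1 hb).2
          push_cast
          exact dv this (by unfold mm; ring)
      exact_mod_cast this
    rw [Finset.sum_const, card_product, card_range, nsmul_eq_mul] at c1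
    refine c1.trans ?_
    have c2 : (((p - 1) * (p - 1) : ℕ) : ℝ) ≤ p * p := by
      exact_mod_cast Nat.mul_le_mul (Nat.sub_le _ _) (Nat.sub_le _ _)
    calc _ ≤ (p * p : ℝ) * ((q0 L y : ℝ) / (p ^ 3 : ℕ)) := by gcongr
      _ = _ := by
        push_cast
        field_simp
  · have hcop : p.Coprime (q1 L y) := by
      refine Nat.Coprime.prod_right fun r hr => Nat.Coprime.pow_right _ ?_
      obtain ⟨hr1, hr2⟩ := mem_filter.1 hr
      refine (Nat.coprime_primes hpp (PP_prime hr1)).2 ?_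
      rintro rfl
      omega
    have hdv : p * q1 L y ∣ q0 L y := by
      refine hcop.mul_dvd_of_dvd_of_dvd ?_
        (Finset.prod_dvd_prod_of_subset _ _ _ (Finset.filter_subset _ _))
      exact (dvd_pow_self p (by have := ee_le_ff (y := y) hLp; omega)).trans (pow_dvd_q0 hPP)
    have c1 : A.card = ∑ r ∈ range (q1 L y), (A.filter fun a => a % q1 L y = r).card :=
      Finset.card_eq_sum_card_fiberwise fun a _ => by
        simp only [coe_range, Set.mem_Iio]
        exact Nat.mod_lt _ q1_pos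
    have c2 : ∀ r ∈ range (q1 L y), ((A.filter fun a => a % q1 L y = r).card : ℝ) ≤
        (q0 L y : ℝ) / (p * q1 L y : ℕ) := by
      intro r _
      refine cnt (Nat.mul_pos hpp.pos q1_pos) hdv _
        (fun a ha => mem_range.1 (mem_filter.1 (mem_filter.1 ha).1).1) fun a ha b hb => ?_
      obtain ⟨ha1, ha2⟩ := mem_filter.1 ha
      obtain ⟨hb1, hb2⟩ := mem_filter.1 hb
      have a1 := (mem_filter.1 (mem_filter.1 ha1).2).2.2.2
      have b1 := (mem_filter.1 (mem_filter.1 hb1).2).2.2.2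
      rw [ha2] at a1
      rw [hb2] at b1
      have d1 : (p : ℤ) ∣ (a : ℤ) - b := by
        have := (dvd_pow_self (p : ℤ) (by omega : ee L y p ≠ 0)).trans (a1.sub b1)
        exact dv this (by unfold mm; ring)
      have d2 : (q1 L y : ℤ) ∣ (a : ℤ) - b :=
        Nat.modEq_iff_dvd.1 (show b ≡ a [MOD q1 L y] from hb2.trans ha2.symm)
      push_cast
      exact (Nat.isCoprime_iff_coprime.2 hcop).mul_dvd d1 d2
    have c3 := Finset.sum_le_sum c2
    rw [← Nat.cast_sum, ← c1, Finset.sum_const, card_range, nsmul_eq_mul] at c3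
    refine c3.trans (le_of_eq ?_)
    have : (0 : ℝ) < q1 L y := by exact_mod_cast q1_pos
    push_cast
    field_simp

lemma bad_card (hL : 5 ≤ L) {σ : ℕ → ℝ} (h0 : ∀ l, 0 ≤ σ l) {ε : ℝ} (hε : 0 < ε)
    (h : ∑ l ∈ bg L y, σ l / l ≤ ε ^ 2) :
    (((range (q0 L y)).filter fun a => ε < ∑ p ∈ FF L y a, σ p).card : ℝ) ≤ ε * q0 L y := by
  set B := (range (q0 L y)).filter fun a => ε < ∑ p ∈ FF L y a, σ p with hB
  have c1 : (B.card : ℝ) * ε ≤ ∑ a ∈ range (q0 L y), ∑ p ∈ FF L y a, σ p := by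
    calc (B.card : ℝ) * ε = ∑ _a ∈ B, ε := by simp
      _ ≤ ∑ a ∈ B, ∑ p ∈ FF L y a, σ p := Finset.sum_le_sum fun a ha => (mem_filter.1 ha).2.le
      _ ≤ _ := Finset.sum_le_sum_of_subset_of_nonneg (Finset.filter_subset _ _)
          fun a _ _ => Finset.sum_nonneg fun p _ => h0 p
  have c2 : ∑ a ∈ range (q0 L y), ∑ p ∈ FF L y a, σ p =
      ∑ p ∈ bg L y, (((range (q0 L y)).filter fun a => p ∈ FF L y a).card : ℝ) * σ p := by
    rw [Finset.sum_comm' (t' := bg L y)
      (s' := fun p => (range (q0 L y)).filter fun a => p ∈ FF L y a)]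
    · simp
    · intro a p
      constructor
      · rintro ⟨h1, h2⟩
        exact ⟨mem_filter.2 ⟨h1, h2⟩, (mem_filter.1 h2).1⟩
      · rintro ⟨h1, _⟩
        exact mem_filter.1 h1
  have c3 : ∑ p ∈ bg L y, (((range (q0 L y)).filter fun a => p ∈ FF L y a).card : ℝ) * σ p ≤
      q0 L y * ∑ l ∈ bg L y, σ l / l := by
    rw [Finset.mul_sum]
    refine Finset.sum_le_sum fun p hp => ?_
    calc _ ≤ q0 L y / p * σ p := mul_le_mul_of_nonneg_right (cnt_FF hL hp) (h0 p)
      _ = _ := by ring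
  have c4 : (q0 L y : ℝ) * ∑ l ∈ bg L y, σ l / l ≤ q0 L y * ε ^ 2 := by gcongr
  have c5 : (B.card : ℝ) * ε ≤ ε * q0 L y * ε := by nlinarith
  exact le_of_mul_le_mul_right c5 hε

end Pool.Agent.MP_c903c4_nt
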