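import Pool.Agent.MP_c903c4_nt.GC2

/-!
Adjusting the chosen class.
-/

open Finset Filter Topology
open scoped Classical

noncomputable section

namespace Pool.Agent.MP_c903c4_nt

/-- The exponent of stability. -/
def mu (L y : ℕ) (F : Finset ℕ) (p : ℕ) : ℕ :=
  if p ≤ L then kk L y else ee L y p + if p ∈ F then 1 else 0

/-- The period of the final class. -/
def TT (L y : ℕ) (F : Finset ℕ) : ℕ := OO L y * ((∏ l ∈ sm L, l ^ kk L y) * ∏ r ∈ F, r)

/-- The shift used at the prime p. -/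
def tau (L y : ℕ) (F : Finset ℕ) (p : ℕ) : ℕ :=
  if p ≤ L then OO L y * ((∏ l ∈ (sm L).erase p, l ^ kk L y) * ∏ r ∈ F, r)
  else if p ∈ F then OO L y * ((∏ l ∈ sm L, l ^ kk L y) * ∏ r ∈ F.erase p, r) else 0

variable {L y : ℕ} {F : Finset ℕ}

lemma stab_gen (hL : 5 ≤ L) {p : ℕ} (hp : p ∈ PP L y) {A B : Finset ℕ} (hA : p ≤ L → p ∈ A)
    (hB : p ∈ F → p ∈ B) {c : ℕ} (t : ℕ) (hc : kk L y ≤ c) {g : ℤ} (hg : g = 3 ∨ g = 5) :
    (p : ℤ) ^ mu L y F p ∣
      g ^ (c + OO L y * ((∏ l ∈ A, l ^ kk L y) * ∏ r ∈ B, r) * t) - g ^ c := by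
  refine stab hL F hp hg hc (fun h => ?_) fun _ => ?_
  · exact Dvd.dvd.mul_right (Nat.mul_dvd_mul_left _ (Dvd.dvd.mul_right
      (Finset.dvd_prod_of_mem (fun l => l ^ kk L y) (hA h)) _)) _
  · refine Dvd.dvd.mul_right (Nat.mul_dvd_mul_left _ (Dvd.dvd.mul_left ?_ _)) _
    split_ifs with h
    · rw [pow_one]
      exact Finset.dvd_prod_of_mem (fun r => r) (hB h)
    · simp

lemma stab_tau (hL : 5 ≤ L) {p p' : ℕ} (hp' : p' ∈ PP L y) (hne : p ≠ p') {c : ℕ} (t : ℕ)
    (hc : kk L y ≤ c) {g : ℤ} (hg : g = 3 ∨ g = 5) :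
    (p' : ℤ) ^ mu L y F p' ∣ g ^ (c + tau L y F p * t) - g ^ c := by
  unfold tau
  split_ifs with h1 h2
  · exact stab_gen hL hp' (fun h => mem_erase.2 ⟨hne.symm, PP_small hp' h⟩) id t hc hg
  · exact stab_gen hL hp' (fun h => PP_small hp' h) (fun h => mem_erase.2 ⟨hne.symm, h⟩) t hc hg
  · simp

lemma stab_TT (hL : 5 ≤ L) {p : ℕ} (hp : p ∈ PP L y) (a : ℤ) {c d : ℕ} (i j : ℕ)
    (hc : kk L y ≤ c) (hd : kk L y ≤ d) :
    (p : ℤ) ^ mu L y F p ∣ mm a (c + TT L y F * i) (d + TT L y F * j) - mm a c d := by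
  have h3 := stab_gen (F := F) hL hp (fun h => PP_small hp h) id i hc (Or.inl rfl)
  have h5 := stab_gen (F := F) hL hp (fun h => PP_small hp h) id j hd (Or.inr rfl)
  exact dv (h3.add h5).neg_right (by unfold mm TT; ring)

lemma not_dvd_prods {p : ℕ} (hp : p.Prime) {A B : Finset ℕ} (hA : ∀ l ∈ A, l.Prime ∧ l ≠ p)
    (hB : ∀ l ∈ B, l.Prime ∧ l ≠ p) (k : ℕ) : ¬ p ∣ (∏ l ∈ A, l ^ k) * ∏ r ∈ B, r := by
  intro h
  rcases (Nat.Prime.dvd_mul hp).1 h with h | h
  · obtain ⟨l, hl, h⟩ := (Prime.dvd_finsetProd_iff hp.prime _).1 h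
    exact (hA l hl).2 ((Nat.prime_dvd_prime_iff_eq hp (hA l hl).1).1 (hp.dvd_of_dvd_pow h)).symm
  · obtain ⟨l, hl, h⟩ := (Prime.dvd_finsetProd_iff hp.prime _).1 h
    exact (hB l hl).2 ((Nat.prime_dvd_prime_iff_eq hp (hB l hl).1).1 h).symm

lemma gs_spec (l : ℕ) : (gs l = 3 ∨ gs l = 5) ∧ (l.Prime → (l : ℤ) ≠ gs l) := by
  unfold gs
  split_ifs with h
  · exact ⟨Or.inl rfl, fun _ => by rw [h]; norm_num⟩
  · exact ⟨Or.inr rfl, fun _ => by exact_mod_cast h⟩

lemma shift_either {g : ℤ} (hg : g = 3 ∨ g = 5) (a : ℤ) (c d τ : ℕ) (R : ℤ → Prop)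
    (h : ∀ c' : ℕ, ∃ t : ℕ, R (mm a c d - (g ^ (c' + τ * t) - g ^ c'))) :
    ∃ i j : ℕ, R (mm a (c + τ * i) (d + τ * j)) := by
  rcases hg with rfl | rfl
  · obtain ⟨t, ht⟩ := h c
    refine ⟨t, 0, ?_⟩
    convert ht using 1
    unfold mm
    ring
  · obtain ⟨t, ht⟩ := h d
    refine ⟨0, t, ?_⟩
    convert ht using 1
    unfold mm
    ring

lemma exists_good (hL : 5 ≤ L) {a : ℤ} {c d : ℕ} (h : Al L y a c d)
    (hF : ∀ p, p ∈ F ↔ p ∈ bg L y ∧ p % 4 = 3 ∧ Odd (ee L y p) ∧ (p : ℤ) ^ ee L y p ∣ mm a c d) :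
    ∃ c' d' : ℕ, kk L y ≤ c' ∧ kk L y ≤ d' ∧
      ∀ p ∈ PP L y, ∃ v, Fin' L p (ff L y p) (mu L y F p) v (mm a c' d') := by
  have hFp : ∀ r ∈ F, r.Prime ∧ L < r := fun r hr =>
    ⟨(mem_bg.1 ((hF r).1 hr).1).2.1, (mem_bg.1 ((hF r).1 hr).1).1.1⟩
  refine adj a (PP L y) (fun p => (p : ℤ) ^ mu L y F p)
    (fun p m => if p ≤ L then (p % 4 = 1 ∨ SS ((p : ℤ) ^ kk L y) m) else
      if p ∈ F then (p : ℤ) ^ ee L y p ∣ m else ∃ v, Fin' L p (ff L y p) (mu L y F p) v m)
    (fun p m => ∃ v, Fin' L p (ff L y p) (mu L y F p) v m) (tau L y F) (kk L y) ?_ ?_ ?_ ?_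
    h.1 h.2.1 ?_
  · intro p _ m m' hm
    by_cases h1 : p ≤ L
    · simp only [mu, h1, if_true] at hm ⊢
      exact fun h => h.imp id fun h => h.congr hm
    · by_cases h2 : p ∈ F
      · simp only [mu, h1, h2, if_true, if_false] at hm ⊢
        exact fun h => dv (h.add ((pow_dvd_pow _ (Nat.le_succ _)).trans hm)) (by ring)
      · simp only [h1, h2, if_false]
        exact fun ⟨v, hv⟩ => ⟨v, hv.congr hm⟩
  · exact fun p _ m m' hm ⟨v, hv⟩ => ⟨v, hv.congr hm⟩
  · exact fun p _ p' hp' hne c t hc =>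
      ⟨stab_tau hL hp' hne t hc (Or.inl rfl), stab_tau hL hp' hne t hc (Or.inr rfl)⟩
  · intro p hp c d _ _
    have hpp := PP_prime hp
    by_cases h1 : p ≤ L
    · simp only [h1, if_true, ff_small h1, mu, tau]
      intro hm
      obtain ⟨hg, hg'⟩ := gs_spec p
      have hs := PP_small hp h1
      have hne := pow_sub_one_ne (y := y) hL hg
      set j := padicValInt p (gs p ^ OO L y - 1) with hj
      have j2 : 2 ≤ j := (val_dvd_iff hpp hne).1 (small_sq hs hg (hg' hpp))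
      have j3 : j + 3 ≤ kk L y := Nat.add_le_add_right
        (Finset.le_sup (f := fun l => padicValInt l (gs l ^ OO L y - 1)) hs) 3
      have d1 : (p : ℤ) ^ j ∣ gs p ^ OO L y - 1 := (val_dvd_iff hpp hne).2 le_rfl
      have d2 : ¬ (p : ℤ) ^ (j + 1) ∣ gs p ^ OO L y - 1 := by
        rw [val_dvd_iff hpp hne]
        omega
      have hu := not_dvd_prods hpp (A := (sm L).erase p) (B := F)
        (fun l hl => ⟨(mem_sm.1 (mem_erase.1 hl).2).2, (mem_erase.1 hl).1⟩)
        (fun l hl => ⟨(hFp l hl).1, by have := (hFp l hl).2; omega⟩) (kk L y)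
      refine shift_either hg a c d _ (fun m => ∃ v, Fin' L p (kk L y) (kk L y) v m) fun c' => ?_
      refine step_small hpp j2 j3 (not_dvd_base hpp hg (hg' hpp)) ?_
        (lte_unit hpp (by omega) d1 d2 _ hu) hm c'
      have := lte_dvd (by omega : 1 ≤ j) d1 0 ((∏ l ∈ (sm L).erase p, l ^ kk L y) * ∏ r ∈ F, r)
      simpa using this
    · by_cases h2 : p ∈ F
      · obtain ⟨hb, h3, h4, _⟩ := (hF p).1 h2
        have e1 : ff L y p = ee L y p + 1 := by simp [ff, h1, h3, h4]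
        simp only [h1, h2, if_true, if_false, e1, mu, tau]
        intro hm
        obtain ⟨g, hg, d2⟩ := ee_exact (y := y) hL hpp
        have d1 := ee_dvd (y := y) hL hpp hg
        have he := ee_pos hL hb
        have hu := not_dvd_prods hpp (A := sm L) (B := F.erase p)
          (fun l hl => ⟨(mem_sm.1 hl).2, by have := (mem_sm.1 hl).1; omega⟩)
          (fun l hl => ⟨(hFp l (mem_erase.1 hl).2).1, (mem_erase.1 hl).1⟩) (kk L y)
        have hpg : (p : ℤ) ≠ g := by rcases hg with rfl | rfl <;> omega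
        refine shift_either hg a c d _
          (fun m => ∃ v, Fin' L p (ee L y p + 1) (ee L y p + 1) v m) fun c' => ?_
        have d3 := lte_dvd he d1 0 ((∏ l ∈ sm L, l ^ kk L y) * ∏ r ∈ F.erase p, r)
        simp only [add_zero, pow_zero, mul_one] at d3
        obtain ⟨t, ht⟩ := step_up hpp he (not_dvd_base hpp hg hpg) d3
          (lte_unit hpp he d1 d2 _ hu) hm c'
        exact ⟨t, ee L y p + 1, le_rfl, le_rfl, ht, fun h => absurd h (lt_irrefl _),
          fun _ => h4.add_one, fun h => by omega, fun h => absurd h h1⟩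
      · simp only [h1, h2, if_false, tau]
        exact fun hm => ⟨0, 0, by simpa using hm⟩
  · intro p hp
    have hpp := PP_prime hp
    by_cases h1 : p ≤ L
    · simp only [h1, if_true]
      exact h.2.2.1 p (PP_small hp h1)
    · have hb := PP_big hp h1
      by_cases h2 : p ∈ F
      · simp only [h1, h2, if_true, if_false]
        exact ((hF p).1 h2).2.2.2
      · simp only [h1, h2, if_false, mu, add_zero]
        by_cases h3 : (p : ℤ) ^ ee L y p ∣ mm a c d
        · have h4 : ¬ (p % 4 = 3 ∧ Odd (ee L y p)) := fun h => h2 ((hF p).2 ⟨hb, h.1, h.2, h3⟩)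
          have e1 : ff L y p = ee L y p := by simp only [ff, h1, h4, if_false]
          rw [e1]
          exact ⟨ee L y p, le_rfl, le_rfl, h3, fun h => absurd h (lt_irrefl _),
            fun h => Nat.not_odd_iff_even.1 fun h' => h4 ⟨h, h'⟩, fun h => by omega,
            fun h => absurd h h1⟩
        · have hm0 : mm a c d ≠ 0 := fun h => h3 (by simp [h])
          have hv : padicValInt p (mm a c d) < ee L y p := by
            rw [val_dvd_iff hpp hm0] at h3
            omega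
          have d1 := (val_dvd_iff hpp hm0).2 (le_refl (padicValInt p (mm a c d)))
          have d2 : ¬ (p : ℤ) ^ (padicValInt p (mm a c d) + 1) ∣ mm a c d := by
            rw [val_dvd_iff hpp hm0]
            omega
          have := ee_le_ff (y := y) h1
          refine ⟨padicValInt p (mm a c d), by omega, hv.le, d1, fun _ => ⟨hv, d2⟩, fun h4 => ?_,
            fun h => by omega, fun h => absurd h h1⟩
          by_cases h5 : 2 ≤ ee L y p
          · exact h.2.2.2 p hb h5 h4 _ hv d1 d2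
          · have : padicValInt p (mm a c d) = 0 := by omega
            simp [this]

end Pool.Agent.MP_c903c4_nt
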