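import Pool.Agent.MP_c903c4_nt.Adj

/-!
No congruence obstruction without doubly Wieferich primes.
-/

open Finset Filter Topology
open scoped Classical

noncomputable section

namespace Pool.Agent.MP_c903c4_nt

/-- The truncated valuation. -/
theorem Local_val (p k : ℕ) (m : ℤ) :
    ∃ v : ℕ, v ≤ k ∧ (p : ℤ) ^ v ∣ m ∧ (v < k → ¬ (p : ℤ) ^ (v + 1) ∣ m) := by
  induction k with
  | zero => exact ⟨0, le_rfl, by simp, fun h => absurd h (lt_irrefl 0)⟩
  | succ k ih =>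
    obtain ⟨v, hv, hd, hn⟩ := ih
    by_cases h : (p : ℤ) ^ (v + 1) ∣ m
    · have hvk : v = k := by
        by_contra hne
        exact hn (lt_of_le_of_ne hv hne) h
      exact ⟨v + 1, by omega, h, fun h' => absurd h' (by omega)⟩
    · exact ⟨v, by omega, hd, fun _ => h⟩

theorem Local_pow8 {k : ℕ} (hk : Even k) :
    (8 : ℤ) ∣ 3 ^ k - 1 ∧ (8 : ℤ) ∣ 5 ^ k - 1 := by
  obtain ⟨j, rfl⟩ := hk
  rw [← two_mul, pow_mul, pow_mul]
  constructor
  · have := sub_dvd_pow_sub_pow ((3 : ℤ) ^ 2) 1 j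
    rw [one_pow] at this
    exact Dvd.dvd.trans (by norm_num) this
  · have := sub_dvd_pow_sub_pow ((5 : ℤ) ^ 2) 1 j
    rw [one_pow] at this
    exact Dvd.dvd.trans (by norm_num) this

theorem Local_two0 {k : ℕ} (hk : 4 ≤ k) {m : ℤ} (h : m % 4 = 1) : Fin' 0 2 k k 0 m := by
  refine ⟨by omega, by omega, by simp, fun _ => ⟨by omega, ?_⟩, by omega, fun _ => ⟨by omega, by omega, ?_⟩,
    by omega⟩
  · norm_num
    omega
  · norm_num
    omega

theorem Local_two1 {k : ℕ} (hk : 4 ≤ k) {m : ℤ} (h : m % 8 = 2) : Fin' 0 2 k k 1 m := by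
  refine ⟨by omega, by omega, ?_, fun _ => ⟨by omega, ?_⟩, by omega, fun _ => ⟨by omega, by omega, ?_⟩,
    by omega⟩
  · norm_num
    omega
  · norm_num
    omega
  · norm_num
    omega

/-- The prime two. -/
theorem Local_base {k : ℕ} (hk : 4 ≤ k) (he : Even k) (n : ℤ) :
    ∃ c d : ℕ, k ≤ c ∧ k ≤ d ∧ ∃ v, Fin' 0 2 k k v (mm n c d) := by
  obtain ⟨⟨s, hs⟩, ⟨t, ht⟩⟩ := Local_pow8 he
  have h3 : (3 : ℤ) ^ k = 8 * s + 1 := by omega
  have h5 : (5 : ℤ) ^ k = 8 * t + 1 := by omega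
  have h3' : (3 : ℤ) ^ (k + 1) = 24 * s + 3 := by rw [pow_succ, h3]; ring
  have h5' : (5 : ℤ) ^ (k + 1) = 40 * t + 5 := by rw [pow_succ, h5]; ring
  have hn : n % 4 = 1 ∨ n % 4 = 3 ∨ n % 8 = 0 ∨ n % 8 = 2 ∨ n % 8 = 4 ∨ n % 8 = 6 := by omega
  rcases hn with h | h | h | h | h | h
  · exact ⟨k + 1, k, by omega, le_rfl, 0, Local_two0 hk (by unfold mm; rw [h3', h5]; omega)⟩
  · exact ⟨k, k, le_rfl, le_rfl, 0, Local_two0 hk (by unfold mm; rw [h3, h5]; omega)⟩
  · exact ⟨k, k + 1, le_rfl, by omega, 1, Local_two1 hk (by unfold mm; rw [h3, h5']; omega)⟩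
  · exact ⟨k + 1, k + 1, by omega, by omega, 1, Local_two1 hk (by unfold mm; rw [h3', h5']; omega)⟩
  · exact ⟨k, k, le_rfl, le_rfl, 1, Local_two1 hk (by unfold mm; rw [h3, h5]; omega)⟩
  · exact ⟨k + 1, k, by omega, le_rfl, 1, Local_two1 hk (by unfold mm; rw [h3', h5]; omega)⟩

/-- Shifts by multiples of a power of the factorial keep the smaller primes. -/
theorem Local_keep {p l g k e s : ℕ} (hl : l.Prime) (hlp : l < p) (hg : g.Prime) (hk : 1 ≤ k)
    (he : k ≤ e) :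
    (l : ℤ) ^ k ∣ (g : ℤ) ^ (e + (p - 1) * (p - 1).factorial ^ k * s) - (g : ℤ) ^ e := by
  by_cases hlg : l = g
  · subst hlg
    exact dvd_sub (pow_dvd_pow _ (by omega)) (pow_dvd_pow _ he)
  · have hco : Nat.Coprime g (l ^ k) :=
      Nat.Coprime.pow_right _ ((Nat.coprime_primes hg hl).2 (Ne.symm hlg))
    have h1 := Nat.ModEq.pow_totient hco
    have hdv : Nat.totient (l ^ k) ∣ (p - 1).factorial ^ k := by
      rw [Nat.totient_prime_pow hl hk]
      obtain ⟨j, rfl⟩ : ∃ j, k = j + 1 := ⟨k - 1, by omega⟩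
      rw [Nat.add_sub_cancel, pow_succ]
      have h2 := hl.two_le
      exact mul_dvd_mul (pow_dvd_pow_of_dvd (Nat.dvd_factorial hl.pos (by omega)) _)
        (Nat.dvd_factorial (by omega) (by omega))
    obtain ⟨w, hw⟩ := hdv
    have h2 : g ^ ((p - 1) * (p - 1).factorial ^ k * s) ≡ 1 [MOD l ^ k] := by
      have := h1.pow (w * (p - 1) * s)
      rw [one_pow, ← pow_mul] at this
      rw [hw]
      convert this using 2
      ring
    have h3 := (Nat.modEq_iff_dvd.1 h2.symm)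
    push_cast at h3
    rw [pow_add, ← mul_sub_one]
    exact Dvd.dvd.mul_left h3 _

/-- Reaching any valuation at a prime that is not Wieferich to the base g. -/
theorem Local_climb {p k : ℕ} (hp : p.Prime) (h2 : p ≠ 2) {g : ℤ} (hg : ¬ (p : ℤ) ∣ g)
    (hw : ¬ (p : ℤ) ^ 2 ∣ g ^ (p - 1) - 1) {m : ℤ} (hm : (p : ℤ) ∣ m) (e j : ℕ) :
    ∃ s : ℕ, (p : ℤ) ^ (j + 1) ∣ m - (g ^ (e + (p - 1) * (p - 1).factorial ^ k * s) - g ^ e) := by
  have hF : (p : ℤ) ^ 1 ∣ g ^ (p - 1) - 1 := by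
    rw [pow_one]
    have hco : IsCoprime g (p : ℤ) :=
      ((Nat.prime_iff_prime_int.1 hp).irreducible.coprime_iff_not_dvd.2 hg).symm
    exact (Int.ModEq.pow_card_sub_one_eq_one hp hco).symm.dvd
  have hU : ¬ p ∣ (p - 1).factorial ^ k := by
    intro h
    have := (hp.dvd_factorial).1 (hp.dvd_of_dvd_pow h)
    have := hp.pos
    omega
  induction j with
  | zero => exact ⟨0, by simpa using hm⟩
  | succ j ih =>
    obtain ⟨s, hs⟩ := ih
    have a1 := lte_dvd (p := p) (j := 1) le_rfl hF j ((p - 1).factorial ^ k)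
    have a2 := lte hp h2 (j := 1) le_rfl hF hw j ((p - 1).factorial ^ k) hU
    rw [add_comm 1 j] at a1 a2
    obtain ⟨t, ht⟩ := step_up hp (j := j + 1) (by omega) hg a1 a2 hs
      (e + (p - 1) * (p - 1).factorial ^ k * s)
    refine ⟨s + p ^ j * t, ?_⟩
    have he : e + (p - 1) * (p - 1).factorial ^ k * (s + p ^ j * t) =
        e + (p - 1) * (p - 1).factorial ^ k * s + (p - 1) * p ^ j * (p - 1).factorial ^ k * t := by
      ring
    rw [he]
    convert ht using 1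
    ring

theorem Local_top {p k : ℕ} (hp : p.Prime) (h2 : p ≠ 2) (he : Even k) {m : ℤ}
    (hm : (p : ℤ) ^ k ∣ m) : Fin' 0 p k k k m :=
  ⟨le_rfl, le_rfl, hm, fun h => absurd h (lt_irrefl k), fun _ => he, fun h => absurd h h2,
    fun h => absurd h (by have := hp.pos; omega)⟩

/-- All primes up to y at once. -/
theorem Local_ind (hD : ∀ p : ℕ, p.Prime → p % 4 = 3 →
    ¬ (p ^ 2 ∣ 3 ^ (p - 1) - 1 ∧ p ^ 2 ∣ 5 ^ (p - 1) - 1)) {k : ℕ} (hk : 4 ≤ k) (he : Even k)
    (n : ℤ) (y : ℕ) :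
    ∃ c d : ℕ, k ≤ c ∧ k ≤ d ∧ ∀ p : ℕ, p.Prime → p ≤ y + 2 → ∃ v, Fin' 0 p k k v (mm n c d) := by
  induction y with
  | zero =>
    obtain ⟨c, d, hc, hd, v, hv⟩ := Local_base hk he n
    refine ⟨c, d, hc, hd, fun p hp hy => ?_⟩
    have : p = 2 := by have := hp.two_le; omega
    subst this
    exact ⟨v, hv⟩
  | succ y ih =>
    obtain ⟨c, d, hc, hd, h⟩ := ih
    set p := y + 3 with hpy
    by_cases hp : p.Prime
    swap
    · refine ⟨c, d, hc, hd, fun l hl hy => h l hl ?_⟩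
      have : l ≠ p := fun hh => hp (hh ▸ hl)
      omega
    have h2 : p ≠ 2 := by omega
    have hp0 : ¬ p ≤ 0 := by omega
    by_cases h4 : p % 4 = 3
    swap
    · refine ⟨c, d, hc, hd, fun l hl hy => ?_⟩
      by_cases hlp : l = p
      · subst hlp
        obtain ⟨v, hv, hd', hn⟩ := Local_val p k (mm n c d)
        exact ⟨v, hv, hv, hd', fun hh => ⟨hh, hn hh⟩, fun hh => absurd hh h4, fun hh => absurd hh h2,
          fun hh => absurd hh hp0⟩
      · exact h l hl (by omega)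
    by_cases hm : (p : ℤ) ∣ mm n c d
    swap
    · refine ⟨c, d, hc, hd, fun l hl hy => ?_⟩
      by_cases hlp : l = p
      · subst hlp
        exact ⟨0, by omega, by omega, by simp, fun hh => ⟨hh, by simpa using hm⟩, fun _ => by simp,
          fun hh => absurd hh h2, fun hh => absurd hh hp0⟩
      · exact h l hl (by omega)
    obtain ⟨j, rfl⟩ : ∃ j, k = j + 1 := ⟨k - 1, by omega⟩
    have cast : ∀ g : ℕ, 1 ≤ g → (p : ℤ) ^ 2 ∣ (g : ℤ) ^ (p - 1) - 1 → p ^ 2 ∣ g ^ (p - 1) - 1 := by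
      intro g hg hh
      rw [← Int.natCast_dvd_natCast, Nat.cast_sub (Nat.one_le_pow _ _ hg)]
      push_cast
      exact hh
    have h5 : ¬ (p : ℤ) ∣ 5 := by
      intro hh
      have hh' : p ∣ 5 := by exact_mod_cast hh
      have := (Nat.prime_dvd_prime_iff_eq hp (by norm_num)).1 hh'
      omega
    have key : (¬ (p : ℤ) ∣ 3 ∧ ¬ (p : ℤ) ^ 2 ∣ 3 ^ (p - 1) - 1) ∨ ¬ (p : ℤ) ^ 2 ∣ 5 ^ (p - 1) - 1 := by
      by_cases h3 : p = 3
      · right
        rw [h3]
        norm_num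
      · by_cases h5' : (p : ℤ) ^ 2 ∣ 5 ^ (p - 1) - 1
        · left
          refine ⟨fun hh => ?_, fun hh => hD p hp h4 ⟨cast 3 (by norm_num) (by exact_mod_cast hh),
            cast 5 (by norm_num) (by exact_mod_cast h5')⟩⟩
          have hh' : p ∣ 3 := by exact_mod_cast hh
          exact h3 ((Nat.prime_dvd_prime_iff_eq hp (by norm_num)).1 hh')
        · exact Or.inr h5'
    rcases key with ⟨h3, hw⟩ | hw
    · obtain ⟨s, hs⟩ := Local_climb (k := j + 1) hp h2 h3 hw hm c j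
      refine ⟨c + (p - 1) * (p - 1).factorial ^ (j + 1) * s, d, by omega, hd, fun l hl hy => ?_⟩
      by_cases hlp : l = p
      · subst hlp
        refine ⟨j + 1, Local_top hp h2 he ?_⟩
        convert hs using 1
        unfold mm
        ring
      · obtain ⟨v, hv⟩ := h l hl (by omega)
        refine ⟨v, hv.congr ?_⟩
        have := Local_keep (p := p) (g := 3) (k := j + 1) (e := c) (s := s) hl (by omega)
          (by norm_num) (by omega) hc
        rw [← dvd_neg]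
        refine this.trans (dvd_of_eq ?_)
        unfold mm
        push_cast
        ring
    · obtain ⟨s, hs⟩ := Local_climb (k := j + 1) hp h2 h5 hw hm d j
      refine ⟨c, d + (p - 1) * (p - 1).factorial ^ (j + 1) * s, hc, by omega, fun l hl hy => ?_⟩
      by_cases hlp : l = p
      · subst hlp
        refine ⟨j + 1, Local_top hp h2 he ?_⟩
        convert hs using 1
        unfold mm
        ring
      · obtain ⟨v, hv⟩ := h l hl (by omega)
        refine ⟨v, hv.congr ?_⟩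
        have := Local_keep (p := p) (g := 5) (k := j + 1) (e := d) (s := s) hl (by omega)
          (by norm_num) (by omega) hd
        rw [← dvd_neg]
        refine this.trans (dvd_of_eq ?_)
        unfold mm
        push_cast
        ring

theorem Local_dvd {q k : ℕ} (hq : 0 < q) (hk : q ≤ k) :
    q ∣ ∏ p ∈ (range (q + 3)).filter Nat.Prime, p ^ k := by
  have h1 : q = ∏ p ∈ q.primeFactors, p ^ q.factorization p := by
    conv_lhs => rw [← Nat.prod_factorization_pow_eq_self hq.ne']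
    rfl
  have h2 : ∏ p ∈ q.primeFactors, p ^ q.factorization p ∣ ∏ p ∈ q.primeFactors, p ^ k :=
    prod_dvd_prod_of_dvd _ _ fun p _ =>
      pow_dvd_pow _ ((Nat.factorization_lt p hq.ne').le.trans hk)
  have h3 : q.primeFactors ⊆ (range (q + 3)).filter Nat.Prime := by
    intro p hp
    have := Nat.le_of_mem_primeFactors hp
    exact mem_filter.2 ⟨mem_range.2 (by omega), Nat.prime_of_mem_primeFactors hp⟩
  calc q = _ := h1
    _ ∣ _ := h2
    _ ∣ _ := prod_dvd_prod_of_subset _ _ _ h3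

theorem loc_all (hD : ∀ p : ℕ, p.Prime → p % 4 = 3 →
    ¬ (p ^ 2 ∣ 3 ^ (p - 1) - 1 ∧ p ^ 2 ∣ 5 ^ (p - 1) - 1)) {q : ℕ} (hq : 0 < q) (n : ℕ) :
    Loc q n := by
  set k := 2 * (q + 2) with hk
  obtain ⟨c, d, hc, -, h⟩ := Local_ind hD (k := k) (by omega) ⟨q + 2, by omega⟩ n q
  set P := (range (q + 3)).filter Nat.Prime with hP
  have h' : ∀ p : ℕ, ∃ v, p ∈ P → Fin' 0 p k k v (mm n c d) := by
    intro p
    by_cases hp : p ∈ P
    · obtain ⟨h1, h2⟩ := mem_filter.1 hp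
      obtain ⟨v, hv⟩ := h p h2 (by have := mem_range.1 h1; omega)
      exact ⟨v, fun _ => hv⟩
    · exact ⟨0, fun hh => absurd hh hp⟩
  choose v hv using h'
  obtain ⟨h4, ⟨x, y, hxy⟩, hb⟩ := assemble (L := 0) P (fun p hp => (mem_filter.1 hp).2)
    (mem_filter.2 ⟨mem_range.2 (by omega), Nat.prime_two⟩) (fun _ => k) (fun _ => k) v
    (ι := Unit) (fun _ => mm n c d) (fun p hp _ => hv p hp)
  obtain ⟨b, hb1, hb2, hb3⟩ := hb ()
  set q₁ := ∏ p ∈ P, p ^ (k - v p) with hq₁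
  set G := ∏ p ∈ P, p ^ v p with hG
  have hq0 : q₁ ≠ 0 := prod_ne_zero_iff.2 fun p hp => pow_ne_zero _ (mem_filter.1 hp).2.ne_zero
  obtain ⟨r, -, hr, hrb⟩ := Nat.forall_exists_prime_gt_and_zmodEq 0 hq0 hb3
  have hr4 : r % 4 ≠ 3 := by
    have h4' : ((4 : ℕ) : ℤ) ∣ (q₁ : ℤ) := Int.natCast_dvd_natCast.2 h4
    have := (h4'.trans hrb.dvd)
    push_cast at this
    omega
  have := Fact.mk hr
  obtain ⟨z, w, hzw⟩ := Nat.Prime.sq_add_sq hr4
  obtain ⟨A, B, hAB⟩ := Nat.sq_add_sq_mul hxy hzw.symm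
  have hGq : G * q₁ = ∏ p ∈ P, p ^ k := by
    rw [hG, hq₁, ← prod_mul_distrib]
    refine prod_congr rfl fun p hp => ?_
    rw [← pow_add, Nat.add_sub_cancel' (hv p hp).1]
  have hqd : q ∣ G * q₁ := hGq ▸ Local_dvd hq (by omega)
  refine ⟨A, B, c, d, by omega, Nat.modEq_iff_dvd.2 ?_⟩
  have e1 : ((A ^ 2 + B ^ 2 + 3 ^ c + 5 ^ d : ℕ) : ℤ) - n = -((G : ℤ) * (b - r)) := by
    have e2 : ((A ^ 2 + B ^ 2 : ℕ) : ℤ) = (G : ℤ) * r := by rw [← hAB]; push_cast; ring
    unfold mm at hb1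
    push_cast at e2 ⊢
    linear_combination e2 - hb1
  rw [e1, dvd_neg]
  refine (Int.natCast_dvd_natCast.2 hqd).trans ?_
  push_cast
  exact mul_dvd_mul_left _ hrb.dvd

end Pool.Agent.MP_c903c4_nt
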