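import Pool.Agent.MP_c903c4_nt.GC
import Pool.Agent.MP_c903c4_nt.AP

/-!
The local-global theorem for almost all integers.
-/

open Finset Filter Topology
open scoped Classical

noncomputable section

namespace Pool.Agent.MP_c903c4_nt

lemma Loc.mod {q n : ℕ} (h : Loc q n) : Loc q (n % q) := by
  obtain ⟨a, b, c, d, h1, h2⟩ := h
  exact ⟨a, b, c, d, h1, (Nat.mod_modEq n q).trans h2⟩

theorem main {ε : ℝ} (hε : 0 < ε) : ∃ q : ℕ, 0 < q ∧ ∀ᶠ x : ℕ in atTop,
    (((range x).filter fun n => Loc q n ∧ ¬ Rep n).card : ℝ) ≤ ε * x := by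
  set η : ℝ := ε / 24002 with hη
  have hη0 : 0 < η := by positivity
  obtain ⟨q, Bad, hq, hB, hD⟩ := gc hη0
  refine ⟨q, hq, ?_⟩
  have h1 : ∀ᶠ X : ℕ in atTop, ∀ a ∈ range q, a ∉ Bad → Loc q a →
      (((range X).filter fun t : ℕ => ¬ Rep (a + q * t)).card : ℝ) ≤ 12000 * η * X := by
    refine (Filter.eventually_all_finset _).2 fun a ha => ?_
    by_cases h : a ∉ Bad ∧ Loc q a
    · exact (ap hη0 hq (hD a (mem_range.1 ha) h.1 h.2)).mono fun X hX _ _ => hX
    · exact Eventually.of_forall fun X h1 h2 => absurd ⟨h1, h2⟩ h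
  have t1 : Tendsto (fun x : ℕ => x / q + 1) atTop atTop :=
    tendsto_atTop_mono (fun x => Nat.le_succ _) (Nat.tendsto_div_const_atTop hq.ne')
  filter_upwards [t1.eventually h1, eventually_ge_atTop q] with x hx hxq
  set X := x / q + 1 with hX
  set A := (range x).filter fun n => Loc q n ∧ ¬ Rep n with hA
  have c1 : A.card = ∑ a ∈ range q, (A.filter fun n => n % q = a).card :=
    Finset.card_eq_sum_card_fiberwise fun a _ => by
      simp only [coe_range, Set.mem_Iio]
      exact Nat.mod_lt _ hq
  have c2 : ∀ a, (A.filter fun n => n % q = a).card ≤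
      ((range X).filter fun t : ℕ => ¬ Rep (a + q * t)).card := by
    intro a
    refine Finset.card_le_card_of_injOn (fun n => n / q) (fun n hn => ?_) fun n hn m hm h => ?_
    · obtain ⟨b1, b2⟩ := mem_filter.1 (Finset.mem_coe.1 hn)
      obtain ⟨b3, b4⟩ := mem_filter.1 b1
      refine Finset.mem_coe.2 (mem_filter.2 ⟨mem_range.2 ?_, ?_⟩)
      · exact Nat.lt_succ_of_le (Nat.div_le_div_right (mem_range.1 b3).le)
      · rw [← b2, Nat.mod_add_div]
        exact b4.2
    · have b1 := (mem_filter.1 (Finset.mem_coe.1 hn)).2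
      have b2 := (mem_filter.1 (Finset.mem_coe.1 hm)).2
      have h3 : n / q = m / q := h
      rw [← Nat.div_add_mod n q, ← Nat.div_add_mod m q, h3, b1, b2]
  have hX0 : (0 : ℝ) ≤ X := by positivity
  have c3 : ∀ a ∈ range q, ((A.filter fun n => n % q = a).card : ℝ) ≤
      (if a ∈ Bad then (X : ℝ) else 0) + 12000 * η * X := by
    intro a ha
    have c4 : ((A.filter fun n => n % q = a).card : ℝ) ≤
        ((range X).filter fun t : ℕ => ¬ Rep (a + q * t)).card := by exact_mod_cast c2 a
    have c5 : 0 ≤ 12000 * η * X := by positivity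
    split_ifs with h
    · have : (((range X).filter fun t : ℕ => ¬ Rep (a + q * t)).card : ℝ) ≤ X := by
        exact_mod_cast (Finset.card_filter_le _ _).trans (card_range X).le
      linarith
    · by_cases hl : Loc q a
      · have := hx a ha h hl
        linarith
      · have : (A.filter fun n => n % q = a) = ∅ := by
          refine Finset.filter_eq_empty_iff.2 fun n hn h' => hl ?_
          rw [← h']
          exact (mem_filter.1 hn).2.1.mod
        rw [this]
        simpa using c5
  have c6 := Finset.sum_le_sum c3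
  rw [← Nat.cast_sum, ← c1, Finset.sum_add_distrib, Finset.sum_const, card_range, nsmul_eq_mul,
    ← Finset.sum_filter, Finset.sum_const, nsmul_eq_mul] at c6
  have c7 : (((range q).filter fun a => a ∈ Bad).card : ℝ) ≤ η * q := by
    refine le_trans ?_ hB
    exact_mod_cast Finset.card_le_card fun a ha => (mem_filter.1 ha).2
  have c8 : (q : ℝ) * X ≤ 2 * x := by
    have : q * X ≤ 2 * x := by
      have := Nat.mul_div_le x q
      rw [hX, Nat.mul_succ]
      omega
    exact_mod_cast this
  have c9 := mul_le_mul_of_nonneg_right c7 hX0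
  have e : ε = 24002 * η := by rw [hη]; ring
  rw [e]
  nlinarith

end Pool.Agent.MP_c903c4_nt
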