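import Pool.Agent.MP_c903c4_nt.Defs

/-!
The character modulo four: sums of two squares, the hyperbola identity, the Leibniz series.
-/

open Finset Filter Topology
open scoped Classical

noncomputable section

namespace Pool.Agent.MP_c903c4_nt

theorem chi_mul (a b : ℕ) : chi (a * b) = chi a * chi b := by
  rw [chi, chi, chi, Nat.cast_mul, map_mul]

theorem abs_chi_le (a : ℕ) : |chi a| ≤ 1 := by
  rw [chi, ZMod.χ₄_nat_eq_if_mod_four]
  split_ifs <;> simp

theorem chi_one : chi 1 = 1 := by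
  simp [chi]

lemma Rho_mul {a b : ℕ} (h : a.Coprime b) : rho (a * b) = rho a * rho b := by
  rw [rho, rho, rho, Nat.divisors_mul, ← Finset.image_mul_product,
    sum_image (by simpa using h.mul_injOn_divisors), sum_product, sum_mul_sum]
  exact sum_congr rfl fun x _ => sum_congr rfl fun y _ => chi_mul x y

theorem sumsq_of_rho {m : ℕ} (h : rho m ≠ 0) : ∃ a b : ℕ, m = a ^ 2 + b ^ 2 := by
  refine Nat.eq_sq_add_sq_iff.2 fun p hp' h3 => ?_
  obtain ⟨hp, -, hm⟩ := Nat.mem_primeFactors.1 hp'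
  obtain ⟨v, k, hk, rfl⟩ := Nat.exists_eq_pow_mul_and_not_dvd hm p hp.ne_one
  have := Fact.mk hp
  have hk0 : k ≠ 0 := by rintro rfl; simp at hk
  rw [padicValNat.mul (pow_ne_zero _ hp.ne_zero) hk0, padicValNat.prime_pow,
    padicValNat.eq_zero_of_not_dvd hk, add_zero]
  by_contra ho
  apply h
  rw [Rho_mul (((Nat.Prime.coprime_iff_not_dvd hp).2 hk).pow_left v), rho,
    Nat.sum_divisors_prime_pow hp]
  have e : ∀ j, chi (p ^ j) = (-1) ^ j := fun j => by
    rw [chi, Nat.cast_pow, map_pow, ZMod.χ₄_nat_three_mod_four h3]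
  simp only [e]
  rw [neg_one_geom_sum, if_pos (Nat.not_even_iff_odd.1 ho).add_one, zero_mul]

theorem hyper {m D : ℕ} (hm : m % 4 = 1) (hD : D ^ 2 < m) :
    |rho m - 2 * ∑ d ∈ (Ioc 0 D).filter (fun d => d ∣ m), chi d| ≤
      (((Ioc D m).filter fun e => e ∣ m ∧ e * D < m).card : ℤ) := by
  have m0 : m ≠ 0 := by omega
  have h1 : m.divisors.filter (fun d => d ≤ D) = (Ioc 0 D).filter (fun d => d ∣ m) := by
    ext d
    simp only [mem_filter, Nat.mem_divisors, mem_Ioc]
    exact ⟨fun h => ⟨⟨Nat.pos_of_dvd_of_pos h.1.1 (by omega), h.2⟩, h.1.1⟩,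
      fun h => ⟨⟨h.2, m0⟩, h.1.2⟩⟩
  have h2 : ∑ d ∈ m.divisors.filter (fun d => ¬ d ≤ D), chi d =
      ∑ e ∈ m.divisors.filter (fun e => e * D < m), chi e := by
    refine sum_nbij' (fun d => m / d) (fun d => m / d) ?_ ?_ ?_ ?_ ?_
    · intro d hd
      obtain ⟨hd, h⟩ := mem_filter.1 hd
      obtain ⟨e, rfl⟩ := Nat.dvd_of_mem_divisors hd
      have d0 : 0 < d := by omega
      have e0 : 0 < e := Nat.pos_of_ne_zero (by rintro rfl; simp at m0)
      rw [Nat.mul_div_cancel_left e d0]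
      exact mem_filter.2 ⟨Nat.mem_divisors.2 ⟨dvd_mul_left _ _, m0⟩, by nlinarith [not_le.1 h]⟩
    · intro e he
      obtain ⟨he, h⟩ := mem_filter.1 he
      obtain ⟨d, rfl⟩ := Nat.dvd_of_mem_divisors he
      have e0 : 0 < e := Nat.pos_of_ne_zero (by rintro rfl; simp at m0)
      rw [Nat.mul_div_cancel_left d e0]
      exact mem_filter.2 ⟨Nat.mem_divisors.2 ⟨dvd_mul_left _ _, m0⟩,
        not_le.2 (lt_of_mul_lt_mul_left h e.zero_le)⟩
    · intro d hd
      exact Nat.div_div_self (Nat.dvd_of_mem_divisors (mem_filter.1 hd).1) m0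
    · intro d hd
      exact Nat.div_div_self (Nat.dvd_of_mem_divisors (mem_filter.1 hd).1) m0
    · intro d hd
      obtain ⟨e, rfl⟩ := Nat.dvd_of_mem_divisors (mem_filter.1 hd).1
      have d0 : 0 < d := Nat.pos_of_ne_zero (by rintro rfl; simp at m0)
      rw [Nat.mul_div_cancel_left e d0]
      have h : chi d * chi e = 1 := by rw [← chi_mul, chi, ZMod.χ₄_nat_one_mod_four hm]
      exact Int.eq_of_mul_eq_one h
  have h3 : (m.divisors.filter (fun e => e * D < m)).filter (fun d => d ≤ D) =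
      (Ioc 0 D).filter (fun d => d ∣ m) := by
    rw [← h1, filter_comm]
    exact filter_true_of_mem fun d hd => by nlinarith [(mem_filter.1 hd).2]
  have h4 : (m.divisors.filter (fun e => e * D < m)).filter (fun d => ¬ d ≤ D) =
      (Ioc D m).filter fun e => e ∣ m ∧ e * D < m := by
    ext d
    simp only [mem_filter, Nat.mem_divisors, mem_Ioc, not_le]
    exact ⟨fun h => ⟨⟨h.2, Nat.le_of_dvd (by omega) h.1.1.1⟩, h.1.1.1, h.1.2⟩,
      fun h => ⟨⟨⟨h.2.1, m0⟩, h.2.2⟩, h.1.1⟩⟩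
  rw [rho, ← sum_filter_add_sum_filter_not m.divisors (fun d => d ≤ D), h1, h2,
    ← sum_filter_add_sum_filter_not (m.divisors.filter fun e => e * D < m) (fun d => d ≤ D), h3, h4,
    two_mul, ← add_assoc, add_sub_cancel_left]
  refine (abs_sum_le_sum_abs _ _).trans ((sum_le_sum fun d _ => abs_chi_le d).trans ?_)
  simp

lemma Rho_one (N : ℕ) : Aco 1 N = ∑ i ∈ range ((N + 1) / 2), (-1 : ℝ) ^ i / (2 * i + 1) := by
  have e : ∀ N, Aco 1 N = ∑ e ∈ Ioc 0 N, (chi e : ℝ) / e := fun N => by simp [Aco, Cop]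
  rw [e]
  induction N with
  | zero => simp
  | succ N ih =>
    rw [sum_Ioc_succ_top N.zero_le, ih]
    rcases Nat.even_or_odd' N with ⟨k, rfl | rfl⟩
    · rw [show (2 * k + 1 + 1) / 2 = k + 1 by omega, show (2 * k + 1) / 2 = k by omega,
        sum_range_succ, chi, ZMod.χ₄_eq_neg_one_pow (by omega), show (2 * k + 1) / 2 = k by omega]
      push_cast
      rfl
    · rw [show (2 * k + 1 + 1 + 1) / 2 = (2 * k + 1 + 1) / 2 by omega, chi,
        ZMod.χ₄_nat_eq_if_mod_four, if_pos (by omega)]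
      simp

lemma Rho_step {p q : ℕ} (hp : p.Prime) (h : ¬ p ∣ q) (N : ℕ) :
    Aco (p * q) N = Aco q N - (chi p : ℝ) / p * Aco q (N / p) := by
  have hc : p.Coprime q := (Nat.Prime.coprime_iff_not_dvd hp).2 h
  have h1 : Cop (p * q) 0 N = (Cop q 0 N).filter fun e => ¬ p ∣ e := by
    ext e
    simp only [Cop, mem_filter, Nat.coprime_mul_iff_right, ← hp.coprime_iff_not_dvd,
      Nat.coprime_comm (n := p)]
    tauto
  have h2 : ∑ e ∈ (Cop q 0 N).filter (fun e => p ∣ e), (chi e : ℝ) / e =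
      (chi p : ℝ) / p * Aco q (N / p) := by
    rw [Aco, mul_sum]
    symm
    refine sum_nbij' (fun e => p * e) (fun e => e / p) ?_ ?_ ?_ ?_ ?_
    · intro e he
      simp only [Cop, mem_filter, mem_Ioc] at he ⊢
      exact ⟨⟨⟨Nat.mul_pos hp.pos he.1.1, (mul_comm p e).trans_le
        ((Nat.le_div_iff_mul_le hp.pos).1 he.1.2)⟩, hc.mul_left he.2⟩, dvd_mul_right _ _⟩
    · intro e he
      simp only [Cop, mem_filter, mem_Ioc] at he ⊢
      obtain ⟨⟨⟨a, b⟩, c⟩, k, rfl⟩ := he
      rw [Nat.mul_div_cancel_left k hp.pos]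
      exact ⟨⟨Nat.pos_of_mul_pos_left a, (Nat.le_div_iff_mul_le hp.pos).2 (by rwa [mul_comm])⟩,
        c.coprime_mul_left⟩
    · intro e _
      exact Nat.mul_div_cancel_left e hp.pos
    · intro e he
      exact Nat.mul_div_cancel' (mem_filter.1 he).2
    · intro e _
      rw [chi_mul]
      push_cast
      rw [div_mul_div_comm]
  rw [← h2, Aco, Aco, h1, ← sum_filter_add_sum_filter_not (Cop q 0 N) (fun e => p ∣ e),
    add_sub_cancel_left]

theorem A_lim {q : ℕ} (hq : 0 < q) : ∃ A : ℝ, 0 < A ∧ Tendsto (Aco q) atTop (𝓝 A) := by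
  induction q using induction_on_primes with
  | zero => exact absurd hq (lt_irrefl 0)
  | one =>
    refine ⟨Real.pi / 4, by positivity, ?_⟩
    rw [funext Rho_one]
    exact Real.tendsto_sum_pi_div_four.comp
      ((Nat.tendsto_div_const_atTop two_ne_zero).comp (tendsto_add_atTop_nat 1))
  | prime_mul p q hp ih =>
    obtain ⟨A, hA, h⟩ := ih (Nat.pos_of_mul_pos_left hq)
    by_cases hd : p ∣ q
    · refine ⟨A, hA, h.congr fun N => ?_⟩
      unfold Aco Cop
      refine sum_congr (filter_congr fun e _ => ?_) fun _ _ => rfl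
      rw [Nat.coprime_mul_iff_right]
      exact ⟨fun h => ⟨h.coprime_dvd_right hd, h⟩, fun h => h.2⟩
    · refine ⟨A - (chi p : ℝ) / p * A, ?_, ?_⟩
      · have h1 : (chi p : ℝ) ≤ 1 := by exact_mod_cast (le_abs_self _).trans (abs_chi_le p)
        have h2 : (1 : ℝ) < p := by exact_mod_cast hp.one_lt
        have h3 : (chi p : ℝ) / p < 1 := (div_lt_one (by linarith)).2 (by linarith)
        nlinarith
      · rw [funext (Rho_step hp hd)]
        exact h.sub ((h.comp (Nat.tendsto_div_const_atTop hp.ne_zero)).const_mul _)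

end Pool.Agent.MP_c903c4_nt
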